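import Pool.Agent.Helper21.LK.Clt
import Pool.Agent.Helper21.QA.Key
import Pool.Graph.R_seed8.Y941.KW.Tail
import Pool.Graph.R_seed8.Y37.KW.XD

/-!
# Concatenation of configurations
-/

namespace Pool.Agent.Helper21.LK

open H906K Pool.Agent.H974R3

theorem run_append (m M : ℕ) (c : Fin M → Fin (m + 1) → Bool) (σ : Pat (m + 1)) (M' : ℕ) :
    ∀ c' : Fin M' → Fin (m + 1) → Bool, run m (M + M') (Fin.append c c') σ =
      ((run m M' c' (run m M c σ).1).1, (run m M c σ).2 + (run m M' c' (run m M c σ).1).2) := by
  induction M' with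
  | zero =>
    intro c'
    have h : Fin.append c c' = c := by
      funext i
      exact Fin.append_left c c' i
    show run m M (Fin.append c c') σ = _
    rw [h]
    simp [run]
  | succ M' ih =>
    intro c'
    have h1 : (fun i : Fin (M + M') => Fin.append c c' (Fin.castSucc (n := M + M') i)) =
        Fin.append c (fun i => c' i.castSucc) := by
      funext i
      refine Fin.addCases (fun i => ?_) (fun i => ?_) i
      · rw [Fin.append_left]
        exact Fin.append_left c c' i
      · rw [Fin.append_right]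
        exact Fin.append_right c c' i.castSucc
    have h2 : Fin.append c c' (Fin.last (M + M')) = c' (Fin.last M') :=
      Fin.append_right c c' (Fin.last M')
    show (Tc m (Fin.append c c' (Fin.last (M + M')))
        (run m (M + M') (fun i : Fin (M + M') => Fin.append c c' (Fin.castSucc (n := M + M') i)) σ).1,
        (run m (M + M') (fun i : Fin (M + M') => Fin.append c c' (Fin.castSucc (n := M + M') i)) σ).2 +
        dTc m (Fin.append c c' (Fin.last (M + M')))
        (run m (M + M') (fun i : Fin (M + M') => Fin.append c c' (Fin.castSucc (n := M + M') i)) σ).1)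
        = _
    rw [h1, h2, ih]
    simp only [run]
    rw [add_assoc]

variable {n : ℕ}

theorem weight_append (M M' : ℕ) (p : ℕ → ℝ) (c : Fin M → Fin (2 * n + 1) → Bool)
    (c' : Fin M' → Fin (2 * n + 1) → Bool) :
    weight n (M + M') p (Fin.append c c') =
      weight n M p c * weight n M' (fun s => p (M + s)) c' := by
  unfold weight
  rw [Fin.prod_univ_add]
  congr 1
  · refine Finset.prod_congr rfl fun t _ => Finset.prod_congr rfl fun j _ => ?_
    rw [Fin.append_left]
    rfl
  · refine Finset.prod_congr rfl fun t _ => Finset.prod_congr rfl fun j _ => ?_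
    rw [Fin.append_right]
    rfl

theorem avg_append (M M' : ℕ) (p : ℕ → ℝ) (f : (Fin (M + M') → Fin (2 * n + 1) → Bool) → ℝ) :
    avg n (M + M') p f = avg n M p (fun c => avg n M' (fun s => p (M + s))
      (fun c' => f (Fin.append c c'))) := by
  unfold avg
  rw [← (Fin.appendEquiv M M').sum_comp, Fintype.sum_prod_type]
  refine Finset.sum_congr rfl fun c _ => ?_
  rw [Finset.mul_sum]
  refine Finset.sum_congr rfl fun c' _ => ?_
  show weight n (M + M') p (Fin.append c c') * f (Fin.append c c') =
    weight n M p c * (weight n M' (fun s => p (M + s)) c' * f (Fin.append c c'))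
  rw [weight_append]
  ring

/-- expectation of complex functions -/
noncomputable def cav (n M : ℕ) (p : ℕ → ℝ) (f : (Fin M → Fin (2 * n + 1) → Bool) → ℂ) : ℂ :=
  ∑ c, (weight n M p c : ℂ) * f c

theorem cav_append (M M' : ℕ) (p : ℕ → ℝ) (f : (Fin (M + M') → Fin (2 * n + 1) → Bool) → ℂ) :
    cav n (M + M') p f = cav n M p (fun c => cav n M' (fun s => p (M + s))
      (fun c' => f (Fin.append c c'))) := by
  unfold cav
  rw [← (Fin.appendEquiv M M').sum_comp, Fintype.sum_prod_type]
  refine Finset.sum_congr rfl fun c _ => ?_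
  rw [Finset.mul_sum]
  refine Finset.sum_congr rfl fun c' _ => ?_
  show (weight n (M + M') p (Fin.append c c') : ℂ) * f (Fin.append c c') =
    weight n M p c * (weight n M' (fun s => p (M + s)) c' * f (Fin.append c c'))
  rw [weight_append]
  push_cast
  ring

/-- the error of additivity -/
noncomputable def BB (n : ℕ) : ℝ := 2 * (2 * n + 1) ^ 2 + 4 * (2 * n + 1)

theorem BB_pos (n : ℕ) : 0 < BB n := by unfold BB; positivity

theorem Xd_append (hn : 1 ≤ n) (M M' : ℕ) (c : Fin M → Fin (2 * n + 1) → Bool)
    (c' : Fin M' → Fin (2 * n + 1) → Bool) :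
    |(Xd n (M + M') (Fin.append c c') : ℝ) - Xd n M c - Xd n M' c'| ≤ BB n := by
  have hXD := Pool.Agent.Y37.KW.xd Pool.Agent.Y932.KW.t_INJ Pool.Agent.Y932.KW.t_HIT
  have hLOC := Pool.Agent.Y37.KW.loc
  set ω := Fin.append c c' with hω
  have e1 : Xd n M c = Y994.KW.dsp n 0 M (Y994.KW.cfg n (M + M') ω) := by
    rw [hXD n M c hn]
    have h1 := hLOC n 0 M 0 (Y994.KW.cfg n M c) (Y994.KW.cfg n (M + M') ω) hn
      (by positivity)
      (fun j t h0 h1 => Pool.Agent.Y941.KW.cfg_shift n (M + M') M 0 ω c (by omega)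
        (fun t => by
          rw [hω]
          have : (⟨0 + t, by omega⟩ : Fin (M + M')) = Fin.castAdd M' t := Fin.ext (by simp)
          rw [this, Fin.append_left]) j t h0 h1)
    rw [add_zero, add_zero] at h1
    exact h1.symm
  have e2 : Xd n M' c' = Y994.KW.dsp n M ((M + M' : ℕ) : ℤ) (Y994.KW.cfg n (M + M') ω) := by
    rw [hXD n M' c' hn]
    have h1 := hLOC n 0 M' M (Y994.KW.cfg n M' c') (Y994.KW.cfg n (M + M') ω) hn (by positivity)
      (fun j t h0 h1 => Pool.Agent.Y941.KW.cfg_shift n (M + M') M' M ω c' le_rfl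
        (fun t => by
          rw [hω]
          have : (⟨M + t, by omega⟩ : Fin (M + M')) = Fin.natAdd M t := Fin.ext (by simp)
          rw [this, Fin.append_right]) j t h0 h1)
    rw [zero_add, add_comm (M' : ℤ)] at h1
    push_cast
    exact h1.symm
  have e3 : Xd n (M + M') ω = Y994.KW.dsp n 0 ((M + M' : ℕ) : ℤ) (Y994.KW.cfg n (M + M') ω) :=
    hXD n (M + M') ω hn
  have h := Pool.Agent.Helper21.QA.quasi (a := 0) (s := M) (b := ((M + M' : ℕ) : ℤ)) hn
    (Pool.Agent.Y941.KW.per_cfg n _ ω) (by positivity) (by push_cast; omega)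
  rw [← e1, ← e2, ← e3] at h
  unfold BB
  exact_mod_cast h

end Pool.Agent.Helper21.LK
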