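import Pool.Agent.Helper21.JL.Expo2

/-!
# The characteristic function of a block
-/

namespace Pool.Agent.Helper21.LK

open H906K Pool.Agent.H974R3 Polynomial Filter Topology

theorem exp_three (x : ℝ) :
    ‖Complex.exp (Complex.I * (x : ℂ)) - (1 + Complex.I * (x : ℂ) - ((x ^ 2 / 2 : ℝ) : ℂ))‖ ≤
      4 * |x| ^ 3 := by
  have hn : ‖Complex.I * (x : ℂ)‖ = |x| := by
    rw [norm_mul, Complex.norm_I, one_mul, Complex.norm_real, Real.norm_eq_abs]
  rcases le_or_gt |x| 1 with hx | hx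
  · have h := Complex.exp_bound (x := Complex.I * (x : ℂ)) (by rw [hn]; exact hx) (n := 3)
      (by norm_num)
    rw [hn] at h
    have e : ∑ m ∈ Finset.range 3, (Complex.I * (x : ℂ)) ^ m / (Nat.factorial m : ℂ) =
        1 + Complex.I * (x : ℂ) - ((x ^ 2 / 2 : ℝ) : ℂ) := by
      simp only [Finset.sum_range_succ, Finset.sum_range_zero, pow_zero, pow_one, zero_add,
        Nat.factorial, mul_pow, Complex.I_sq]
      push_cast
      ring
    rw [e] at h
    refine h.trans ?_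
    have h3 : 0 ≤ |x| ^ 3 := by positivity
    norm_num [Nat.factorial]
    nlinarith
  · have h1 : ‖Complex.exp (Complex.I * (x : ℂ))‖ = 1 := norm_cexp x
    have h2 : ‖(1 : ℂ) + Complex.I * (x : ℂ) - ((x ^ 2 / 2 : ℝ) : ℂ)‖ ≤ 1 + |x| + x ^ 2 / 2 := by
      refine (norm_sub_le _ _).trans ?_
      refine add_le_add ((norm_add_le _ _).trans ?_) ?_
      · rw [hn, norm_one]
      · rw [Complex.norm_real, Real.norm_eq_abs, abs_of_nonneg (by positivity)]
    refine (norm_sub_le _ _).trans ?_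
    rw [h1]
    have h5 : x ^ 2 = |x| ^ 2 := (sq_abs x).symm
    have h3 : 1 ≤ |x| ^ 2 := by nlinarith
    have h4 : |x| ^ 2 ≤ |x| ^ 3 := by
      rw [pow_succ |x| 2]
      nlinarith
    have h6 : |x| ≤ |x| ^ 2 := by nlinarith
    linarith

theorem exp_neg_two {u : ℝ} (hu : 0 ≤ u) : |Real.exp (-u) - (1 - u)| ≤ u ^ 2 := by
  have h1 := Real.add_one_le_exp (-u)
  rw [abs_of_nonneg (by linarith)]
  rcases le_or_gt u 1 with h2 | h2
  · have h3 := (abs_le.1 (Real.abs_exp_sub_one_sub_id_le (x := -u)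
      (by rw [abs_neg, abs_of_nonneg hu]; exact h2))).2
    nlinarith
  · have h3 : Real.exp (-u) ≤ 1 := Real.exp_le_one_iff.2 (by linarith)
    nlinarith

/-- the error of a block -/
noncomputable def eps (n : ℕ) (l A : ℝ) : ℝ :=
  4608 * |l| ^ 3 * A ^ 3 + 8 * BB n * A * l ^ 2 + l ^ 4 * A ^ 4

theorem eps_mono {n : ℕ} {l A A' : ℝ} (h0 : 0 ≤ A) (h1 : A ≤ A') : eps n l A ≤ eps n l A' := by
  have hB := (BB_pos n).le
  unfold eps
  gcongr

section
variable {n : ℕ}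

theorem cav_const (M : ℕ) (p : ℕ → ℝ) (a : ℂ) : cav n M p (fun _ => a) = a := by
  unfold cav
  rw [← Finset.sum_mul, ← Complex.ofReal_sum, sum_weight, Complex.ofReal_one, one_mul]

theorem cav_norm_le {M : ℕ} {p : ℕ → ℝ} (hp : ∀ s, 0 ≤ p s ∧ p s ≤ 1)
    (f : (Fin M → Fin (2 * n + 1) → Bool) → ℂ) :
    ‖cav n M p f‖ ≤ avg n M p (fun c => ‖f c‖) := by
  unfold cav avg
  refine (norm_sum_le _ _).trans (le_of_eq ?_)
  refine Finset.sum_congr rfl fun c _ => ?_
  rw [norm_mul, Complex.norm_real, Real.norm_eq_abs, abs_of_nonneg (weight_nonneg hp c)]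

theorem cav_sub (M : ℕ) (p : ℕ → ℝ) (f g : (Fin M → Fin (2 * n + 1) → Bool) → ℂ) :
    cav n M p f - cav n M p g = cav n M p (fun c => f c - g c) := by
  unfold cav
  rw [← Finset.sum_sub_distrib]
  exact Finset.sum_congr rfl fun c _ => by ring

theorem cav_mul (M : ℕ) (p : ℕ → ℝ) (a : ℂ) (f : (Fin M → Fin (2 * n + 1) → Bool) → ℂ) :
    cav n M p (fun c => a * f c) = a * cav n M p f := by
  unfold cav
  rw [Finset.mul_sum]
  exact Finset.sum_congr rfl fun c _ => by ring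

theorem cav_real (M : ℕ) (p : ℕ → ℝ) (f : (Fin M → Fin (2 * n + 1) → Bool) → ℝ) :
    cav n M p (fun c => (f c : ℂ)) = ((avg n M p f : ℝ) : ℂ) := by
  unfold cav avg
  push_cast
  rfl

variable {w : Pat (2 * n + 1) → PowerSeries ℂ} {t : (PowerSeries ℂ)[X]}
variable (hn : 1 ≤ n) (hw : ∀ σ, PowerSeries.coeff 0 (w σ) = 1)
    (h : ∀ x : ℂ, (TL (2 * n) (PowerSeries.C om) (PowerSeries.C x) ez).vecMul w =
      (t.eval (PowerSeries.C x)) • w)
include hn hw h

/-- the characteristic function of a block -/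
theorem block {p : ℕ → ℝ} (hp : ∀ s, 0 ≤ p s ∧ p s ≤ 1) (M : ℕ) {σ : Pat (2 * n + 1)}
    (hσ : Reach n σ) (l : ℝ) :
    ‖cav n M p (fun c => Complex.exp (Complex.I * ((l * yy w t M p σ c : ℝ) : ℂ))) -
      Complex.exp (-((l ^ 2 * (∑ s ∈ Finset.range M, vv t n (p s)) / 2 : ℝ) : ℂ))‖ ≤
      eps n l (sc t n M p) := by
  have hsc := sc_pos (t := t) (n := n) M p
  have hB := BB_pos n
  set V : ℝ := ∑ s ∈ Finset.range M, vv t n (p s) with hV
  set A : ℝ := sc t n M p with hA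
  have hAV : A = Real.sqrt V + 8 * BB n := rfl
  obtain ⟨hV0, hE, -⟩ := sec_main hn hw h hp M
  rw [← hV] at hV0 hE
  have hE := hE σ hσ
  have hm := yy_mean hw h p σ M
  -- third order
  have h1 : ‖cav n M p (fun c => Complex.exp (Complex.I * ((l * yy w t M p σ c : ℝ) : ℂ))) -
      ((1 - l ^ 2 * E2 w t M p σ / 2 : ℝ) : ℂ)‖ ≤ 4608 * |l| ^ 3 * A ^ 3 := by
    have e1 : ((1 - l ^ 2 * E2 w t M p σ / 2 : ℝ) : ℂ) = cav n M p (fun c =>
        1 + Complex.I * ((l * yy w t M p σ c : ℝ) : ℂ) -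
          (((l * yy w t M p σ c) ^ 2 / 2 : ℝ) : ℂ)) := by
      have e2 : cav n M p (fun c => 1 + Complex.I * ((l * yy w t M p σ c : ℝ) : ℂ) -
          (((l * yy w t M p σ c) ^ 2 / 2 : ℝ) : ℂ)) =
          cav n M p (fun _ => 1) + Complex.I * l * cav n M p (fun c => (yy w t M p σ c : ℂ)) -
          ((l ^ 2 / 2 : ℝ) : ℂ) * cav n M p (fun c => ((yy w t M p σ c ^ 2 : ℝ) : ℂ)) := by
        unfold cav
        rw [Finset.mul_sum, Finset.mul_sum, ← Finset.sum_add_distrib, ← Finset.sum_sub_distrib]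
        refine Finset.sum_congr rfl fun c _ => ?_
        push_cast
        ring
      rw [e2, cav_const, cav_real, cav_real]
      have e3 : avg n M p (fun c => yy w t M p σ c) = 0 := hm
      rw [e3]
      have e4 : avg n M p (fun c => yy w t M p σ c ^ 2) = E2 w t M p σ := rfl
      rw [e4]
      push_cast
      ring
    rw [e1, cav_sub]
    refine (cav_norm_le hp _).trans ?_
    calc _ ≤ avg n M p (fun c => 4 * |l| ^ 3 * |yy w t M p σ c| ^ 3) := by
          refine avg_mono hp fun c => ?_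
          refine (exp_three (l * yy w t M p σ c)).trans (le_of_eq ?_)
          rw [abs_mul, mul_pow]
          ring
      _ ≤ 4 * |l| ^ 3 * (1152 * A ^ 3) := by
          rw [avg_smul]
          exact mul_le_mul_of_nonneg_left (third hn hw h hp M hσ) (by positivity)
      _ = _ := by ring
  have h2 : ‖((1 - l ^ 2 * E2 w t M p σ / 2 : ℝ) : ℂ) - ((1 - l ^ 2 * V / 2 : ℝ) : ℂ)‖ ≤
      8 * BB n * A * l ^ 2 := by
    rw [← Complex.ofReal_sub, Complex.norm_real, Real.norm_eq_abs]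
    have hE0 : 0 ≤ E2 w t M p σ := avg_nonneg hp _ fun c => sq_nonneg _
    set a : ℝ := Real.sqrt (E2 w t M p σ) with ha
    set b : ℝ := Real.sqrt V with hb
    have ha2 : a ^ 2 = E2 w t M p σ := Real.sq_sqrt hE0
    have hb2 : b ^ 2 = V := Real.sq_sqrt hV0
    have ha0 : 0 ≤ a := Real.sqrt_nonneg _
    have hb0 : 0 ≤ b := Real.sqrt_nonneg _
    rw [← ha2, ← hb2]
    have e : 1 - l ^ 2 * a ^ 2 / 2 - (1 - l ^ 2 * b ^ 2 / 2) = -(l ^ 2 * ((a - b) * (a + b)) / 2) := by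
      ring
    rw [e, abs_neg, abs_div, abs_mul, abs_mul, abs_of_nonneg (sq_nonneg l),
      abs_of_nonneg (add_nonneg ha0 hb0), abs_two]
    have h3 : a + b ≤ 2 * A := by
      have := (abs_le.1 hE).2
      rw [hAV]
      linarith
    have h4 : |a - b| * (a + b) ≤ 8 * BB n * (2 * A) :=
      mul_le_mul hE h3 (by positivity) (by positivity)
    have h5 : l ^ 2 * (|a - b| * (a + b)) ≤ l ^ 2 * (8 * BB n * (2 * A)) :=
      mul_le_mul_of_nonneg_left h4 (sq_nonneg l)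
    linarith
  have h3 : ‖((1 - l ^ 2 * V / 2 : ℝ) : ℂ) - Complex.exp (-((l ^ 2 * V / 2 : ℝ) : ℂ))‖ ≤
      l ^ 4 * A ^ 4 := by
    rw [← Complex.ofReal_neg, ← Complex.ofReal_exp, ← Complex.ofReal_sub, Complex.norm_real,
      Real.norm_eq_abs, abs_sub_comm]
    refine (exp_neg_two (by positivity)).trans ?_
    have hVA : V ≤ A ^ 2 := by
      rw [← Real.sq_sqrt hV0]
      apply pow_le_pow_left₀ (Real.sqrt_nonneg _)
      rw [hAV]
      linarith
    have h4 : V ^ 2 ≤ A ^ 4 := by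
      calc V ^ 2 ≤ (A ^ 2) ^ 2 := pow_le_pow_left₀ hV0 hVA 2
        _ = A ^ 4 := by ring
    calc (l ^ 2 * V / 2) ^ 2 = l ^ 4 * V ^ 2 / 4 := by ring
      _ ≤ l ^ 4 * A ^ 4 / 4 := by
          have : 0 ≤ l ^ 4 := by positivity
          nlinarith
      _ ≤ l ^ 4 * A ^ 4 := by
          have : 0 ≤ l ^ 4 * A ^ 4 := by positivity
          linarith
  have e : cav n M p (fun c => Complex.exp (Complex.I * ((l * yy w t M p σ c : ℝ) : ℂ))) -
      Complex.exp (-((l ^ 2 * V / 2 : ℝ) : ℂ)) =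
      (cav n M p (fun c => Complex.exp (Complex.I * ((l * yy w t M p σ c : ℝ) : ℂ))) -
        ((1 - l ^ 2 * E2 w t M p σ / 2 : ℝ) : ℂ)) +
      (((1 - l ^ 2 * E2 w t M p σ / 2 : ℝ) : ℂ) - ((1 - l ^ 2 * V / 2 : ℝ) : ℂ)) +
      (((1 - l ^ 2 * V / 2 : ℝ) : ℂ) - Complex.exp (-((l ^ 2 * V / 2 : ℝ) : ℂ))) := by ring
  rw [e]
  refine (norm_add₃_le).trans ?_
  unfold eps
  linarith

end

end Pool.Agent.Helper21.LK
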