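import Pool.Agent.Helper21.JL.Sec2

/-!
# Exponential moments
-/

namespace Pool.Agent.Helper21.LK

open H906K Pool.Agent.H974R3 Polynomial Filter Topology

theorem abs_dE_le {m : ℕ} (i : ℕ) (σ : Pat (m + 1)) : |dE m i σ| ≤ m := by
  have hN : (0 : ℤ) < (m : ℤ) + 1 := by positivity
  have key : ∀ x : ℤ, 0 ≤ x % ((m : ℤ) + 1) ∧ x % ((m : ℤ) + 1) ≤ m := fun x =>
    ⟨Int.emod_nonneg x hN.ne', by have := Int.emod_lt_of_pos x hN; omega⟩
  unfold dE
  split
  · rename_i b _ _
    have := key ((b.val : ℤ) - i)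
    rw [abs_of_nonneg this.1]
    exact this.2
  · rename_i a _ _
    have := key ((i : ℤ) + 1 - a.val)
    rw [abs_neg, abs_of_nonneg this.1]
    exact this.2
  · simp

theorem abs_dword_le {m : ℕ} (c : Fin (m + 1) → Bool) (k j : ℕ) (σ : Pat (m + 1)) :
    |dword m c k j σ| ≤ j * m := by
  induction j with
  | zero => simp [dword]
  | succ j ih =>
    unfold dword
    refine (abs_add_le _ _).trans ?_
    have h1 : |if c (ix m (k + j + 1)) = true then dE m (k + j) (word m c k j σ) else 0| ≤ m := by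
      split_ifs
      · exact abs_dE_le _ _
      · simp
    push_cast
    linarith

theorem abs_dTc_le {m : ℕ} (c : Fin (m + 1) → Bool) (σ : Pat (m + 1)) :
    |dTc m c σ| ≤ m * m + 1 := by
  unfold dTc
  split_ifs with h
  · refine (abs_add_le _ _).trans ?_
    have := abs_dword_le c (Nat.find h) m σ
    rw [abs_one]
    linarith
  · rw [abs_neg, abs_one]
    have : (0 : ℤ) ≤ m * m := by positivity
    linarith

section
variable {n : ℕ} {w : Pat (2 * n + 1) → PowerSeries ℂ} {t : (PowerSeries ℂ)[X]}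

theorem run_one (c : Fin 1 → Fin (2 * n + 1) → Bool) (σ : Pat (2 * n + 1)) :
    run (2 * n) 1 c σ = (Tc (2 * n) (c 0) σ, dTc (2 * n) (c 0) σ) := by
  show (_, _) = _
  simp only [run]
  rw [zero_add]
  rfl

theorem run_one_le (c : Fin 1 → Fin (2 * n + 1) → Bool) (σ : Pat (2 * n + 1)) :
    |((run (2 * n) 1 c σ).2 : ℝ)| ≤ BB n / 2 := by
  rw [run_one]
  have h := abs_dTc_le (c 0) σ
  have h1 : |((dTc (2 * n) (c 0) σ : ℤ) : ℝ)| ≤ ((2 * n : ℕ) : ℝ) * ((2 * n : ℕ) : ℝ) + 1 := by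
    exact_mod_cast h
  refine h1.trans ?_
  unfold BB
  push_cast
  have : (0 : ℝ) ≤ n := Nat.cast_nonneg n
  nlinarith

/-- quadratic variation -/
noncomputable def QQ (w : Pat (2 * n + 1) → PowerSeries ℂ) (t : (PowerSeries ℂ)[X]) :
    (M : ℕ) → (ℕ → ℝ) → Pat (2 * n + 1) → (Fin M → Fin (2 * n + 1) → Bool) → ℝ
  | 0, _, _, _ => 0
  | (M + 1), p, σ, c => QQ w t M p σ (fun i => c i.castSucc) +
      E2 w t 1 (fun s => p (M + s)) (run (2 * n) M (fun i => c i.castSucc) σ).1

theorem QQ_append (M : ℕ) (p : ℕ → ℝ) (σ : Pat (2 * n + 1))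
    (c : Fin M → Fin (2 * n + 1) → Bool) (M' : ℕ) : ∀ (c' : Fin M' → Fin (2 * n + 1) → Bool),
    QQ w t (M + M') p σ (Fin.append c c') = QQ w t M p σ c +
      QQ w t M' (fun s => p (M + s)) (run (2 * n) M c σ).1 c' := by
  induction M' with
  | zero =>
    intro c'
    have h : Fin.append c c' = c := by
      funext i
      exact Fin.append_left c c' i
    show QQ w t M p σ (Fin.append c c') = _
    rw [h]
    simp [QQ]
  | succ M' ih =>
    intro c'
    have h1 : (fun i : Fin (M + M') => Fin.append c c' (Fin.castSucc (n := M + M') i)) =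
        Fin.append c (fun i => c' i.castSucc) := by
      funext i
      refine Fin.addCases (fun i => ?_) (fun i => ?_) i
      · rw [Fin.append_left]
        exact Fin.append_left c c' i
      · rw [Fin.append_right]
        exact Fin.append_right c c' i.castSucc
    show QQ w t (M + M') p σ
        (fun i : Fin (M + M') => Fin.append c c' (Fin.castSucc (n := M + M') i)) +
        E2 w t 1 (fun s => p (M + M' + s)) (run (2 * n) (M + M')
          (fun i : Fin (M + M') => Fin.append c c' (Fin.castSucc (n := M + M') i)) σ).1 = _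
    rw [h1, ih, run_append]
    simp only [QQ, add_assoc]

theorem QQ_one (p : ℕ → ℝ) (σ : Pat (2 * n + 1)) (c : Fin 1 → Fin (2 * n + 1) → Bool) :
    QQ w t 1 p σ c = E2 w t 1 p σ := by
  simp [QQ, run]

variable (hn : 1 ≤ n) (hw : ∀ σ, PowerSeries.coeff 0 (w σ) = 1)
    (h : ∀ x : ℂ, (TL (2 * n) (PowerSeries.C om) (PowerSeries.C x) ez).vecMul w =
      (t.eval (PowerSeries.C x)) • w)
include hn hw h

theorem yy_one_le {p : ℕ → ℝ} (hp : ∀ s, 0 ≤ p s ∧ p s ≤ 1) {σ : Pat (2 * n + 1)}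
    (hσ : Reach n σ) (c : Fin 1 → Fin (2 * n + 1) → Bool) : |yy w t 1 p σ c| ≤ 5 * BB n := by
  have h1 : ∀ c : Fin 1 → Fin (2 * n + 1) → Bool,
      |((run (2 * n) 1 c σ).2 : ℝ) + hh w (run (2 * n) 1 c σ).1 - hh w σ| ≤ 5 / 2 * BB n := by
    intro c
    have a1 := run_one_le c σ
    have a2 := hh_osc hn hw h (hσ.go 1 c)
    have a3 := hh_osc hn hw h hσ
    rw [abs_le] at a1 a2 a3 ⊢
    constructor <;> linarith [a1.1, a1.2, a2.1, a2.2, a3.1, a3.2]
  have h2 := yy_mean hw h p σ 1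
  unfold yy at h2
  rw [avg_sub, avg_const] at h2
  have h3 := abs_avg_le (n := n) (M := 1) hp _ h1
  have h4 : ∑ s ∈ Finset.range 1, al t n (p s) = avg n 1 p (fun c =>
      ((run (2 * n) 1 c σ).2 : ℝ) + hh w (run (2 * n) 1 c σ).1 - hh w σ) := by linarith
  unfold yy
  rw [h4]
  refine (abs_sub _ _).trans ?_
  linarith [h1 c]

/-- one row -/
theorem one_exp {p : ℕ → ℝ} (hp : ∀ s, 0 ≤ p s ∧ p s ≤ 1) {σ : Pat (2 * n + 1)}
    (hσ : Reach n σ) {θ : ℝ} (hθ : |θ| * (5 * BB n) ≤ 1) :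
    avg n 1 p (fun c => Real.exp (θ * yy w t 1 p σ c)) ≤ Real.exp (θ ^ 2 * E2 w t 1 p σ) := by
  have h1 : ∀ c, Real.exp (θ * yy w t 1 p σ c) ≤ 1 + θ * yy w t 1 p σ c +
      θ ^ 2 * yy w t 1 p σ c ^ 2 := by
    intro c
    have h2 : |θ * yy w t 1 p σ c| ≤ 1 := by
      rw [abs_mul]
      refine (mul_le_mul_of_nonneg_left (yy_one_le hn hw h hp hσ c) (abs_nonneg θ)).trans hθ
    have h3 := (abs_le.1 (Real.abs_exp_sub_one_sub_id_le h2)).2
    nlinarith
  refine (avg_mono hp h1).trans ?_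
  rw [avg_add, avg_add, avg_const, avg_smul, avg_smul]
  have h2 := yy_mean hw h p σ 1
  have h3 : avg n 1 p (fun c => yy w t 1 p σ c) = 0 := h2
  rw [h3]
  have h4 := Real.add_one_le_exp (θ ^ 2 * E2 w t 1 p σ)
  have h5 : avg n 1 p (fun c => yy w t 1 p σ c ^ 2) = E2 w t 1 p σ := rfl
  rw [h5]
  linarith

/-- the exponential supermartingale -/
theorem exp_super {p : ℕ → ℝ} (hp : ∀ s, 0 ≤ p s ∧ p s ≤ 1) {σ : Pat (2 * n + 1)}
    (hσ : Reach n σ) {θ : ℝ} (hθ : |θ| * (5 * BB n) ≤ 1) (M : ℕ) :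
    avg n M p (fun c => Real.exp (θ * yy w t M p σ c - θ ^ 2 * QQ w t M p σ c)) ≤ 1 := by
  induction M with
  | zero => simp [avg, weight, QQ, yy, run]
  | succ M ih =>
    rw [avg_append]
    refine le_trans (avg_mono hp fun c => ?_) ih
    have e : ∀ c' : Fin 1 → Fin (2 * n + 1) → Bool,
        Real.exp (θ * yy w t (M + 1) p σ (Fin.append c c') -
          θ ^ 2 * QQ w t (M + 1) p σ (Fin.append c c')) =
        Real.exp (θ * yy w t M p σ c - θ ^ 2 * QQ w t M p σ c) *
        Real.exp (-(θ ^ 2 * E2 w t 1 (fun s => p (M + s)) (run (2 * n) M c σ).1)) *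
        Real.exp (θ * yy w t 1 (fun s => p (M + s)) (run (2 * n) M c σ).1 c') := by
      intro c'
      rw [yy_append, QQ_append, QQ_one, ← Real.exp_add, ← Real.exp_add]
      congr 1
      ring
    simp only [e]
    rw [avg_smul]
    have h1 := one_exp hn hw h (p := fun s => p (M + s)) (fun s => hp _) (hσ.go M c) hθ
    calc _ ≤ Real.exp (θ * yy w t M p σ c - θ ^ 2 * QQ w t M p σ c) *
        Real.exp (-(θ ^ 2 * E2 w t 1 (fun s => p (M + s)) (run (2 * n) M c σ).1)) *
        Real.exp (θ ^ 2 * E2 w t 1 (fun s => p (M + s)) (run (2 * n) M c σ).1) :=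
          mul_le_mul_of_nonneg_left h1 (by positivity)
      _ = _ := by
          rw [mul_assoc, ← Real.exp_add, neg_add_cancel, Real.exp_zero, mul_one]

omit hn in
/-- Khas'minskii's lemma -/
theorem khas (M : ℕ) : ∀ {p : ℕ → ℝ}, (∀ s, 0 ≤ p s ∧ p s ≤ 1) → ∀ {A κ : ℝ}, 0 ≤ κ →
    4 * κ * A ≤ 1 → (∀ j M' : ℕ, j + M' ≤ M → ∀ σ, Reach n σ →
      E2 w t M' (fun s => p (j + s)) σ ≤ A) → ∀ {σ : Pat (2 * n + 1)}, Reach n σ →
    avg n M p (fun c => Real.exp (κ * QQ w t M p σ c)) ≤ 1 + 4 * κ * E2 w t M p σ := by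
  induction M with
  | zero =>
    intro p hp A κ hκ hκA hA σ hσ
    have : 0 ≤ E2 w t 0 p σ := avg_nonneg hp _ fun c => sq_nonneg _
    simp only [avg, weight, QQ, mul_zero, Real.exp_zero, mul_one]
    simp
    positivity
  | succ M ih =>
    intro p hp A κ hκ hκA hA σ hσ
    have hadd : avg n (M + 1) p (fun c => Real.exp (κ * QQ w t (M + 1) p σ c)) =
        avg n (1 + M) p (fun c => Real.exp (κ * QQ w t (1 + M) p σ c)) := by
      rw [Nat.add_comm]
    have hadd2 : E2 w t (M + 1) p σ = E2 w t (1 + M) p σ := by rw [Nat.add_comm]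
    have hE : E2 w t (1 + M) p σ = E2 w t 1 p σ +
        avg n 1 p (fun c => E2 w t M (fun s => p (1 + s)) (run (2 * n) 1 c σ).1) := by
      unfold E2
      rw [sec_append hw h]
    have hq0 : 0 ≤ E2 w t 1 p σ := avg_nonneg hp _ fun c => sq_nonneg _
    have hr0 : 0 ≤ avg n 1 p (fun c => E2 w t M (fun s => p (1 + s)) (run (2 * n) 1 c σ).1) :=
      avg_nonneg hp _ fun c => avg_nonneg (fun s => hp _) _ fun c' => sq_nonneg _
    have hg : E2 w t (1 + M) p σ ≤ A := by
      have := hA 0 (1 + M) (by omega) σ hσ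
      simpa using this
    rw [hadd, hadd2, avg_append]
    have e : ∀ (c : Fin 1 → Fin (2 * n + 1) → Bool) (c' : Fin M → Fin (2 * n + 1) → Bool),
        Real.exp (κ * QQ w t (1 + M) p σ (Fin.append c c')) = Real.exp (κ * E2 w t 1 p σ) *
          Real.exp (κ * QQ w t M (fun s => p (1 + s)) (run (2 * n) 1 c σ).1 c') := by
      intro c c'
      rw [QQ_append, QQ_one, ← Real.exp_add, mul_add]
    simp only [e, avg_smul]
    have h1 : avg n 1 p (fun c => avg n M (fun s => p (1 + s)) (fun c' =>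
        Real.exp (κ * QQ w t M (fun s => p (1 + s)) (run (2 * n) 1 c σ).1 c'))) ≤
        1 + 4 * κ * (E2 w t (1 + M) p σ - E2 w t 1 p σ) := by
      have h2 : ∀ c : Fin 1 → Fin (2 * n + 1) → Bool, avg n M (fun s => p (1 + s)) (fun c' =>
          Real.exp (κ * QQ w t M (fun s => p (1 + s)) (run (2 * n) 1 c σ).1 c')) ≤
          1 + 4 * κ * E2 w t M (fun s => p (1 + s)) (run (2 * n) 1 c σ).1 := by
        intro c
        refine ih (p := fun s => p (1 + s)) (fun s => hp _) hκ hκA ?_ (hσ.go 1 c)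
        intro j M' hj τ hτ
        have := hA (1 + j) M' (by omega) τ hτ
        simpa only [add_assoc] using this
      refine (avg_mono hp h2).trans (le_of_eq ?_)
      rw [avg_add, avg_const, avg_smul, hE]
      ring
    set q : ℝ := E2 w t 1 p σ with hq
    set g : ℝ := E2 w t (1 + M) p σ with hgd
    have hqg : q ≤ g := by linarith
    have hκg : 4 * κ * g ≤ 1 := (mul_le_mul_of_nonneg_left hg (by positivity)).trans hκA
    have hκq0 : 0 ≤ κ * q := by positivity
    have hκq : κ * q ≤ 1 := by nlinarith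
    have hexp : Real.exp (κ * q) ≤ 1 + 2 * (κ * q) := by
      have h3 := (abs_le.1 (Real.abs_exp_sub_one_sub_id_le
        (by rw [abs_of_nonneg hκq0]; exact hκq))).2
      nlinarith
    have h4 : 0 ≤ 1 + 4 * κ * (g - q) := by
      have : 0 ≤ 4 * κ * (g - q) := by
        apply mul_nonneg (by positivity)
        linarith
      linarith
    calc _ ≤ Real.exp (κ * q) * (1 + 4 * κ * (g - q)) :=
          mul_le_mul_of_nonneg_left h1 (Real.exp_pos _).le
      _ ≤ (1 + 2 * (κ * q)) * (1 + 4 * κ * (g - q)) := mul_le_mul_of_nonneg_right hexp h4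
      _ ≤ 1 + 4 * κ * g := by
          have h5 : 0 ≤ κ * q * (1 - 4 * κ * g) := mul_nonneg hκq0 (by linarith)
          have h6 : 0 ≤ κ * q * (κ * q) := mul_nonneg hκq0 hκq0
          nlinarith

end

end Pool.Agent.Helper21.LK
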