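import Pool.Agent.Helper21.JL.Expo

/-!
# Exponential and third moments of the displacement
-/

namespace Pool.Agent.Helper21.LK

open H906K Pool.Agent.H974R3 Polynomial Filter Topology

section
variable {n : ℕ} {w : Pat (2 * n + 1) → PowerSeries ℂ} {t : (PowerSeries ℂ)[X]}
variable (hn : 1 ≤ n) (hw : ∀ σ, PowerSeries.coeff 0 (w σ) = 1)
    (h : ∀ x : ℂ, (TL (2 * n) (PowerSeries.C om) (PowerSeries.C x) ez).vecMul w =
      (t.eval (PowerSeries.C x)) • w)

/-- the scale of the displacement -/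
noncomputable def sc (t : (PowerSeries ℂ)[X]) (n M : ℕ) (p : ℕ → ℝ) : ℝ :=
  Real.sqrt (∑ s ∈ Finset.range M, vv t n (p s)) + 8 * BB n

theorem sc_pos (M : ℕ) (p : ℕ → ℝ) : 0 < sc t n M p := by
  have := BB_pos n
  unfold sc
  positivity

include hn hw h

theorem E2_le {p : ℕ → ℝ} (hp : ∀ s, 0 ≤ p s ∧ p s ≤ 1) {M j M' : ℕ} (hj : j + M' ≤ M)
    {σ : Pat (2 * n + 1)} (hσ : Reach n σ) :
    E2 w t M' (fun s => p (j + s)) σ ≤ sc t n M p ^ 2 := by
  have h1 := (abs_le.1 ((sec_main hn hw h (p := fun s => p (j + s)) (fun s => hp _) M').2.1 σ hσ)).2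
  have h2 : Real.sqrt (∑ s ∈ Finset.range M', vv t n (p (j + s))) ≤
      Real.sqrt (∑ s ∈ Finset.range M, vv t n (p s)) := by
    apply Real.sqrt_le_sqrt
    have h3 : ∑ s ∈ Finset.range (j + M'), vv t n (p s) ≤ ∑ s ∈ Finset.range M, vv t n (p s) :=
      Finset.sum_le_sum_of_subset_of_nonneg
        (fun x hx => by rw [Finset.mem_range] at hx ⊢; omega)
        (fun s _ _ => vv_nonneg hw h (hp s).1 (hp s).2)
    rw [Finset.sum_range_add] at h3
    have h4 : 0 ≤ ∑ s ∈ Finset.range j, vv t n (p s) :=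
      Finset.sum_nonneg fun s _ => vv_nonneg hw h (hp s).1 (hp s).2
    linarith
  have h5 : 0 ≤ E2 w t M' (fun s => p (j + s)) σ :=
    avg_nonneg (fun s => hp _) _ fun c => sq_nonneg _
  rw [← Real.sq_sqrt h5]
  apply pow_le_pow_left₀ (Real.sqrt_nonneg _)
  unfold sc
  linarith

/-- the exponential moment, one side -/
theorem exp_side {p : ℕ → ℝ} (hp : ∀ s, 0 ≤ p s ∧ p s ≤ 1) (M : ℕ) {σ : Pat (2 * n + 1)}
    (hσ : Reach n σ) {θ : ℝ} (hθ : |θ| = 1 / (2 * sc t n M p)) :
    avg n M p (fun c => Real.exp (θ * yy w t M p σ c / 2)) ≤ 3 / 2 := by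
  have hsc := sc_pos (t := t) (n := n) M p
  have hB := BB_pos n
  set A0 : ℝ := sc t n M p with hA0
  have hA0B : 8 * BB n ≤ A0 := by
    rw [hA0]
    unfold sc
    have := Real.sqrt_nonneg (∑ s ∈ Finset.range M, vv t n (p s))
    linarith
  have hθB : |θ| * (5 * BB n) ≤ 1 := by
    rw [hθ, one_div, inv_mul_le_iff₀ (by positivity)]
    linarith
  have hθ2 : θ ^ 2 = 1 / (4 * A0 ^ 2) := by
    rw [← sq_abs, hθ]
    field_simp
    ring
  have hκA : 4 * θ ^ 2 * A0 ^ 2 ≤ 1 := by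
    rw [hθ2]
    field_simp
    exact le_refl _
  have h1 := exp_super hn hw h hp hσ hθB M
  have h2 := khas hw h M hp (A := A0 ^ 2) (sq_nonneg θ) hκA
    (fun j M' hj τ hτ => E2_le hn hw h hp hj hτ) hσ
  have h3 : E2 w t M p σ ≤ A0 ^ 2 := by
    have := E2_le hn hw h hp (M := M) (j := 0) (M' := M) (by omega) hσ
    simpa using this
  have h4 : 4 * θ ^ 2 * E2 w t M p σ ≤ 1 :=
    (mul_le_mul_of_nonneg_left h3 (by positivity)).trans hκA
  have h5 : ∀ c, Real.exp (θ * yy w t M p σ c / 2) ≤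
      1 / 2 * Real.exp (θ * yy w t M p σ c - θ ^ 2 * QQ w t M p σ c) +
      1 / 2 * Real.exp (θ ^ 2 * QQ w t M p σ c) := by
    intro c
    set x : ℝ := Real.exp ((θ * yy w t M p σ c - θ ^ 2 * QQ w t M p σ c) / 2) with hx
    set y : ℝ := Real.exp (θ ^ 2 * QQ w t M p σ c / 2) with hy
    have e1 : Real.exp (θ * yy w t M p σ c / 2) = x * y := by
      rw [hx, hy, ← Real.exp_add]; congr 1; ring
    have e2 : Real.exp (θ * yy w t M p σ c - θ ^ 2 * QQ w t M p σ c) = x * x := by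
      rw [hx, ← Real.exp_add]; congr 1; ring
    have e3 : Real.exp (θ ^ 2 * QQ w t M p σ c) = y * y := by
      rw [hy, ← Real.exp_add]; congr 1; ring
    rw [e1, e2, e3]
    nlinarith [sq_nonneg (x - y)]
  refine (avg_mono hp h5).trans ?_
  rw [avg_add, avg_smul, avg_smul]
  linarith

/-- **exponential moments of the displacement** -/
theorem exp_main {p : ℕ → ℝ} (hp : ∀ s, 0 ≤ p s ∧ p s ≤ 1) (M : ℕ) {σ : Pat (2 * n + 1)}
    (hσ : Reach n σ) :
    avg n M p (fun c => Real.exp (|yy w t M p σ c| / (4 * sc t n M p))) ≤ 3 := by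
  have hsc := sc_pos (t := t) (n := n) M p
  have h1 := exp_side hn hw h hp M hσ (θ := 1 / (2 * sc t n M p)) (abs_of_pos (by positivity))
  have h2 := exp_side hn hw h hp M hσ (θ := -(1 / (2 * sc t n M p)))
    (by rw [abs_neg]; exact abs_of_pos (by positivity))
  have h3 : ∀ c, Real.exp (|yy w t M p σ c| / (4 * sc t n M p)) ≤
      Real.exp (1 / (2 * sc t n M p) * yy w t M p σ c / 2) +
      Real.exp (-(1 / (2 * sc t n M p)) * yy w t M p σ c / 2) := by
    intro c
    rcases le_total 0 (yy w t M p σ c) with h4 | h4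
    · rw [abs_of_nonneg h4]
      have e : yy w t M p σ c / (4 * sc t n M p) = 1 / (2 * sc t n M p) * yy w t M p σ c / 2 := by
        field_simp; ring
      rw [e]
      have := Real.exp_pos (-(1 / (2 * sc t n M p)) * yy w t M p σ c / 2)
      linarith
    · rw [abs_of_nonpos h4]
      have e : -yy w t M p σ c / (4 * sc t n M p) =
          -(1 / (2 * sc t n M p)) * yy w t M p σ c / 2 := by
        field_simp; ring
      rw [e]
      have := Real.exp_pos (1 / (2 * sc t n M p) * yy w t M p σ c / 2)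
      linarith
  refine (avg_mono hp h3).trans ?_
  rw [avg_add]
  linarith

theorem third {p : ℕ → ℝ} (hp : ∀ s, 0 ≤ p s ∧ p s ≤ 1) (M : ℕ) {σ : Pat (2 * n + 1)}
    (hσ : Reach n σ) :
    avg n M p (fun c => |yy w t M p σ c| ^ 3) ≤ 1152 * sc t n M p ^ 3 := by
  have hsc := sc_pos (t := t) (n := n) M p
  have h1 := exp_main hn hw h hp M hσ
  have h2 : ∀ c, |yy w t M p σ c| ^ 3 ≤
      384 * sc t n M p ^ 3 * Real.exp (|yy w t M p σ c| / (4 * sc t n M p)) := by
    intro c
    set x : ℝ := |yy w t M p σ c| / (4 * sc t n M p) with hx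
    have hx0 : 0 ≤ x := by positivity
    have h3 := Real.pow_div_factorial_le_exp x hx0 3
    have e : |yy w t M p σ c| = x * (4 * sc t n M p) := by
      rw [hx]; field_simp
    have h4 : x ^ 3 ≤ 6 * Real.exp x := by
      have : ((Nat.factorial 3 : ℕ) : ℝ) = 6 := by norm_num [Nat.factorial]
      rw [this, div_le_iff₀ (by norm_num)] at h3
      linarith
    rw [e]
    calc (x * (4 * sc t n M p)) ^ 3 = 64 * sc t n M p ^ 3 * x ^ 3 := by ring
      _ ≤ 64 * sc t n M p ^ 3 * (6 * Real.exp x) :=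
          mul_le_mul_of_nonneg_left h4 (by positivity)
      _ = _ := by ring
  refine (avg_mono hp h2).trans ?_
  rw [avg_smul]
  have : 384 * sc t n M p ^ 3 * avg n M p
      (fun c => Real.exp (|yy w t M p σ c| / (4 * sc t n M p))) ≤ 384 * sc t n M p ^ 3 * 3 :=
    mul_le_mul_of_nonneg_left h1 (by positivity)
  linarith

end

end Pool.Agent.Helper21.LK
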