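import Pool.Agent.Helper21.JL.Steps2

/-!
# Facts on isoradial environments
-/

namespace Pool.Agent.Helper21.LK

open H906K Pool.Agent.H974R3 Polynomial Filter Topology

theorem sin_low {δ θ : ℝ} (hδ : 0 < δ) (h1 : δ ≤ θ) (h2 : θ ≤ Real.pi - δ) :
    Real.sin δ ≤ Real.sin θ := by
  have hpi := Real.pi_pos
  rcases le_total θ (Real.pi / 2) with h | h
  · exact Real.sin_le_sin_of_le_of_le_pi_div_two (by linarith) h h1
  · rw [← Real.sin_pi_sub θ]
    exact Real.sin_le_sin_of_le_of_le_pi_div_two (by linarith) (by linarith) (by linarith)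

theorem BB_le {n : ℕ} : BB n ≤ 6 * (2 * n + 1) ^ 2 := by
  unfold BB
  have : (0 : ℝ) ≤ n := Nat.cast_nonneg n
  nlinarith

section
variable {n : ℕ} {t : (PowerSeries ℂ)[X]} {K s0 : ℝ} {θ : ℕ → ℝ}

theorem fact_v (hn : 1 ≤ n) (hK0 : 0 ≤ K) (hs0 : 0 < s0)
    (hK : ∀ θ : ℝ, 0 < θ → θ < Real.pi →
      |2 * Real.pi * vv t n (bias θ) / (2 * n + 1) - 6 * Real.sin θ| ≤
        K / ((2 * n + 1) * Real.sin θ))
    (hθ : ∀ r, 0 < θ r ∧ θ r < Real.pi ∧ s0 ≤ Real.sin (θ r)) (r : ℕ) :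
    |vv t n (bias (θ r)) - 6 * ((2 * n + 1) / (2 * Real.pi) * Real.sin (θ r))| ≤
      K / (2 * Real.pi * s0) := by
  have hpi := Real.pi_pos
  obtain ⟨h0, h1, h2⟩ := hθ r
  have h3 := hK (θ r) h0 h1
  have hN : (0 : ℝ) < 2 * n + 1 := by positivity
  have e : vv t n (bias (θ r)) - 6 * ((2 * n + 1) / (2 * Real.pi) * Real.sin (θ r)) =
      (2 * n + 1) / (2 * Real.pi) *
        (2 * Real.pi * vv t n (bias (θ r)) / (2 * n + 1) - 6 * Real.sin (θ r)) := by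
    field_simp
  rw [e, abs_mul, abs_of_pos (by positivity)]
  have hs : 0 < Real.sin (θ r) := lt_of_lt_of_le hs0 h2
  calc (2 * n + 1) / (2 * Real.pi) *
        |2 * Real.pi * vv t n (bias (θ r)) / (2 * n + 1) - 6 * Real.sin (θ r)|
      ≤ (2 * n + 1) / (2 * Real.pi) * (K / ((2 * n + 1) * Real.sin (θ r))) :=
        mul_le_mul_of_nonneg_left h3 (by positivity)
    _ = K / (2 * Real.pi * Real.sin (θ r)) := by field_simp
    _ ≤ K / (2 * Real.pi * s0) := by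
        apply div_le_div_of_nonneg_left hK0 (by positivity)
        exact mul_le_mul_of_nonneg_left h2 (by positivity)

theorem fact_v_le (hn : 1 ≤ n) (hK0 : 0 ≤ K) (hs0 : 0 < s0)
    (hK : ∀ θ : ℝ, 0 < θ → θ < Real.pi →
      |2 * Real.pi * vv t n (bias θ) / (2 * n + 1) - 6 * Real.sin θ| ≤
        K / ((2 * n + 1) * Real.sin θ))
    (hθ : ∀ r, 0 < θ r ∧ θ r < Real.pi ∧ s0 ≤ Real.sin (θ r)) (r : ℕ) :
    vv t n (bias (θ r)) ≤ (2 * n + 1) * ((6 + K / s0) / (2 * Real.pi)) := by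
  have hpi := Real.pi_pos
  have h1 := (abs_le.1 (fact_v hn hK0 hs0 hK hθ r)).2
  have hN : (1 : ℝ) ≤ 2 * n + 1 := by
    have : (0 : ℝ) ≤ n := Nat.cast_nonneg n
    linarith
  have h2 : 6 * ((2 * n + 1) / (2 * Real.pi) * Real.sin (θ r)) ≤
      6 * ((2 * n + 1) / (2 * Real.pi) * 1) := by
    apply mul_le_mul_of_nonneg_left _ (by norm_num)
    exact mul_le_mul_of_nonneg_left (Real.sin_le_one _) (by positivity)
  have h3 : K / (2 * Real.pi * s0) ≤ (2 * n + 1) * (K / (2 * Real.pi * s0)) :=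
    le_mul_of_one_le_left (by positivity) hN
  have e : (2 * n + 1) * ((6 + K / s0) / (2 * Real.pi)) =
      6 * ((2 * n + 1) / (2 * Real.pi) * 1) + (2 * n + 1) * (K / (2 * Real.pi * s0)) := by
    field_simp
  rw [e]
  linarith

theorem fact_sum (hn : 1 ≤ n) (hK0 : 0 ≤ K) (hs0 : 0 < s0)
    (hK : ∀ θ : ℝ, 0 < θ → θ < Real.pi →
      |2 * Real.pi * vv t n (bias θ) / (2 * n + 1) - 6 * Real.sin θ| ≤
        K / ((2 * n + 1) * Real.sin θ))
    (hθ : ∀ r, 0 < θ r ∧ θ r < Real.pi ∧ s0 ≤ Real.sin (θ r)) {a b : ℕ} (hab : a ≤ b) :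
    |∑ r ∈ Finset.Ico a b, vv t n (bias (θ r)) - 6 * (clock n b θ - clock n a θ)| ≤
      ((b : ℝ) - a) * (K / (2 * Real.pi * s0)) := by
  have e : ∑ r ∈ Finset.Ico a b, vv t n (bias (θ r)) - 6 * (clock n b θ - clock n a θ) =
      ∑ r ∈ Finset.Ico a b, (vv t n (bias (θ r)) -
        6 * ((2 * n + 1) / (2 * Real.pi) * Real.sin (θ r))) := by
    rw [Finset.sum_sub_distrib, ← Finset.mul_sum, ← Finset.mul_sum,
      Finset.sum_Ico_eq_sub (fun r => Real.sin (θ r)) hab]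
    unfold clock
    ring
  rw [e]
  refine (Finset.abs_sum_le_sum_abs _ _).trans ?_
  refine (Finset.sum_le_card_nsmul _ _ _ fun r _ => fact_v hn hK0 hs0 hK hθ r).trans (le_of_eq ?_)
  rw [Nat.card_Ico, nsmul_eq_mul, Nat.cast_sub hab]

theorem fact_mu (hn : 1 ≤ n) (hK0 : 0 ≤ K) (hs0 : 0 < s0)
    (hK : ∀ θ : ℝ, 0 < θ → θ < Real.pi →
      |al t n (bias θ) + Real.cos θ| ≤ K / ((2 * n + 1) * Real.sin θ ^ 2))
    (hθ : ∀ r, 0 < θ r ∧ θ r < Real.pi ∧ s0 ≤ Real.sin (θ r)) (M : ℕ) :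
    |∑ r ∈ Finset.range M, al t n (bias (θ r)) + ∑ r ∈ Finset.range M, Real.cos (θ r)| ≤
      M * (K / ((2 * n + 1) * s0 ^ 2)) := by
  rw [← Finset.sum_add_distrib]
  refine (Finset.abs_sum_le_sum_abs _ _).trans ?_
  have : ∀ r ∈ Finset.range M, |al t n (bias (θ r)) + Real.cos (θ r)| ≤
      K / ((2 * n + 1) * s0 ^ 2) := by
    intro r _
    obtain ⟨h0, h1, h2⟩ := hθ r
    refine (hK (θ r) h0 h1).trans ?_
    apply div_le_div_of_nonneg_left hK0 (by positivity)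
    exact mul_le_mul_of_nonneg_left (pow_le_pow_left₀ hs0.le h2 2) (by positivity)
  refine (Finset.sum_le_card_nsmul _ _ _ this).trans (le_of_eq ?_)
  rw [Finset.card_range, nsmul_eq_mul]

theorem clock_ge (hθ : ∀ r, s0 ≤ Real.sin (θ r)) (M : ℕ) :
    (2 * n + 1) * M * (s0 / (2 * Real.pi)) ≤ clock n M θ := by
  have hpi := Real.pi_pos
  have h1 := Finset.card_nsmul_le_sum (Finset.range M) (fun t => Real.sin (θ t)) s0
    (fun t _ => hθ t)
  rw [Finset.card_range, nsmul_eq_mul] at h1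
  unfold clock
  calc (2 * n + 1) * M * (s0 / (2 * Real.pi)) = (2 * n + 1) / (2 * Real.pi) * (M * s0) := by ring
    _ ≤ _ := mul_le_mul_of_nonneg_left h1 (by positivity)

theorem clock_mono (hs0 : 0 < s0) (hθ : ∀ r, s0 ≤ Real.sin (θ r)) {a b : ℕ} (hab : a ≤ b) :
    clock n a θ ≤ clock n b θ := by
  have hpi := Real.pi_pos
  unfold clock
  apply mul_le_mul_of_nonneg_left _ (by positivity)
  exact Finset.sum_le_sum_of_subset_of_nonneg
    (fun x hx => by rw [Finset.mem_range] at hx ⊢; omega)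
    (fun r _ _ => hs0.le.trans (hθ r))

end

/-- small cylinders -/
theorem rho {M : ℕ → ℕ} (hM : Tendsto (fun n : ℕ => (M n : ℝ) / (n : ℝ) ^ 3) atTop atTop) :
    Tendsto (fun n : ℕ => (n : ℝ) ^ 3 / (M n : ℝ)) atTop (𝓝 0) := by
  have := tendsto_inv_atTop_zero.comp hM
  refine this.congr fun n => ?_
  simp only [Function.comp]
  rw [inv_div]

theorem beta_le {n M : ℕ} {T ct : ℝ} (hn : 1 ≤ n) (hM : 0 < (M : ℝ)) (hct : 0 < ct)
    (hT : (2 * n + 1) * M * ct ≤ T) :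
    BB n / Real.sqrt T ≤ Real.sqrt (972 / ct * ((n : ℝ) ^ 3 / M)) := by
  have hn1 : (1 : ℝ) ≤ n := by exact_mod_cast hn
  have hT0 : 0 < T := lt_of_lt_of_le (by positivity) hT
  have hB := BB_pos n
  apply Real.le_sqrt_of_sq_le
  rw [div_pow, Real.sq_sqrt hT0.le, div_le_iff₀ hT0]
  have h1 : BB n ^ 2 ≤ (6 * (2 * n + 1) ^ 2) ^ 2 := pow_le_pow_left₀ hB.le BB_le 2
  have h2 : (2 * (n : ℝ) + 1) ^ 3 ≤ (3 * n) ^ 3 := pow_le_pow_left₀ (by positivity) (by linarith) 3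
  calc BB n ^ 2 ≤ (6 * (2 * n + 1) ^ 2) ^ 2 := h1
    _ = 36 * (2 * n + 1) * (2 * n + 1) ^ 3 := by ring
    _ ≤ 36 * (2 * n + 1) * (3 * n) ^ 3 := mul_le_mul_of_nonneg_left h2 (by positivity)
    _ = 972 / ct * ((n : ℝ) ^ 3 / M) * ((2 * n + 1) * M * ct) := by field_simp; ring
    _ ≤ 972 / ct * ((n : ℝ) ^ 3 / M) * T := mul_le_mul_of_nonneg_left hT (by positivity)

end Pool.Agent.Helper21.LK
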