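import Pool.Agent.Helper21.JL.Max

/-!
# Assembly
-/

namespace Pool.Agent.Helper21.LK

open H906K Pool.Agent.H974R3 Polynomial Filter Topology

theorem scale_le {n : ℕ} {V : ℝ} : Real.sqrt (BB n / Real.sqrt V) ≤
    3 * Real.sqrt ((2 * n + 1) ^ 2 / Real.sqrt V) := by
  have h1 : BB n / Real.sqrt V ≤ 9 * ((2 * n + 1) ^ 2 / Real.sqrt V) := by
    rw [← mul_div_assoc]
    apply div_le_div_of_nonneg_right _ (Real.sqrt_nonneg _)
    have := BB_le (n := n)
    have h2 : (0 : ℝ) ≤ (2 * n + 1) ^ 2 := by positivity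
    linarith
  refine (Real.sqrt_le_sqrt h1).trans (le_of_eq ?_)
  rw [Real.sqrt_mul (by norm_num), show (9 : ℝ) = 3 ^ 2 by norm_num,
    Real.sqrt_sq (by norm_num)]

theorem joint : ∃ (μ v : ℕ → ℝ → ℝ) (K : ℝ), 0 < K ∧
    (∀ n : ℕ, 1 ≤ n → ∀ θ : ℝ, 0 < θ → θ < Real.pi →
      |μ n (bias θ) + Real.cos θ| ≤ K / ((2 * n + 1) * Real.sin θ ^ 2) ∧
      |2 * Real.pi * v n (bias θ) / (2 * n + 1) - 6 * Real.sin θ| ≤
        K / ((2 * n + 1) * Real.sin θ)) ∧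
    (∀ n : ℕ, 1 ≤ n → ∀ p : ℕ → ℝ, (∀ s, 0 ≤ p s ∧ p s ≤ 1) → (∀ s, 0 ≤ v n (p s)) ∧ ∀ M : ℕ,
      |meanX n M p - ∑ s ∈ Finset.range M, μ n (p s)| ≤ K * (2 * n + 1) ^ 2 ∧
      |Real.sqrt (varX n M p) - Real.sqrt (∑ s ∈ Finset.range M, v n (p s))| ≤
        K * (2 * n + 1) ^ 2 ∧
      (∀ s s' : ℕ, s ≤ s' → s' ≤ M → ∀ x : ℝ, 0 ≤ x →
        pr n M p (fun c => ∃ r, s ≤ r ∧ r ≤ s' ∧
          x * (Real.sqrt (∑ r ∈ Finset.Ico s s', v n (p r)) + (2 * n + 1) ^ 2) ≤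
            |dev n p c r - dev n p c s|) ≤ K * Real.exp (-(x / K))) ∧
      ∀ (J : ℕ) (m : ℕ → ℕ), Monotone m → m J ≤ M → ∀ (l : ℕ → ℝ) (L : ℝ),
        (∀ j < J, |l j| ≤ L) → 0 < ∑ s ∈ Finset.range M, v n (p s) →
        ‖cf n M p (fun c => ∑ j ∈ Finset.range J, l j *
            (dev n p c (m (j + 1)) - dev n p c (m j)) /
              Real.sqrt (∑ s ∈ Finset.range M, v n (p s))) -
          Complex.exp (-((∑ j ∈ Finset.range J, l j ^ 2 *
            (∑ s ∈ Finset.Ico (m j) (m (j + 1)), v n (p s)) /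
              (2 * ∑ s ∈ Finset.range M, v n (p s)) : ℝ) : ℂ))‖ ≤
        K * J * (1 + L) ^ 4 *
          Real.sqrt ((2 * n + 1) ^ 2 / Real.sqrt (∑ s ∈ Finset.range M, v n (p s)))) ∧
    (∀ δ : ℝ, 0 < δ → ∀ θ : ℕ → ℕ → ℝ, (∀ n t, δ ≤ θ n t ∧ θ n t ≤ Real.pi - δ) →
      ∀ M : ℕ → ℕ, Tendsto (fun n : ℕ => (M n : ℝ) / (n : ℝ) ^ 3) atTop atTop →
      Tendsto (fun n => (meanX n (M n) (fun t => bias (θ n t)) +
        ∑ t ∈ Finset.range (M n), Real.cos (θ n t)) /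
          ∑ t ∈ Finset.range (M n), Real.sin (θ n t)) atTop (𝓝 0) ∧
      Tendsto (fun n => varX n (M n) (fun t => bias (θ n t)) / clock n (M n) (θ n))
        atTop (𝓝 6) ∧
      ∀ (J : ℕ) (l : ℕ → ℝ) (m : ℕ → ℕ → ℕ), (∀ n, Monotone (m n)) → (∀ n, m n J ≤ M n) →
        Tendsto (fun n => cf n (M n) (fun t => bias (θ n t)) (fun c =>
          ∑ j ∈ Finset.range J, l j * (dev n (fun t => bias (θ n t)) c (m n (j + 1)) -
            dev n (fun t => bias (θ n t)) c (m n j)) / Real.sqrt (clock n (M n) (θ n))) -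
          Complex.exp (-((∑ j ∈ Finset.range J, 3 * l j ^ 2 *
            (clock n (m n (j + 1)) (θ n) - clock n (m n j) (θ n)) /
              clock n (M n) (θ n) : ℝ) : ℂ))) atTop (𝓝 0)) := by
  choose V W T hV hd ht hw hW using exists_common
  obtain ⟨K0, hK0, hK⟩ := iso_vals
  have hK' : ∀ n : ℕ, 1 ≤ n → ∀ θ : ℝ, 0 < θ → θ < Real.pi →
      |al (T n) n (bias θ) + Real.cos θ| ≤ K0 / ((2 * n + 1) * Real.sin θ ^ 2) ∧
      |2 * Real.pi * vv (T n) n (bias θ) / (2 * n + 1) - 6 * Real.sin θ| ≤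
        K0 / ((2 * n + 1) * Real.sin θ) := fun n hn θ h0 h1 =>
    hK n (W n) (T n) hn (hw n) (hW n) (tspec n (V n) (T n) (hV n) (hd n) (ht n)) θ h0 h1
  set K : ℝ := K0 + 3 * 10 ^ 8 with hKd
  have hK3 : 3 * 10 ^ 8 ≤ K := by rw [hKd]; linarith
  have hKK : K0 ≤ K := by rw [hKd]; linarith
  have hKpos : 0 < K := by linarith
  refine ⟨fun n => al (T n) n, fun n => vv (T n) n, K, hKpos, ?_, ?_, ?_⟩
  · intro n hn θ h0 h1
    have hs := Real.sin_pos_of_pos_of_lt_pi h0 h1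
    refine ⟨(hK' n hn θ h0 h1).1.trans ?_, (hK' n hn θ h0 h1).2.trans ?_⟩
    · exact div_le_div_of_nonneg_right hKK (by positivity)
    · exact div_le_div_of_nonneg_right hKK (by positivity)
  · intro n hn p hp
    refine ⟨fun s => vv_nonneg (hw n) (hW n) (hp s).1 (hp s).2, fun M => ⟨?_, ?_, ?_, ?_⟩⟩
    · refine (mean_bound hn (hw n) (hW n) hp M).trans (BB_le.trans ?_)
      exact mul_le_mul_of_nonneg_right (by linarith) (by positivity)
    · refine (sec_main hn (hw n) (hW n) hp M).2.2.trans ?_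
      have h1 := BB_le (n := n)
      have h2 : (0 : ℝ) ≤ (2 * n + 1) ^ 2 := by positivity
      calc 6 * BB n ≤ 36 * (2 * n + 1) ^ 2 := by linarith
        _ ≤ _ := mul_le_mul_of_nonneg_right (by linarith) h2
    · intro s s' h1 h2 x hx
      refine (max_dev hn (hw n) (hW n) hp h1 h2 hx).trans ?_
      have h3 : Real.exp (-(x / 192)) ≤ Real.exp (-(x / K)) := by
        apply Real.exp_le_exp.2
        apply neg_le_neg
        exact div_le_div_of_nonneg_left hx (by norm_num) (by linarith)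
      exact mul_le_mul (by linarith) h3 (Real.exp_pos _).le hKpos.le
    · intro J m hm hmJ l L hL hV
      rcases Nat.eq_zero_or_pos J with hJ | hJ
      · subst hJ
        simp [cf, sum_weight, ← Complex.ofReal_sum]
      have hL0 : 0 ≤ L := (abs_nonneg _).trans (hL 0 hJ)
      refine (quant hn (hw n) (hW n) hp hm J hmJ hL0
        (fun j hj => hL j (Finset.mem_range.1 hj)) hV).trans ?_
      have h1 := scale_le (n := n) (V := ∑ s ∈ Finset.range M, vv (T n) n (p s))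
      set S : ℝ := Real.sqrt ((2 * n + 1) ^ 2 /
        Real.sqrt (∑ s ∈ Finset.range M, vv (T n) n (p s))) with hS
      have hS0 : 0 ≤ S := Real.sqrt_nonneg _
      have hx : (0 : ℝ) ≤ J * (1 + L) ^ 4 := by positivity
      calc _ ≤ 10 ^ 8 * J * (1 + L) ^ 4 * (3 * S) :=
            mul_le_mul_of_nonneg_left h1 (by positivity)
        _ = (3 * 10 ^ 8) * ((J * (1 + L) ^ 4) * S) := by ring
        _ ≤ K * ((J * (1 + L) ^ 4) * S) :=
            mul_le_mul_of_nonneg_right hK3 (by positivity)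
        _ = _ := by ring
  · intro δ hδ θ hθ M hM
    exact ⟨lim_mean hw hW hK0 hK' hδ hθ hM, lim_var hw hW hK0 hK' hδ hθ hM,
      fun J l m hm hmJ => lim_fdd hw hW hK0 hK' hδ hθ hM J l hm hmJ⟩

end Pool.Agent.Helper21.LK
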