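import Pool.Agent.Helper21.JL.Facts

/-!
# The limits of the mean and of the variance
-/

namespace Pool.Agent.Helper21.LK

open H906K Pool.Agent.H974R3 Polynomial Filter Topology

section
variable {W : ∀ n : ℕ, Pat (2 * n + 1) → PowerSeries ℂ} {T : ℕ → (PowerSeries ℂ)[X]}
    (hw : ∀ n σ, PowerSeries.coeff 0 (W n σ) = 1)
    (hW : ∀ n, ∀ x : ℂ, (TL (2 * n) (PowerSeries.C om) (PowerSeries.C x) ez).vecMul (W n) =
      ((T n).eval (PowerSeries.C x)) • (W n))
    {K : ℝ} (hK0 : 0 ≤ K)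
    (hK : ∀ n : ℕ, 1 ≤ n → ∀ θ : ℝ, 0 < θ → θ < Real.pi →
      |al (T n) n (bias θ) + Real.cos θ| ≤ K / ((2 * n + 1) * Real.sin θ ^ 2) ∧
      |2 * Real.pi * vv (T n) n (bias θ) / (2 * n + 1) - 6 * Real.sin θ| ≤
        K / ((2 * n + 1) * Real.sin θ))
    {δ : ℝ} (hδ : 0 < δ) {θ : ℕ → ℕ → ℝ} (hθ : ∀ n t, δ ≤ θ n t ∧ θ n t ≤ Real.pi - δ)
    {M : ℕ → ℕ} (hM : Tendsto (fun n : ℕ => (M n : ℝ) / (n : ℝ) ^ 3) atTop atTop)

include hδ hθ in
theorem angle (n r : ℕ) : 0 < θ n r ∧ θ n r < Real.pi ∧ Real.sin δ ≤ Real.sin (θ n r) := by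
  have := hθ n r
  exact ⟨by linarith, by linarith, sin_low hδ this.1 this.2⟩

include hδ hθ in
theorem sin_pos' : 0 < Real.sin δ := by
  have hpi := Real.pi_pos
  have := hθ 0 0
  exact Real.sin_pos_of_pos_of_lt_pi hδ (by linarith)

include hδ hθ in
theorem bias01 (n r : ℕ) : 0 ≤ bias (θ n r) ∧ bias (θ n r) ≤ 1 :=
  bias_mem (angle hδ hθ n r).1 (angle hδ hθ n r).2.1

include hM in
theorem M_top : Tendsto (fun n : ℕ => (M n : ℝ)) atTop atTop := by
  refine tendsto_atTop_mono' atTop ?_ hM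
  filter_upwards [eventually_ge_atTop 1] with n hn
  have hn1 : (1 : ℝ) ≤ n := by exact_mod_cast hn
  apply div_le_self (Nat.cast_nonneg _)
  exact one_le_pow₀ hn1

include hδ hθ hM in
theorem beta_lim : Tendsto (fun n => BB n / Real.sqrt (clock n (M n) (θ n))) atTop (𝓝 0) := by
  have hpi := Real.pi_pos
  have hs := sin_pos' hδ hθ
  have h1 := (rho hM).const_mul (972 / (Real.sin δ / (2 * Real.pi)))
  rw [mul_zero] at h1
  have h2 := h1.sqrt
  rw [Real.sqrt_zero] at h2
  refine squeeze_zero' (Eventually.of_forall fun n => ?_) ?_ h2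
  · have := BB_pos n
    positivity
  · filter_upwards [eventually_ge_atTop 1, (M_top hM).eventually_gt_atTop 0] with n hn hMn
    exact beta_le hn hMn (by positivity) (clock_ge (fun r => (angle hδ hθ n r).2.2) (M n))

include hw hW hK0 hK hδ hθ hM in
theorem lim_mean : Tendsto (fun n => (meanX n (M n) (fun t => bias (θ n t)) +
      ∑ t ∈ Finset.range (M n), Real.cos (θ n t)) /
        ∑ t ∈ Finset.range (M n), Real.sin (θ n t)) atTop (𝓝 0) := by
  have hs := sin_pos' hδ hθ
  set s0 : ℝ := Real.sin δ with hs0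
  have h1 := (rho hM).const_mul (54 / s0)
  rw [mul_zero] at h1
  have h2 : Tendsto (fun n : ℕ => K / s0 ^ 3 * (1 / ((n : ℝ) + 1))) atTop (𝓝 0) := by
    have := (tendsto_one_div_add_atTop_nhds_zero_nat (𝕜 := ℝ)).const_mul (K / s0 ^ 3)
    rwa [mul_zero] at this
  have h3 := h1.add h2
  rw [add_zero] at h3
  refine squeeze_zero_norm' ?_ h3
  filter_upwards [eventually_ge_atTop 1, (M_top hM).eventually_gt_atTop 0] with n hn hMn
  have hn1 : (1 : ℝ) ≤ n := by exact_mod_cast hn
  have hang := angle hδ hθ n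
  have e1 := mean_bound hn (hw n) (hW n) (bias01 hδ hθ n) (M n)
  have e2 := fact_mu hn hK0 hs (fun θ h0 h1 => (hK n hn θ h0 h1).1) hang (M n)
  have e3 := Finset.card_nsmul_le_sum (Finset.range (M n)) (fun t => Real.sin (θ n t)) s0
    (fun t _ => (hang t).2.2)
  rw [Finset.card_range, nsmul_eq_mul] at e3
  have hS : 0 < ∑ t ∈ Finset.range (M n), Real.sin (θ n t) := lt_of_lt_of_le (by positivity) e3
  rw [Real.norm_eq_abs, abs_div, abs_of_pos hS]
  have e4 : |meanX n (M n) (fun t => bias (θ n t)) + ∑ t ∈ Finset.range (M n), Real.cos (θ n t)| ≤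
      BB n + M n * (K / ((2 * n + 1) * s0 ^ 2)) := by
    have e5 : meanX n (M n) (fun t => bias (θ n t)) + ∑ t ∈ Finset.range (M n), Real.cos (θ n t) =
      (meanX n (M n) (fun t => bias (θ n t)) -
        ∑ s ∈ Finset.range (M n), al (T n) n (bias (θ n s))) +
      (∑ r ∈ Finset.range (M n), al (T n) n (bias (θ n r)) +
        ∑ r ∈ Finset.range (M n), Real.cos (θ n r)) := by ring
    rw [e5]
    exact (abs_add_le _ _).trans (add_le_add e1 e2)
  have hB := BB_pos n
  calc |meanX n (M n) (fun t => bias (θ n t)) + ∑ t ∈ Finset.range (M n), Real.cos (θ n t)| /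
        ∑ t ∈ Finset.range (M n), Real.sin (θ n t)
      ≤ (BB n + M n * (K / ((2 * n + 1) * s0 ^ 2))) / (M n * s0) := by
        apply div_le_div₀ (by positivity) e4 (by positivity) e3
    _ = BB n / (M n * s0) + K / ((2 * n + 1) * s0 ^ 3) := by
        field_simp
    _ ≤ 54 / s0 * ((n : ℝ) ^ 3 / M n) + K / s0 ^ 3 * (1 / ((n : ℝ) + 1)) := by
        apply add_le_add
        · have h5 : BB n ≤ 54 * (n : ℝ) ^ 3 := by
            refine BB_le.trans ?_
            have h6 : (2 * (n : ℝ) + 1) ^ 2 ≤ (3 * n) ^ 2 :=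
              pow_le_pow_left₀ (by positivity) (by linarith) 2
            have h7 : (n : ℝ) ^ 2 ≤ (n : ℝ) ^ 3 := pow_le_pow_right₀ hn1 (by norm_num)
            nlinarith
          calc BB n / (M n * s0) ≤ 54 * (n : ℝ) ^ 3 / (M n * s0) :=
                div_le_div_of_nonneg_right h5 (by positivity)
            _ = _ := by field_simp
        · rw [div_mul_div_comm, mul_one]
          apply div_le_div_of_nonneg_left hK0 (by positivity)
          rw [mul_comm]
          apply mul_le_mul_of_nonneg_right _ (by positivity)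
          linarith

include hδ hθ hM in
theorem T_pos : ∀ᶠ n in atTop, 0 < clock n (M n) (θ n) := by
  have hpi := Real.pi_pos
  have hs := sin_pos' hδ hθ
  filter_upwards [(M_top hM).eventually_gt_atTop 0] with n hMn
  exact lt_of_lt_of_le (by positivity) (clock_ge (fun r => (angle hδ hθ n r).2.2) (M n))

include hδ hθ hM in
theorem M_T : ∀ᶠ n in atTop, (M n : ℝ) / clock n (M n) (θ n) ≤
    2 * Real.pi / Real.sin δ * (1 / ((n : ℝ) + 1)) := by
  have hpi := Real.pi_pos
  have hs := sin_pos' hδ hθ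
  filter_upwards [(M_top hM).eventually_gt_atTop 0, T_pos hδ hθ hM] with n hMn hT
  have h1 := clock_ge (n := n) (fun r => (angle hδ hθ n r).2.2) (M n)
  rw [div_le_iff₀ hT]
  have hn0 : (0 : ℝ) ≤ n := Nat.cast_nonneg n
  calc (M n : ℝ) = 2 * Real.pi / Real.sin δ * (1 / ((n : ℝ) + 1)) *
        (((n : ℝ) + 1) * M n * (Real.sin δ / (2 * Real.pi))) := by field_simp
    _ ≤ 2 * Real.pi / Real.sin δ * (1 / ((n : ℝ) + 1)) *
        ((2 * n + 1) * M n * (Real.sin δ / (2 * Real.pi))) := by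
        apply mul_le_mul_of_nonneg_left _ (by positivity)
        apply mul_le_mul_of_nonneg_right _ (by positivity)
        apply mul_le_mul_of_nonneg_right _ hMn.le
        linarith
    _ ≤ _ := mul_le_mul_of_nonneg_left h1 (by positivity)

include hK0 hK hδ hθ hM in
theorem lim_V : Tendsto (fun n => (∑ r ∈ Finset.range (M n), vv (T n) n (bias (θ n r))) /
    clock n (M n) (θ n)) atTop (𝓝 6) := by
  have hpi := Real.pi_pos
  have hs := sin_pos' hδ hθ
  rw [tendsto_iff_norm_sub_tendsto_zero]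
  have h2 : Tendsto (fun n : ℕ => (K / (2 * Real.pi * Real.sin δ)) *
      (2 * Real.pi / Real.sin δ * (1 / ((n : ℝ) + 1)))) atTop (𝓝 0) := by
    have := ((tendsto_one_div_add_atTop_nhds_zero_nat (𝕜 := ℝ)).const_mul
      (2 * Real.pi / Real.sin δ)).const_mul (K / (2 * Real.pi * Real.sin δ))
    simpa using this
  refine squeeze_zero' (Eventually.of_forall fun n => norm_nonneg _) ?_ h2
  filter_upwards [eventually_ge_atTop 1, T_pos hδ hθ hM, M_T hδ hθ hM] with n hn hT hMT
  have h3 := fact_sum hn hK0 hs (fun θ h0 h1 => (hK n hn θ h0 h1).2) (angle hδ hθ n)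
    (Nat.zero_le (M n))
  rw [← Finset.range_eq_Ico] at h3
  have h4 : clock n 0 (θ n) = 0 := by simp [clock]
  rw [h4, sub_zero, Nat.cast_zero, sub_zero] at h3
  have e : (∑ r ∈ Finset.range (M n), vv (T n) n (bias (θ n r))) / clock n (M n) (θ n) - 6 =
      (∑ r ∈ Finset.range (M n), vv (T n) n (bias (θ n r)) - 6 * clock n (M n) (θ n)) /
        clock n (M n) (θ n) := by
    field_simp
  rw [e, Real.norm_eq_abs, abs_div, abs_of_pos hT]
  calc _ ≤ (M n * (K / (2 * Real.pi * Real.sin δ))) / clock n (M n) (θ n) :=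
        div_le_div_of_nonneg_right h3 hT.le
    _ = (K / (2 * Real.pi * Real.sin δ)) * (M n / clock n (M n) (θ n)) := by ring
    _ ≤ _ := mul_le_mul_of_nonneg_left hMT (by positivity)

include hw hW hK0 hK hδ hθ hM in
theorem lim_var : Tendsto (fun n => varX n (M n) (fun t => bias (θ n t)) /
    clock n (M n) (θ n)) atTop (𝓝 6) := by
  have h1 := (lim_V hK0 hK hδ hθ hM).sqrt
  have h2 := (beta_lim hδ hθ hM).const_mul 6
  rw [mul_zero] at h2
  have h3 : Tendsto (fun n => Real.sqrt (varX n (M n) (fun t => bias (θ n t)) /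
      clock n (M n) (θ n))) atTop (𝓝 (Real.sqrt 6)) := by
    rw [tendsto_iff_norm_sub_tendsto_zero] at h1 ⊢
    have h4 := h2.add h1
    rw [add_zero] at h4
    refine squeeze_zero' (Eventually.of_forall fun n => norm_nonneg _) ?_ h4
    filter_upwards [eventually_ge_atTop 1, T_pos hδ hθ hM] with n hn hT
    obtain ⟨hV0, -, h5⟩ := sec_main hn (hw n) (hW n) (bias01 hδ hθ n) (M n)
    have hvar0 : 0 ≤ varX n (M n) (fun t => bias (θ n t)) := by
      rw [varX_eq]
      exact avg_nonneg (bias01 hδ hθ n) _ fun c => sq_nonneg _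
    have hsT : 0 < Real.sqrt (clock n (M n) (θ n)) := Real.sqrt_pos.2 hT
    have e1 : Real.sqrt (varX n (M n) (fun t => bias (θ n t)) / clock n (M n) (θ n)) -
        Real.sqrt 6 = (Real.sqrt (varX n (M n) (fun t => bias (θ n t))) -
          Real.sqrt (∑ s ∈ Finset.range (M n), vv (T n) n (bias (θ n s)))) /
          Real.sqrt (clock n (M n) (θ n)) +
        (Real.sqrt ((∑ r ∈ Finset.range (M n), vv (T n) n (bias (θ n r))) /
          clock n (M n) (θ n)) - Real.sqrt 6) := by
      rw [Real.sqrt_div hvar0, Real.sqrt_div hV0]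
      ring
    rw [e1]
    refine (norm_add_le _ _).trans ?_
    apply add_le_add _ le_rfl
    rw [Real.norm_eq_abs, abs_div, abs_of_pos hsT]
    calc _ ≤ 6 * BB n / Real.sqrt (clock n (M n) (θ n)) := div_le_div_of_nonneg_right h5 hsT.le
      _ = _ := by ring
  have h6 := h3.pow 2
  rw [Real.sq_sqrt (by norm_num : (0 : ℝ) ≤ 6)] at h6
  refine h6.congr' ?_
  filter_upwards [T_pos hδ hθ hM] with n hT
  apply Real.sq_sqrt
  apply div_nonneg _ hT.le
  rw [varX_eq]
  exact avg_nonneg (bias01 hδ hθ n) _ fun c => sq_nonneg _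

end

end Pool.Agent.Helper21.LK
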