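import Pool.Agent.Helper21.JL.Lim1

/-!
# Convergence of the finite dimensional distributions
-/

namespace Pool.Agent.Helper21.LK

open H906K Pool.Agent.H974R3 Polynomial Filter Topology

theorem lim_eps {f : ℕ → ℂ} {g : ℕ → ℝ} (hg : Tendsto g atTop (𝓝 0))
    (h : ∀ K : ℕ, 1 ≤ K → ∃ R : ℕ → ℝ, (∀ᶠ n in atTop, ‖f n‖ ≤ R n) ∧
      Tendsto R atTop (𝓝 (g K))) : Tendsto f atTop (𝓝 0) := by
  rw [Metric.tendsto_atTop]
  intro ε hε
  have h1 := (hg.eventually (gt_mem_nhds hε)).and (eventually_ge_atTop 1)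
  obtain ⟨K, hK, hK1⟩ := h1.exists
  obtain ⟨R, hR, hR2⟩ := h K hK1
  obtain ⟨N, hN⟩ := eventually_atTop.1 (hR.and (hR2.eventually (gt_mem_nhds hK)))
  refine ⟨N, fun n hn => ?_⟩
  rw [dist_zero_right]
  exact lt_of_le_of_lt (hN n hn).1 (hN n hn).2

/-- the scaled error -/
noncomputable def GG (L α β : ℝ) : ℝ := 4608 * L ^ 3 * α ^ 3 + 8 * β * α * L ^ 2 + L ^ 4 * α ^ 4

theorem eps_scale {n : ℕ} {l a rT L α : ℝ} (hrT : 0 < rT) (ha : 0 ≤ a) (hl : |l| ≤ L)
    (hα : a / rT ≤ α) : eps n (l / rT) a ≤ GG L α (BB n / rT) := by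
  have hB := BB_pos n
  have e : eps n (l / rT) a = 4608 * |l| ^ 3 * (a / rT) ^ 3 +
      8 * (BB n / rT) * (a / rT) * |l| ^ 2 + |l| ^ 4 * (a / rT) ^ 4 := by
    unfold eps
    rw [abs_div, abs_of_pos hrT, sq_abs, show |l| ^ 4 = l ^ 4 from by
      rw [show (4 : ℕ) = 2 * 2 from rfl, pow_mul, sq_abs, ← pow_mul]]
    field_simp
  rw [e]
  unfold GG
  have h0 : 0 ≤ |l| := abs_nonneg l
  have h1 : 0 ≤ a / rT := by positivity
  have hL : 0 ≤ L := h0.trans hl
  have h2 : 0 ≤ α := h1.trans hα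
  gcongr

theorem exp_diff {x y : ℝ} (hx : 0 ≤ x) (hy : 0 ≤ y) :
    ‖Complex.exp (-(x : ℂ)) - Complex.exp (-(y : ℂ))‖ ≤ |x - y| := by
  rw [← Complex.ofReal_neg, ← Complex.ofReal_neg, ← Complex.ofReal_exp, ← Complex.ofReal_exp,
    ← Complex.ofReal_sub, Complex.norm_real, Real.norm_eq_abs]
  wlog hxy : x ≤ y generalizing x y with H
  · rw [abs_sub_comm, abs_sub_comm x y]
    exact H hy hx (le_of_not_ge hxy)
  have h1 : Real.exp (-y) ≤ Real.exp (-x) := Real.exp_le_exp.2 (by linarith)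
  rw [abs_of_nonneg (by linarith), abs_of_nonpos (by linarith)]
  have h2 : Real.exp (-y) = Real.exp (-x) * Real.exp (-(y - x)) := by
    rw [← Real.exp_add]; congr 1; ring
  have h3 := Real.add_one_le_exp (-(y - x))
  have h4 : Real.exp (-x) ≤ 1 := Real.exp_le_one_iff.2 (by linarith)
  have h5 := Real.exp_pos (-x)
  rw [h2]
  nlinarith

theorem cexp_diff (x y : ℝ) :
    ‖Complex.exp (Complex.I * (x : ℂ)) - Complex.exp (Complex.I * (y : ℂ))‖ ≤ |x - y| := by
  have e : Complex.exp (Complex.I * (x : ℂ)) - Complex.exp (Complex.I * (y : ℂ)) =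
      Complex.exp (Complex.I * (y : ℂ)) * (Complex.exp (Complex.I * ((x - y : ℝ) : ℂ)) - 1) := by
    rw [mul_sub, ← Complex.exp_add, mul_one]
    congr 2
    push_cast
    ring
  rw [e, norm_mul, norm_cexp, one_mul]
  exact Real.norm_exp_I_mul_ofReal_sub_one_le

theorem len_le {i D K : ℕ} (hK : 0 < K) (b : ℕ) :
    (b + (i + 1) * D / K) - (b + i * D / K) ≤ D / K + 1 := by
  have h := Nat.add_div (a := i * D) (b := D) hK
  rw [show (i + 1) * D = i * D + D by ring, h]
  generalize i * D / K = x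
  generalize D / K = y
  split_ifs <;> omega

section
variable {W : ∀ n : ℕ, Pat (2 * n + 1) → PowerSeries ℂ} {T : ℕ → (PowerSeries ℂ)[X]}
    (hw : ∀ n σ, PowerSeries.coeff 0 (W n σ) = 1)
    (hW : ∀ n, ∀ x : ℂ, (TL (2 * n) (PowerSeries.C om) (PowerSeries.C x) ez).vecMul (W n) =
      ((T n).eval (PowerSeries.C x)) • (W n))
    {K0 : ℝ} (hK0 : 0 ≤ K0)
    (hK : ∀ n : ℕ, 1 ≤ n → ∀ θ : ℝ, 0 < θ → θ < Real.pi →
      |al (T n) n (bias θ) + Real.cos θ| ≤ K0 / ((2 * n + 1) * Real.sin θ ^ 2) ∧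
      |2 * Real.pi * vv (T n) n (bias θ) / (2 * n + 1) - 6 * Real.sin θ| ≤
        K0 / ((2 * n + 1) * Real.sin θ))
    {δ : ℝ} (hδ : 0 < δ) {θ : ℕ → ℕ → ℝ} (hθ : ∀ n t, δ ≤ θ n t ∧ θ n t ≤ Real.pi - δ)
    {M : ℕ → ℕ} (hM : Tendsto (fun n : ℕ => (M n : ℝ) / (n : ℝ) ^ 3) atTop atTop)

include hw hW hK0 hK hδ hθ hM in
/-- **convergence of the finite dimensional distributions** -/
theorem lim_fdd (J : ℕ) (l : ℕ → ℝ) {m : ℕ → ℕ → ℕ} (hm : ∀ n, Monotone (m n))
    (hmJ : ∀ n, m n J ≤ M n) :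
    Tendsto (fun n => cf n (M n) (fun t => bias (θ n t)) (fun c => ∑ j ∈ Finset.range J,
        l j * (((lev n c (m n (j + 1)) : ℝ) - meanX n (m n (j + 1)) (fun t => bias (θ n t))) -
          ((lev n c (m n j) : ℝ) - meanX n (m n j) (fun t => bias (θ n t)))) /
          Real.sqrt (clock n (M n) (θ n))) -
      Complex.exp (-((∑ j ∈ Finset.range J, 3 * l j ^ 2 *
        (clock n (m n (j + 1)) (θ n) - clock n (m n j) (θ n)) / clock n (M n) (θ n) : ℝ) : ℂ)))
      atTop (𝓝 0) := by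
  have hpi := Real.pi_pos
  have hs := sin_pos' hδ hθ
  set s0 : ℝ := Real.sin δ with hs0
  obtain ⟨L, hL0, hL⟩ : ∃ L : ℝ, 0 ≤ L ∧ ∀ j ∈ Finset.range J, |l j| ≤ L :=
    ⟨∑ j ∈ Finset.range J, |l j|, Finset.sum_nonneg fun _ _ => abs_nonneg _, fun j hj =>
      Finset.single_le_sum (f := fun j => |l j|) (fun _ _ => abs_nonneg _) hj⟩
  set cv : ℝ := (6 + K0 / s0) / (2 * Real.pi) with hcv
  set ct : ℝ := s0 / (2 * Real.pi) with hct
  have hcv0 : 0 < cv := by positivity
  have hct0 : 0 < ct := by positivity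
  set C : ℝ := cv / ct with hC
  have hC0 : 0 < C := by positivity
  set κ : ℝ := K0 / (2 * Real.pi * s0) with hκ
  have hκ0 : 0 ≤ κ := by positivity
  -- the limit of the errors
  have hg : Tendsto (fun K : ℕ => J * (K * GG L (Real.sqrt (C * (1 / K + 0)) + 8 * 0) 0) +
      (L ^ 2 / 2 * κ * 0 + 4 * J * L * 0)) atTop (𝓝 0) := by
    have h1 : Tendsto (fun K : ℕ => C * (1 / (K : ℝ) + 0)) atTop (𝓝 0) := by
      have := (tendsto_one_div_atTop_nhds_zero_nat (𝕜 := ℝ)).const_mul C
      simpa using this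
    have h2 := h1.sqrt
    rw [Real.sqrt_zero] at h2
    have h3 : Tendsto (fun K : ℕ => J * (4608 * L ^ 3 * C * Real.sqrt (C * (1 / (K : ℝ) + 0)) +
        L ^ 4 * C * (C * (1 / (K : ℝ) + 0)))) atTop (𝓝 0) := by
      have := ((h2.const_mul (4608 * L ^ 3 * C)).add (h1.const_mul (L ^ 4 * C))).const_mul (J : ℝ)
      simpa using this
    refine h3.congr' ?_
    filter_upwards [eventually_ge_atTop 1] with K hK1
    have hK0' : (0 : ℝ) < K := by exact_mod_cast hK1
    set x : ℝ := C * (1 / (K : ℝ) + 0) with hx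
    have hx0 : 0 ≤ x := by positivity
    have hKx : K * x = C := by rw [hx]; field_simp; ring
    have hxx : Real.sqrt x * Real.sqrt x = x := Real.mul_self_sqrt hx0
    unfold GG
    have e1 : (Real.sqrt x + 8 * 0) ^ 3 = x * Real.sqrt x := by
      calc _ = (Real.sqrt x * Real.sqrt x) * Real.sqrt x := by ring
        _ = _ := by rw [hxx]
    have e2 : (Real.sqrt x + 8 * 0) ^ 4 = x * x := by
      calc _ = (Real.sqrt x * Real.sqrt x) * (Real.sqrt x * Real.sqrt x) := by ring
        _ = _ := by rw [hxx]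
    rw [e1, e2]
    linear_combination (-(J : ℝ) * (4608 * L ^ 3 * Real.sqrt x + L ^ 4 * x)) * hKx
  refine lim_eps hg fun K hK1 => ?_
  have hK0' : (0 : ℝ) < K := by exact_mod_cast hK1
  refine ⟨fun n => J * (K * GG L (Real.sqrt (C * (1 / K + 1 / (M n : ℝ))) +
      8 * (BB n / Real.sqrt (clock n (M n) (θ n)))) (BB n / Real.sqrt (clock n (M n) (θ n)))) +
      (L ^ 2 / 2 * κ * ((M n : ℝ) / clock n (M n) (θ n)) +
        4 * J * L * (BB n / Real.sqrt (clock n (M n) (θ n)))), ?_, ?_⟩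
  · filter_upwards [eventually_ge_atTop 1, T_pos hδ hθ hM, (M_top hM).eventually_gt_atTop 0]
      with n hn hT hMn
    set p : ℕ → ℝ := fun t => bias (θ n t) with hp
    have hp01 : ∀ s, 0 ≤ p s ∧ p s ≤ 1 := bias01 hδ hθ n
    set Tn : ℝ := clock n (M n) (θ n) with hTn
    set rT : ℝ := Real.sqrt Tn with hrT
    have hrT0 : 0 < rT := Real.sqrt_pos.2 hT
    have hrr : rT ^ 2 = Tn := Real.sq_sqrt hT.le
    have hang := angle hδ hθ n
    have hKn : ∀ θ : ℝ, 0 < θ → θ < Real.pi →
      |2 * Real.pi * vv (T n) n (bias θ) / (2 * n + 1) - 6 * Real.sin θ| ≤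
        K0 / ((2 * n + 1) * Real.sin θ) := fun θ h0 h1 => (hK n hn θ h0 h1).2
    have hB := BB_pos n
    set a : ℝ := Real.sqrt ((2 * n + 1) * cv * (M n / K + 1)) + 8 * BB n with ha
    have ha0 : 0 ≤ a := by positivity
    have hmono := hm n
    -- the blocks
    have hblk : ∀ j < J, ∀ i < K,
        Real.sqrt (∑ r ∈ Finset.Ico (m n j + i * (m n (j + 1) - m n j) / K)
        (m n j + (i + 1) * (m n (j + 1) - m n j) / K), vv (T n) n (p r)) + 8 * BB n ≤ a := by
      intro j hj i _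
      apply add_le_add _ le_rfl
      apply Real.sqrt_le_sqrt
      refine (Finset.sum_le_card_nsmul _ _ _
        fun r _ => fact_v_le hn hK0 hs hKn hang r).trans ?_
      rw [nsmul_eq_mul, mul_comm]
      apply mul_le_mul_of_nonneg_left _ (by positivity)
      rw [Nat.card_Ico]
      have h1 := len_le (i := i) (D := m n (j + 1) - m n j) (K := K) hK1 (m n j)
      have h2 : m n (j + 1) - m n j ≤ M n :=
        (Nat.sub_le _ _).trans ((hmono (show j + 1 ≤ J from hj)).trans (hmJ n))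
      have h3 : (((m n (j + 1) - m n j) / K : ℕ) : ℝ) ≤ (M n : ℝ) / K := by
        refine (Nat.cast_div_le).trans ?_
        apply div_le_div_of_nonneg_right _ hK0'.le
        exact_mod_cast h2
      calc (((m n j + (i + 1) * (m n (j + 1) - m n j) / K) -
            (m n j + i * (m n (j + 1) - m n j) / K) : ℕ) : ℝ)
          ≤ (((m n (j + 1) - m n j) / K + 1 : ℕ) : ℝ) := by exact_mod_cast h1
        _ ≤ (M n : ℝ) / K + 1 := by
            push_cast
            linarith
    have hα : a / rT ≤ Real.sqrt (C * (1 / K + 1 / (M n : ℝ))) + 8 * (BB n / rT) := by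
      rw [ha, add_div, mul_div_assoc 8]
      apply add_le_add _ le_rfl
      rw [hrT, ← Real.sqrt_div (by positivity)]
      apply Real.sqrt_le_sqrt
      rw [div_le_iff₀ hT]
      have h1 := clock_ge (n := n) (fun r => (hang r).2.2) (M n)
      rw [← hTn, ← hct] at h1
      calc (2 * n + 1) * cv * (M n / K + 1) =
            C * (1 / K + 1 / (M n : ℝ)) * ((2 * n + 1) * M n * ct) := by
            rw [hC]; field_simp
        _ ≤ _ := mul_le_mul_of_nonneg_left h1 (by positivity)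
    -- the three errors
    set F : (Fin (M n) → Fin (2 * n + 1) → Bool) → ℝ := fun c => ∑ j ∈ Finset.range J,
        l j * (((lev n c (m n (j + 1)) : ℝ) - meanX n (m n (j + 1)) p) -
          ((lev n c (m n j) : ℝ) - meanX n (m n j) p)) / rT with hF
    set G : (Fin (M n) → Fin (2 * n + 1) → Bool) → ℝ := fun c => ∑ j ∈ Finset.range J,
        l j / rT * (YY (W n) (T n) p (m n (j + 1)) c - YY (W n) (T n) p (m n j) c) with hG
    set v1 : ℝ := ∑ j ∈ Finset.range J,
      (l j / rT) ^ 2 * (∑ r ∈ Finset.Ico (m n j) (m n (j + 1)), vv (T n) n (p r)) / 2 with hv1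
    set v2 : ℝ := ∑ j ∈ Finset.range J, 3 * l j ^ 2 *
        (clock n (m n (j + 1)) (θ n) - clock n (m n j) (θ n)) / Tn with hv2
    have h1 : ‖cav n (M n) p (fun c => Complex.exp (Complex.I * ((G c : ℝ) : ℂ))) -
        Complex.exp (-(v1 : ℂ))‖ ≤ ∑ j ∈ Finset.range J, K * eps n (l j / rT) a :=
      steps2 hn (hw n) (hW n) hp01 hmono (fun j => l j / rT) hK1 J hblk (hmJ n)
    have h1' : ∑ j ∈ Finset.range J, K * eps n (l j / rT) a ≤
        J * (K * GG L (Real.sqrt (C * (1 / K + 1 / (M n : ℝ))) + 8 * (BB n / rT)) (BB n / rT)) := by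
      refine (Finset.sum_le_card_nsmul _ _ _ fun j hj => mul_le_mul_of_nonneg_left
        (eps_scale hrT0 ha0 (hL j hj) hα) hK0'.le).trans (le_of_eq ?_)
      rw [Finset.card_range, nsmul_eq_mul]
    have h2 : ‖Complex.exp (-(v1 : ℂ)) - Complex.exp (-(v2 : ℂ))‖ ≤
        L ^ 2 / 2 * κ * ((M n : ℝ) / Tn) := by
      have hv10 : 0 ≤ v1 := Finset.sum_nonneg fun j _ => by
        have : 0 ≤ ∑ r ∈ Finset.Ico (m n j) (m n (j + 1)), vv (T n) n (p r) :=
          Finset.sum_nonneg fun r _ => vv_nonneg (hw n) (hW n) (hp01 r).1 (hp01 r).2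
        positivity
      have hv20 : 0 ≤ v2 := Finset.sum_nonneg fun j _ => by
        have := clock_mono (n := n) hs (fun r => (hang r).2.2) (hmono (Nat.le_succ j))
        apply div_nonneg _ hT.le
        apply mul_nonneg (by positivity)
        linarith
      refine (exp_diff hv10 hv20).trans ?_
      rw [hv1, hv2, ← Finset.sum_sub_distrib]
      refine (Finset.abs_sum_le_sum_abs _ _).trans ?_
      have h3 : ∀ j ∈ Finset.range J, |(l j / rT) ^ 2 *
          (∑ r ∈ Finset.Ico (m n j) (m n (j + 1)), vv (T n) n (p r)) / 2 - 3 * l j ^ 2 *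
          (clock n (m n (j + 1)) (θ n) - clock n (m n j) (θ n)) / Tn| ≤
          L ^ 2 / 2 * κ / Tn * ((m n (j + 1) : ℝ) - m n j) := by
        intro j hj
        have h4 := fact_sum hn hK0 hs hKn hang (hmono (Nat.le_succ j))
        have e : (l j / rT) ^ 2 *
          (∑ r ∈ Finset.Ico (m n j) (m n (j + 1)), vv (T n) n (p r)) / 2 - 3 * l j ^ 2 *
          (clock n (m n (j + 1)) (θ n) - clock n (m n j) (θ n)) / Tn =
          |l j| ^ 2 / (2 * Tn) * (∑ r ∈ Finset.Ico (m n j) (m n (j + 1)), vv (T n) n (p r) -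
            6 * (clock n (m n (j + 1)) (θ n) - clock n (m n j) (θ n))) := by
          rw [div_pow, hrr, sq_abs]
          field_simp
          ring
        rw [e, abs_mul, abs_of_nonneg (by positivity)]
        have h5 : |l j| ^ 2 ≤ L ^ 2 := pow_le_pow_left₀ (abs_nonneg _) (hL j hj) 2
        have h6 : (0 : ℝ) ≤ (m n (j + 1) : ℝ) - m n j := by
          have : (m n j : ℝ) ≤ m n (j + 1) := by exact_mod_cast hmono (Nat.le_succ j)
          linarith
        calc |l j| ^ 2 / (2 * Tn) * _ ≤ L ^ 2 / (2 * Tn) * (((m n (j + 1) : ℝ) - m n j) * κ) := by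
              apply mul_le_mul _ h4 (abs_nonneg _) (by positivity)
              exact div_le_div_of_nonneg_right h5 (by positivity)
          _ = _ := by field_simp
      refine (Finset.sum_le_sum h3).trans ?_
      rw [← Finset.mul_sum, Finset.sum_range_sub (fun j => (m n j : ℝ))]
      have h7 : (m n J : ℝ) - m n 0 ≤ M n := by
        have h8 : (m n J : ℝ) ≤ M n := by exact_mod_cast hmJ n
        have h9 : (0 : ℝ) ≤ m n 0 := Nat.cast_nonneg _
        linarith
      calc L ^ 2 / 2 * κ / Tn * ((m n J : ℝ) - m n 0) ≤ L ^ 2 / 2 * κ / Tn * M n :=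
            mul_le_mul_of_nonneg_left h7 (by positivity)
        _ = _ := by ring
    have h3 : ‖cav n (M n) p (fun c => Complex.exp (Complex.I * ((F c : ℝ) : ℂ))) -
        cav n (M n) p (fun c => Complex.exp (Complex.I * ((G c : ℝ) : ℂ)))‖ ≤
        4 * J * L * (BB n / rT) := by
      rw [cav_sub]
      refine (cav_norm_le hp01 _).trans ?_
      refine avg_le hp01 _ fun c => ?_
      refine (cexp_diff _ _).trans ?_
      rw [hF, hG]
      simp only
      rw [← Finset.sum_sub_distrib]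
      refine (Finset.abs_sum_le_sum_abs _ _).trans ?_
      have h4 : ∀ j ∈ Finset.range J, |l j * (((lev n c (m n (j + 1)) : ℝ) -
          meanX n (m n (j + 1)) p) - ((lev n c (m n j) : ℝ) - meanX n (m n j) p)) / rT -
          l j / rT * (YY (W n) (T n) p (m n (j + 1)) c - YY (W n) (T n) p (m n j) c)| ≤
          4 * L * (BB n / rT) := by
        intro j hj
        have y1 := YY_XX hn (hw n) (hW n) hp01 c (m n (j + 1))
        have y2 := YY_XX hn (hw n) (hW n) hp01 c (m n j)
        have e : l j * (((lev n c (m n (j + 1)) : ℝ) -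
          meanX n (m n (j + 1)) p) - ((lev n c (m n j) : ℝ) - meanX n (m n j) p)) / rT -
          l j / rT * (YY (W n) (T n) p (m n (j + 1)) c - YY (W n) (T n) p (m n j) c) =
          l j / rT * ((YY (W n) (T n) p (m n j) c - ((lev n c (m n j) : ℝ) - meanX n (m n j) p)) -
            (YY (W n) (T n) p (m n (j + 1)) c -
              ((lev n c (m n (j + 1)) : ℝ) - meanX n (m n (j + 1)) p))) := by ring
        rw [e, abs_mul, abs_div, abs_of_pos hrT0]
        have h5 := (abs_sub (YY (W n) (T n) p (m n j) c - ((lev n c (m n j) : ℝ) -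
          meanX n (m n j) p)) (YY (W n) (T n) p (m n (j + 1)) c -
              ((lev n c (m n (j + 1)) : ℝ) - meanX n (m n (j + 1)) p))).trans (add_le_add y2 y1)
        calc |l j| / rT * _ ≤ L / rT * (2 * BB n + 2 * BB n) := by
              apply mul_le_mul _ h5 (abs_nonneg _) (by positivity)
              exact div_le_div_of_nonneg_right (hL j hj) hrT0.le
          _ = _ := by ring
      refine (Finset.sum_le_card_nsmul _ _ _ h4).trans (le_of_eq ?_)
      rw [Finset.card_range, nsmul_eq_mul]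
      ring
    have e : cf n (M n) p F - Complex.exp (-((v2 : ℝ) : ℂ)) =
        (cav n (M n) p (fun c => Complex.exp (Complex.I * ((F c : ℝ) : ℂ))) -
        cav n (M n) p (fun c => Complex.exp (Complex.I * ((G c : ℝ) : ℂ)))) +
        (cav n (M n) p (fun c => Complex.exp (Complex.I * ((G c : ℝ) : ℂ))) -
        Complex.exp (-(v1 : ℂ))) + (Complex.exp (-(v1 : ℂ)) - Complex.exp (-(v2 : ℂ))) := by
      unfold cf cav
      ring
    rw [e]
    refine norm_add₃_le.trans ?_
    linarith [h1.trans h1']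
  · have hβ := beta_lim hδ hθ hM
    have hMT : Tendsto (fun n => (M n : ℝ) / clock n (M n) (θ n)) atTop (𝓝 0) := by
      have h2 : Tendsto (fun n : ℕ => 2 * Real.pi / Real.sin δ * (1 / ((n : ℝ) + 1))) atTop
          (𝓝 0) := by
        have := (tendsto_one_div_add_atTop_nhds_zero_nat (𝕜 := ℝ)).const_mul
          (2 * Real.pi / Real.sin δ)
        simpa using this
      refine squeeze_zero' ?_ (M_T hδ hθ hM) h2
      filter_upwards [T_pos hδ hθ hM] with n hT
      positivity
    have hMi : Tendsto (fun n => 1 / (M n : ℝ)) atTop (𝓝 0) := by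
      have := tendsto_inv_atTop_zero.comp (M_top hM)
      refine this.congr fun n => ?_
      simp [Function.comp]
    have hα := ((hMi.const_add (1 / (K : ℝ))).const_mul C).sqrt.add (hβ.const_mul 8)
    have hG : Tendsto (fun n => GG L (Real.sqrt (C * (1 / K + 1 / (M n : ℝ))) +
      8 * (BB n / Real.sqrt (clock n (M n) (θ n)))) (BB n / Real.sqrt (clock n (M n) (θ n))))
        atTop (𝓝 (GG L (Real.sqrt (C * (1 / K + 0)) + 8 * 0) 0)) := by
      unfold GG
      exact (((hα.pow 3).const_mul _).add (((hβ.const_mul 8).mul hα).mul_const _)).add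
        ((hα.pow 4).const_mul _)
    exact ((hG.const_mul (K : ℝ)).const_mul (J : ℝ)).add
      ((hMT.const_mul _).add (hβ.const_mul _))

end

end Pool.Agent.Helper21.LK
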