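import Pool.Agent.Helper21.LK.Defs

/-!
# Probabilities in a layered environment
-/

namespace Pool.Agent.Helper21.LK

open Classical in
/-- probability of the event `E` in the layered environment `p` -/
noncomputable def pr (n M : ℕ) (p : ℕ → ℝ) (E : (Fin M → Fin (2 * n + 1) → Bool) → Prop) : ℝ :=
  avg n M p (fun c => if E c then 1 else 0)

/-- the centred displacement `X_r - E X_r` of the interface of the first `r` rows -/
noncomputable def dev (n : ℕ) {M : ℕ} (p : ℕ → ℝ) (c : Fin M → Fin (2 * n + 1) → Bool)
    (r : ℕ) : ℝ := (lev n c r : ℝ) - meanX n r p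

end Pool.Agent.Helper21.LK
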