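import Pool.Agent.Helper21.JL.Quant
import Pool.Agent.Helper21.JL.Prob

/-!
# The maximal inequality
-/

namespace Pool.Agent.Helper21.LK

open H906K Pool.Agent.H974R3 Polynomial Filter Topology

section
variable {n : ℕ}

theorem trunc_append_add {s M : ℕ} (c : Fin s → Fin (2 * n + 1) → Bool)
    (c' : Fin M → Fin (2 * n + 1) → Bool) (r : ℕ) :
    trunc (Fin.append c c') (s + r) = Fin.append c (trunc c' r) := by
  funext i
  refine Fin.addCases (fun i => ?_) (fun i => ?_) i
  · rw [Fin.append_left]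
    unfold trunc
    rw [dif_pos (by simp; omega)]
    exact Fin.append_left c c' i
  · rw [Fin.append_right]
    unfold trunc
    by_cases h : (i : ℕ) < M
    · rw [dif_pos (by simpa using h), dif_pos h]
      exact Fin.append_right c c' ⟨i, h⟩
    · rw [dif_neg (by simpa using h), dif_neg h]

theorem pr_mono {M : ℕ} {p : ℕ → ℝ} (hp : ∀ s, 0 ≤ p s ∧ p s ≤ 1)
    {E F : (Fin M → Fin (2 * n + 1) → Bool) → Prop} (h : ∀ c, E c → F c) :
    pr n M p E ≤ pr n M p F := by
  classical
  unfold pr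
  refine avg_mono hp fun c => ?_
  by_cases hE : E c
  · rw [if_pos hE, if_pos (h c hE)]
  · rw [if_neg hE]
    split_ifs <;> norm_num

theorem pr_le_one {M : ℕ} {p : ℕ → ℝ} (hp : ∀ s, 0 ≤ p s ∧ p s ≤ 1)
    (E : (Fin M → Fin (2 * n + 1) → Bool) → Prop) : pr n M p E ≤ 1 := by
  classical
  unfold pr
  refine avg_le hp _ fun c => ?_
  split_ifs <;> norm_num

theorem pr_append (M M' : ℕ) (p : ℕ → ℝ) (E : (Fin (M + M') → Fin (2 * n + 1) → Bool) → Prop) :
    pr n (M + M') p E = avg n M p (fun c => pr n M' (fun s => p (M + s))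
      (fun c' => E (Fin.append c c'))) := by
  unfold pr
  rw [avg_append]

theorem pr_trunc {M s : ℕ} (hs : s ≤ M) (p : ℕ → ℝ)
    (E : (Fin s → Fin (2 * n + 1) → Bool) → Prop) :
    pr n M p (fun c => E (trunc c s)) = pr n s p E := by
  classical
  unfold pr
  exact avg_trunc hs p (fun c => if E c then 1 else 0)

variable {w : Pat (2 * n + 1) → PowerSeries ℂ} {t : (PowerSeries ℂ)[X]}
variable (hn : 1 ≤ n) (hw : ∀ σ, PowerSeries.coeff 0 (w σ) = 1)
    (h : ∀ x : ℂ, (TL (2 * n) (PowerSeries.C om) (PowerSeries.C x) ez).vecMul w =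
      (t.eval (PowerSeries.C x)) • w)

include hw h in
theorem jensen {p : ℕ → ℝ} (hp : ∀ s, 0 ≤ p s ∧ p s ≤ 1) (M : ℕ) (σ : Pat (2 * n + 1))
    (a : ℝ) {θ : ℝ} (hθ : 0 ≤ θ) :
    Real.exp (θ * |a|) ≤ avg n M p (fun c => Real.exp (θ * |a + yy w t M p σ c|)) := by
  obtain ⟨e, he, hea⟩ : ∃ e : ℝ, |e| = 1 ∧ e * a = |a| := by
    rcases le_total 0 a with h1 | h1
    · exact ⟨1, abs_one, by rw [abs_of_nonneg h1, one_mul]⟩
    · exact ⟨-1, by rw [abs_neg, abs_one], by rw [abs_of_nonpos h1]; ring⟩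
  have h1 : ∀ c, Real.exp (θ * |a|) + Real.exp (θ * |a|) * (θ * e) * yy w t M p σ c ≤
      Real.exp (θ * |a + yy w t M p σ c|) := by
    intro c
    have h2 : e * (a + yy w t M p σ c) ≤ |a + yy w t M p σ c| := by
      refine (le_abs_self _).trans ?_
      rw [abs_mul, he, one_mul]
    have h3 : Real.exp (θ * |a|) * Real.exp (θ * e * yy w t M p σ c) ≤
        Real.exp (θ * |a + yy w t M p σ c|) := by
      rw [← Real.exp_add]
      apply Real.exp_le_exp.2
      have h4 := mul_le_mul_of_nonneg_left h2 hθ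
      have h5 : θ * |a| + θ * e * yy w t M p σ c = θ * (e * (a + yy w t M p σ c)) := by
        rw [← hea]; ring
      rw [h5]
      exact h4
    refine le_trans ?_ h3
    have h6 := Real.add_one_le_exp (θ * e * yy w t M p σ c)
    have h7 := mul_le_mul_of_nonneg_left h6 (Real.exp_pos (θ * |a|)).le
    linarith
  have h2 := avg_mono hp h1
  rw [avg_add, avg_const, avg_smul] at h2
  have h3 := yy_mean hw h p σ M
  have h4 : avg n M p (fun c => yy w t M p σ c) = 0 := h3
  rw [h4] at h2
  linarith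

include hw h in
/-- Doob's maximal inequality -/
theorem doob {θ x : ℝ} (hθ : 0 ≤ θ) (M : ℕ) : ∀ {p : ℕ → ℝ}, (∀ s, 0 ≤ p s ∧ p s ≤ 1) →
    ∀ (σ : Pat (2 * n + 1)) (a : ℝ),
    pr n M p (fun c => ∃ s ≤ M, x ≤ |a + yy w t s p σ (trunc c s)|) ≤
      Real.exp (-(θ * x)) * avg n M p (fun c => Real.exp (θ * |a + yy w t M p σ c|)) := by
  induction M with
  | zero =>
    intro p hp σ a
    rcases le_or_gt x |a| with hx | hx
    · refine (pr_le_one hp _).trans ?_
      have h1 := jensen hw h hp 0 σ a hθ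
      have h2 : Real.exp (θ * x) ≤ Real.exp (θ * |a|) :=
        Real.exp_le_exp.2 (mul_le_mul_of_nonneg_left hx hθ)
      have h3 := mul_le_mul_of_nonneg_left (h2.trans h1) (Real.exp_pos (-(θ * x))).le
      rw [← Real.exp_add, neg_add_cancel, Real.exp_zero] at h3
      exact h3
    · have h0 : ∀ c : Fin 0 → Fin (2 * n + 1) → Bool,
          ¬ ∃ s ≤ 0, x ≤ |a + yy w t s p σ (trunc c s)| := by
        rintro c ⟨s, hs, h1⟩
        have hs0 : s = 0 := by omega
        subst hs0
        have : yy w t 0 p σ (trunc c 0) = 0 := by simp [yy, run]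
        rw [this, add_zero] at h1
        linarith
      have e : pr n 0 p (fun c => ∃ s ≤ 0, x ≤ |a + yy w t s p σ (trunc c s)|) = 0 := by
        classical
        unfold pr
        simp only [if_neg (h0 _), avg_const]
      rw [e]
      exact mul_nonneg (Real.exp_pos _).le (avg_nonneg hp _ fun c => (Real.exp_pos _).le)
  | succ M ih =>
    intro p hp σ a
    rcases le_or_gt x |a| with hx | hx
    · refine (pr_le_one hp _).trans ?_
      have h1 := jensen hw h hp (M + 1) σ a hθ
      have h2 : Real.exp (θ * x) ≤ Real.exp (θ * |a|) :=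
        Real.exp_le_exp.2 (mul_le_mul_of_nonneg_left hx hθ)
      have h3 := mul_le_mul_of_nonneg_left (h2.trans h1) (Real.exp_pos (-(θ * x))).le
      rw [← Real.exp_add, neg_add_cancel, Real.exp_zero] at h3
      exact h3
    · have e0 : pr n (M + 1) p (fun c => ∃ s ≤ M + 1, x ≤ |a + yy w t s p σ (trunc c s)|) =
          pr n (1 + M) p (fun c => ∃ s ≤ 1 + M, x ≤ |a + yy w t s p σ (trunc c s)|) := by
        rw [Nat.add_comm]
      have e1 : avg n (M + 1) p (fun c => Real.exp (θ * |a + yy w t (M + 1) p σ c|)) =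
          avg n (1 + M) p (fun c => Real.exp (θ * |a + yy w t (1 + M) p σ c|)) := by
        rw [Nat.add_comm]
      rw [e0, e1, pr_append, avg_append, ← avg_smul]
      refine avg_mono hp fun c => ?_
      have h2 := ih (p := fun s => p (1 + s)) (fun s => hp _) (run (2 * n) 1 c σ).1
        (a + yy w t 1 p σ c)
      have e2 : ∀ c' : Fin M → Fin (2 * n + 1) → Bool,
          a + yy w t (1 + M) p σ (Fin.append c c') =
          a + yy w t 1 p σ c + yy w t M (fun s => p (1 + s)) (run (2 * n) 1 c σ).1 c' := by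
        intro c'
        rw [yy_append]
        ring
      simp only [e2]
      refine le_trans (pr_mono (fun s => hp _) fun c' => ?_) h2
      rintro ⟨s, hs, h3⟩
      rcases Nat.eq_zero_or_pos s with hs0 | hs0
      · exfalso
        subst hs0
        have : yy w t 0 p σ (trunc (Fin.append c c') 0) = 0 := by simp [yy, run]
        rw [this, add_zero] at h3
        linarith
      · obtain ⟨r, rfl⟩ : ∃ r, s = 1 + r := ⟨s - 1, by omega⟩
        refine ⟨r, by omega, ?_⟩
        rw [trunc_append_add, yy_append] at h3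
        rwa [add_assoc]

include hn hw h in
/-- the maximal inequality for the martingale -/
theorem max_YY {p : ℕ → ℝ} (hp : ∀ s, 0 ≤ p s ∧ p s ≤ 1) {M s s' : ℕ} (h1 : s ≤ s')
    (h2 : s' ≤ M) (x : ℝ) :
    pr n M p (fun c => ∃ r, s ≤ r ∧ r ≤ s' ∧ x ≤ |YY w t p r c - YY w t p s c|) ≤
      3 * Real.exp (-(x / (4 * (Real.sqrt (∑ r ∈ Finset.Ico s s', vv t n (p r)) + 8 * BB n)))) := by
  obtain ⟨m, rfl⟩ := Nat.exists_eq_add_of_le h1
  have e3 : ∑ r ∈ Finset.Ico s (s + m), vv t n (p r) = ∑ r ∈ Finset.range m, vv t n (p (s + r)) := by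
    rw [Finset.sum_Ico_eq_sum_range, Nat.add_sub_cancel_left]
  have e0 : pr n M p (fun c => ∃ r, s ≤ r ∧ r ≤ s + m ∧ x ≤ |YY w t p r c - YY w t p s c|) =
      pr n (s + m) p (fun c => ∃ r, s ≤ r ∧ r ≤ s + m ∧ x ≤ |YY w t p r c - YY w t p s c|) := by
    rw [← pr_trunc h2 p]
    congr 1
    funext c
    apply propext
    constructor
    · rintro ⟨r, h3, h4, h5⟩
      refine ⟨r, h3, h4, ?_⟩
      rwa [YY_trunc p c h4, YY_trunc p c (by omega)]
    · rintro ⟨r, h3, h4, h5⟩
      refine ⟨r, h3, h4, ?_⟩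
      rwa [YY_trunc p c h4, YY_trunc p c (by omega)] at h5
  rw [e3, e0, pr_append]
  refine avg_le hp _ fun c => ?_
  set A : ℝ := sc t n m (fun r => p (s + r)) with hA
  have hA' : Real.sqrt (∑ r ∈ Finset.range m, vv t n (p (s + r))) + 8 * BB n = A := rfl
  have hA0 : 0 < A := sc_pos (t := t) (n := n) m _
  rw [hA']
  have h3 := doob hw h (θ := 1 / (4 * A)) (x := x) (by positivity) m
    (p := fun r => p (s + r)) (fun r => hp _) (run (2 * n) s c (start n)).1 0
  have h4 := exp_main hn hw h (p := fun r => p (s + r)) (fun r => hp _) m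
    ((reach_start n).go s c)
  rw [← hA] at h4
  have h5 : avg n m (fun r => p (s + r)) (fun c' => Real.exp (1 / (4 * A) *
      |0 + yy w t m (fun r => p (s + r)) (run (2 * n) s c (start n)).1 c'|)) ≤ 3 := by
    refine le_trans (le_of_eq ?_) h4
    congr 1
    funext c'
    congr 1
    rw [zero_add]
    ring
  have h6 : pr n m (fun r => p (s + r)) (fun c' => ∃ r, s ≤ r ∧ r ≤ s + m ∧
      x ≤ |YY w t p r (Fin.append c c') - YY w t p s (Fin.append c c')|) ≤
      pr n m (fun r => p (s + r)) (fun c' => ∃ r ≤ m, x ≤ |0 + yy w t r (fun r => p (s + r))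
        (run (2 * n) s c (start n)).1 (trunc c' r)|) := by
    refine pr_mono (fun r => hp _) fun c' => ?_
    rintro ⟨r, h7, h8, h9⟩
    obtain ⟨r, rfl⟩ := Nat.exists_eq_add_of_le h7
    refine ⟨r, by omega, ?_⟩
    rw [zero_add]
    have e : YY w t p (s + r) (Fin.append c c') - YY w t p s (Fin.append c c') =
        yy w t r (fun r => p (s + r)) (run (2 * n) s c (start n)).1 (trunc c' r) := by
      unfold YY
      rw [trunc_append_add, trunc_append, yy_append]
      ring
    rwa [e] at h9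
  refine h6.trans (h3.trans ?_)
  have h10 : Real.exp (-(1 / (4 * A) * x)) = Real.exp (-(x / (4 * A))) := by
    congr 1
    ring
  rw [h10, mul_comm (3 : ℝ)]
  exact mul_le_mul_of_nonneg_left h5 (Real.exp_pos _).le

include hn hw h in
/-- **the maximal inequality for the centred displacement** -/
theorem max_dev {p : ℕ → ℝ} (hp : ∀ s, 0 ≤ p s ∧ p s ≤ 1) {M s s' : ℕ} (h1 : s ≤ s')
    (h2 : s' ≤ M) {x : ℝ} (hx : 0 ≤ x) :
    pr n M p (fun c => ∃ r, s ≤ r ∧ r ≤ s' ∧
      x * (Real.sqrt (∑ r ∈ Finset.Ico s s', vv t n (p r)) + (2 * n + 1) ^ 2) ≤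
        |dev n p c r - dev n p c s|) ≤ 4 * Real.exp (-(x / 192)) := by
  have hB := BB_pos n
  set S : ℝ := Real.sqrt (∑ r ∈ Finset.Ico s s', vv t n (p r)) with hS
  have hS0 : 0 ≤ S := Real.sqrt_nonneg _
  set U : ℝ := S + (2 * n + 1) ^ 2 with hU
  set A : ℝ := S + 8 * BB n with hA
  have hU0 : 0 < U := by positivity
  have hA0 : 0 < A := by positivity
  have hAU : A ≤ 48 * U := by
    have := BB_le (n := n)
    rw [hA, hU]
    linarith
  have h3 := max_YY hn hw h hp h1 h2 (x * U - 4 * BB n)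
  refine le_trans (pr_mono hp fun c => ?_) (h3.trans ?_)
  · rintro ⟨r, h4, h5, h6⟩
    refine ⟨r, h4, h5, ?_⟩
    have y1 := YY_XX hn hw h hp c r
    have y2 := YY_XX hn hw h hp c s
    unfold dev at h6
    have e : ((lev n c r : ℝ) - meanX n r p) - ((lev n c s : ℝ) - meanX n s p) =
        (YY w t p r c - YY w t p s c) - ((YY w t p r c - ((lev n c r : ℝ) - meanX n r p)) -
          (YY w t p s c - ((lev n c s : ℝ) - meanX n s p))) := by ring
    rw [e] at h6
    have h7 := abs_sub (YY w t p r c - YY w t p s c)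
      ((YY w t p r c - ((lev n c r : ℝ) - meanX n r p)) -
          (YY w t p s c - ((lev n c s : ℝ) - meanX n s p)))
    have h8 := abs_sub (YY w t p r c - ((lev n c r : ℝ) - meanX n r p))
          (YY w t p s c - ((lev n c s : ℝ) - meanX n s p))
    linarith
  · rw [← hA]
    have h4 : -((x * U - 4 * BB n) / (4 * A)) ≤ -(x / 192) + 1 / 8 := by
      have h5 : x / 192 ≤ x * U / (4 * A) := by
        rw [div_le_div_iff₀ (by norm_num) (by positivity)]
        have := mul_le_mul_of_nonneg_left hAU hx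
        linarith
      have h6 : 4 * BB n / (4 * A) ≤ 1 / 8 := by
        rw [div_le_div_iff₀ (by positivity) (by norm_num)]
        rw [hA]
        linarith
      rw [sub_div]
      linarith
    have h5 := Real.exp_le_exp.2 h4
    rw [Real.exp_add] at h5
    have h6 : Real.exp (1 / 8) ≤ 4 / 3 := by
      have h7 := (abs_le.1 (Real.abs_exp_sub_one_sub_id_le (x := 1 / 8)
        (by rw [abs_of_pos (by norm_num)]; norm_num))).2
      linarith
    have h7 := Real.exp_pos (-(x / 192))
    nlinarith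

end

end Pool.Agent.Helper21.LK
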