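import Pool.Agent.Helper21.JL.App

/-!
# The oscillation of the corrector
-/

namespace Pool.Agent.Helper21.LK

open H906K Pool.Agent.H974R3 Polynomial Filter Topology

/-- reachable patterns -/
def Reach (n : ℕ) (σ : Pat (2 * n + 1)) : Prop :=
  ∃ (M : ℕ) (c : Fin M → Fin (2 * n + 1) → Bool), σ = (run (2 * n) M c (start n)).1

theorem reach_start (n : ℕ) : Reach n (start n) := ⟨0, fun i => i.elim0, rfl⟩

theorem Reach.go {n : ℕ} {σ : Pat (2 * n + 1)} (h : Reach n σ) (M : ℕ)
    (c : Fin M → Fin (2 * n + 1) → Bool) : Reach n (run (2 * n) M c σ).1 := by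
  obtain ⟨M0, c0, rfl⟩ := h
  exact ⟨M0 + M, Fin.append c0 c, by rw [run_append]⟩

/-- from every reachable pattern the displacement is almost the same -/
theorem Reach.disp {n : ℕ} (hn : 1 ≤ n) {σ : Pat (2 * n + 1)} (h : Reach n σ) (M : ℕ)
    (c : Fin M → Fin (2 * n + 1) → Bool) :
    |((run (2 * n) M c σ).2 : ℝ) - Xd n M c| ≤ BB n := by
  obtain ⟨M0, c0, rfl⟩ := h
  have h1 := Xd_append hn M0 M c0 c
  rw [Xd_run n (M0 + M), run_append, ← Xd_run] at h1
  push_cast at h1
  rwa [add_sub_cancel_left] at h1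

theorem word_run {m K : ℕ} {w : Pat (m + 1) → Pat (m + 1)} (h : IsWord m K w) :
    ∃ c : Fin K → Fin (m + 1) → Bool, ∀ σ, (run m K c σ).1 = w σ := by
  induction h with
  | id => exact ⟨fun i => i.elim0, fun σ => rfl⟩
  | step c w K _ ih =>
    obtain ⟨c0, hc0⟩ := ih
    refine ⟨Fin.snoc (α := fun _ => Fin (m + 1) → Bool) c0 c, fun σ => ?_⟩
    rw [p2_run, hc0]
    rfl

theorem avg_const (n M : ℕ) (p : ℕ → ℝ) (a : ℝ) : avg n M p (fun _ => a) = a := by
  unfold avg
  rw [← Finset.sum_mul, sum_weight, one_mul]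

theorem avg_sub (n M : ℕ) (p : ℕ → ℝ) (f g : (Fin M → Fin (2 * n + 1) → Bool) → ℝ) :
    avg n M p (fun c => f c - g c) = avg n M p f - avg n M p g := by
  unfold avg
  rw [← Finset.sum_sub_distrib]
  exact Finset.sum_congr rfl fun c _ => by ring

theorem avg_add (n M : ℕ) (p : ℕ → ℝ) (f g : (Fin M → Fin (2 * n + 1) → Bool) → ℝ) :
    avg n M p (fun c => f c + g c) = avg n M p f + avg n M p g := by
  unfold avg
  rw [← Finset.sum_add_distrib]
  exact Finset.sum_congr rfl fun c _ => by ring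

theorem avg_smul (n M : ℕ) (p : ℕ → ℝ) (a : ℝ) (f : (Fin M → Fin (2 * n + 1) → Bool) → ℝ) :
    avg n M p (fun c => a * f c) = a * avg n M p f := by
  unfold avg
  rw [Finset.mul_sum]
  exact Finset.sum_congr rfl fun c _ => by ring

theorem avg_mono {n M : ℕ} {p : ℕ → ℝ} (hp : ∀ s, 0 ≤ p s ∧ p s ≤ 1)
    {f g : (Fin M → Fin (2 * n + 1) → Bool) → ℝ} (h : ∀ c, f c ≤ g c) :
    avg n M p f ≤ avg n M p g :=
  Finset.sum_le_sum fun c _ => mul_le_mul_of_nonneg_left (h c) (weight_nonneg hp c)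

/-- loss of memory -/
theorem mixing (n : ℕ) (f : Pat (2 * n + 1) → ℝ) (σ τ : Pat (2 * n + 1)) : ∃ K : ℕ,
    Tendsto (fun j : ℕ => |avg n (j * K) (fun _ => 1 / 2) (fun c => f (run (2 * n) (j * K) c σ).1) -
      avg n (j * K) (fun _ => 1 / 2) (fun c => f (run (2 * n) (j * K) c τ).1)|) atTop (𝓝 0) := by
  obtain ⟨K, w, hw, hbase⟩ := exists_word n
  obtain ⟨c0, hc0⟩ := word_run hw
  have hp : ∀ s : ℕ, (0 : ℝ) ≤ (fun _ : ℕ => (1 / 2 : ℝ)) s ∧ (fun _ : ℕ => (1 / 2 : ℝ)) s ≤ 1 :=
    fun s => by norm_num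
  set E : ℕ → Pat (2 * n + 1) → ℝ := fun M σ =>
    avg n M (fun _ => 1 / 2) (fun c => f (run (2 * n) M c σ).1) with hE
  obtain ⟨G, hG⟩ : ∃ G : ℝ, ∀ σ τ, |f σ - f τ| ≤ G := by
    obtain ⟨B1, hB1⟩ := (Set.finite_range fun q : Pat (2 * n + 1) × Pat (2 * n + 1) =>
      |f q.1 - f q.2|).bddAbove
    exact ⟨B1, fun σ τ => hB1 ⟨(σ, τ), rfl⟩⟩
  have hG0 : 0 ≤ G := (abs_nonneg _).trans (hG σ τ)
  set δ : ℝ := weight n K (fun _ => 1 / 2) c0 with hδ
  have hδ0 : 0 < δ := by
    rw [hδ]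
    unfold weight
    refine Finset.prod_pos fun t _ => Finset.prod_pos fun j _ => ?_
    split_ifs <;> norm_num
  have hδ1 : δ ≤ 1 := by
    have h1 := sum_weight (n := n) K (fun _ => 1 / 2)
    rw [← h1, hδ]
    exact Finset.single_le_sum (f := fun c => weight n K (fun _ => 1 / 2) c)
      (fun c _ => weight_nonneg hp c) (Finset.mem_univ c0)
  have key : ∀ j : ℕ, ∀ σ τ, |E (j * K) σ - E (j * K) τ| ≤ (1 - δ) ^ j * G := by
    intro j
    induction j with
    | zero =>
      intro σ τ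
      rw [Nat.zero_mul, pow_zero, one_mul]
      have : ∀ σ, E 0 σ = f σ := by
        intro σ
        simp [hE, avg, weight, run]
      rw [this, this]
      exact hG σ τ
    | succ j ih =>
      intro σ τ
      have e : (j + 1) * K = K + j * K := by ring
      have hs : ∀ σ, E ((j + 1) * K) σ =
          ∑ c, weight n K (fun _ => 1 / 2) c * E (j * K) (run (2 * n) K c σ).1 := by
        intro σ
        rw [e, hE]
        simp only
        rw [avg_append]
        simp only [run_append]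
        rfl
      rw [hs, hs, ← Finset.sum_sub_distrib, ← Finset.add_sum_erase _ _ (Finset.mem_univ c0), hc0,
        hc0, hbase, hbase, sub_self, zero_add]
      refine (Finset.abs_sum_le_sum_abs _ _).trans ?_
      calc ∑ c ∈ Finset.univ.erase c0, |weight n K (fun _ => 1 / 2) c *
            E (j * K) (run (2 * n) K c σ).1 - weight n K (fun _ => 1 / 2) c *
            E (j * K) (run (2 * n) K c τ).1|
          ≤ ∑ c ∈ Finset.univ.erase c0, weight n K (fun _ => 1 / 2) c * ((1 - δ) ^ j * G) := by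
            refine Finset.sum_le_sum fun c _ => ?_
            rw [← mul_sub, abs_mul, abs_of_nonneg (weight_nonneg hp c)]
            exact mul_le_mul_of_nonneg_left (ih _ _) (weight_nonneg hp c)
        _ = (1 - δ) ^ (j + 1) * G := by
            rw [← Finset.sum_mul]
            have h1 := sum_weight (n := n) K (fun _ => 1 / 2)
            rw [← Finset.add_sum_erase _ _ (Finset.mem_univ c0), ← hδ] at h1
            rw [show ∑ c ∈ Finset.univ.erase c0, weight n K (fun _ => 1 / 2) c = 1 - δ by linarith]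
            ring
  refine ⟨K, ?_⟩
  have hl : Tendsto (fun j : ℕ => (1 - δ) ^ j * G) atTop (𝓝 0) := by
    have := (tendsto_pow_atTop_nhds_zero_of_lt_one (r := 1 - δ) (by linarith) (by linarith)).mul_const G
    rwa [zero_mul] at this
  exact squeeze_zero (fun _ => abs_nonneg _) (fun j => key j σ τ) hl

/-- the corrector -/
noncomputable def hh {n : ℕ} (w : Pat (2 * n + 1) → PowerSeries ℂ) (σ : Pat (2 * n + 1)) : ℝ :=
  (PowerSeries.coeff 1 (w σ)).im

section
variable {n : ℕ} {w : Pat (2 * n + 1) → PowerSeries ℂ} {t : (PowerSeries ℂ)[X]}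

/-- the mean of the displacement from a pattern -/
theorem mean_id (hw : ∀ σ, PowerSeries.coeff 0 (w σ) = 1)
    (h : ∀ x : ℂ, (TL (2 * n) (PowerSeries.C om) (PowerSeries.C x) ez).vecMul w =
      (t.eval (PowerSeries.C x)) • w) (p : ℕ → ℝ) (σ : Pat (2 * n + 1)) (M : ℕ) :
    avg n M p (fun c => ((run (2 * n) M c σ).2 : ℝ)) =
      ∑ s ∈ Finset.range M, al t n (p s) + hh w σ -
        avg n M p (fun c => hh w (run (2 * n) M c σ).1) := by
  obtain ⟨q0, q1, -⟩ := prod_coeff (fun s => Lam t n (p s)) (fun s => lam_zero hw h (p s)) M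
  have key := all_id h p σ M
  have h1 := congrArg (PowerSeries.coeff 1) key
  rw [map_sum, p2_mul1, q0, q1, hw] at h1
  have h2 : ∑ c, ((weight n M p c : ℝ) : ℂ) * (PowerSeries.coeff 1 (w (run (2 * n) M c σ).1) +
        Complex.I * (run (2 * n) M c σ).2) =
      (∑ s ∈ Finset.range M, PowerSeries.coeff 1 (Lam t n (p s))) + PowerSeries.coeff 1 (w σ) := by
    rw [show (∑ s ∈ Finset.range M, PowerSeries.coeff 1 (Lam t n (p s))) +
        PowerSeries.coeff 1 (w σ) = 1 * PowerSeries.coeff 1 (w σ) +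
        (∑ s ∈ Finset.range M, PowerSeries.coeff 1 (Lam t n (p s))) * 1 by ring, ← h1]
    refine Finset.sum_congr rfl fun c _ => ?_
    rw [PowerSeries.coeff_C_mul, p2_mul1, hw, p2_exp0, p2_exp1]
    ring
  have h3 := congrArg Complex.im h2
  rw [Complex.im_sum, Complex.add_im, Complex.im_sum] at h3
  have h4 : ∑ c, (((weight n M p c : ℝ) : ℂ) * (PowerSeries.coeff 1 (w (run (2 * n) M c σ).1) +
        Complex.I * (run (2 * n) M c σ).2)).im =
      avg n M p (fun c => hh w (run (2 * n) M c σ).1) +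
        avg n M p (fun c => ((run (2 * n) M c σ).2 : ℝ)) := by
    rw [← avg_add]
    refine Finset.sum_congr rfl fun c _ => ?_
    rw [Complex.im_ofReal_mul, Complex.add_im]
    simp [hh]
  rw [h4] at h3
  change _ + _ = ∑ s ∈ Finset.range M, al t n (p s) + hh w σ at h3
  linarith

/-- the corrector oscillates by at most `BB` around its value at the start -/
theorem hh_osc (hn : 1 ≤ n) (hw : ∀ σ, PowerSeries.coeff 0 (w σ) = 1)
    (h : ∀ x : ℂ, (TL (2 * n) (PowerSeries.C om) (PowerSeries.C x) ez).vecMul w =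
      (t.eval (PowerSeries.C x)) • w) {σ : Pat (2 * n + 1)} (hσ : Reach n σ) :
    |hh w σ - hh w (start n)| ≤ BB n := by
  obtain ⟨K, hK⟩ := mixing n (hh w) σ (start n)
  have hp : ∀ s : ℕ, (0 : ℝ) ≤ (fun _ : ℕ => (1 / 2 : ℝ)) s ∧ (fun _ : ℕ => (1 / 2 : ℝ)) s ≤ 1 :=
    fun s => by norm_num
  have h1 : ∀ j : ℕ, |hh w σ - hh w (start n)| ≤ BB n +
      |avg n (j * K) (fun _ => 1 / 2) (fun c => hh w (run (2 * n) (j * K) c σ).1) -
      avg n (j * K) (fun _ => 1 / 2) (fun c => hh w (run (2 * n) (j * K) c (start n)).1)| := by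
    intro j
    have e1 := mean_id hw h (fun _ => 1 / 2) σ (j * K)
    have e2 := mean_id hw h (fun _ => 1 / 2) (start n) (j * K)
    have e3 : |avg n (j * K) (fun _ => 1 / 2) (fun c => ((run (2 * n) (j * K) c σ).2 : ℝ)) -
        avg n (j * K) (fun _ => 1 / 2) (fun c => ((run (2 * n) (j * K) c (start n)).2 : ℝ))| ≤
        BB n := by
      rw [← avg_sub]
      refine abs_avg_le hp _ fun c => ?_
      rw [← Xd_run]
      exact hσ.disp hn _ c
    have e4 : hh w σ - hh w (start n) =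
      (avg n (j * K) (fun _ => 1 / 2) (fun c => ((run (2 * n) (j * K) c σ).2 : ℝ)) -
        avg n (j * K) (fun _ => 1 / 2) (fun c => ((run (2 * n) (j * K) c (start n)).2 : ℝ))) +
      (avg n (j * K) (fun _ => 1 / 2) (fun c => hh w (run (2 * n) (j * K) c σ).1) -
      avg n (j * K) (fun _ => 1 / 2) (fun c => hh w (run (2 * n) (j * K) c (start n)).1)) := by
      linarith
    rw [e4]
    exact (abs_add_le _ _).trans (by linarith)
  have h2 := hK.const_add (BB n)
  rw [add_zero] at h2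
  exact ge_of_tendsto' h2 h1

end

end Pool.Agent.Helper21.LK
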