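import Pool.Agent.Helper21.JL.Steps3

/-!
# The quantitative Gaussian approximation
-/

namespace Pool.Agent.Helper21.LK

open H906K Pool.Agent.H974R3 Polynomial Filter Topology

theorem GG_bound {L α β K : ℝ} (hL : 0 ≤ L) (hα0 : 0 ≤ α) (hβ : 0 < β) (hβ1 : β ≤ 1)
    (hα : α ≤ 22 * Real.sqrt β) (hK0 : 0 ≤ K) (hK : K ≤ 2 / β) :
    K * GG L α β ≤ 98131968 * L ^ 3 * Real.sqrt β + 352 * L ^ 2 * Real.sqrt β +
      468512 * L ^ 4 * Real.sqrt β := by
  set b : ℝ := Real.sqrt β with hb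
  have hb0 : 0 < b := Real.sqrt_pos.2 hβ
  have hbb : b ^ 2 = β := Real.sq_sqrt hβ.le
  have hb1 : b ≤ 1 := by
    rw [hb, Real.sqrt_le_one]
    exact hβ1
  have h1 : GG L α β ≤ 4608 * L ^ 3 * (22 * b) ^ 3 + 8 * β * (22 * b) * L ^ 2 +
      L ^ 4 * (22 * b) ^ 4 := by
    unfold GG
    gcongr
  have h2 : 4608 * L ^ 3 * (22 * b) ^ 3 + 8 * β * (22 * b) * L ^ 2 +
      L ^ 4 * (22 * b) ^ 4 ≤ b ^ 3 * (49065984 * L ^ 3 + 176 * L ^ 2 + 234256 * L ^ 4) := by
    rw [← hbb]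
    have h3 : b ^ 4 ≤ b ^ 3 := pow_le_pow_of_le_one hb0.le hb1 (by norm_num)
    have h4 : 234256 * L ^ 4 * b ^ 4 ≤ 234256 * L ^ 4 * b ^ 3 :=
      mul_le_mul_of_nonneg_left h3 (by positivity)
    linarith
  have h3 : 0 ≤ GG L α β := by unfold GG; positivity
  calc K * GG L α β ≤ (2 / β) * (b ^ 3 * (49065984 * L ^ 3 + 176 * L ^ 2 + 234256 * L ^ 4)) :=
        mul_le_mul hK (h1.trans h2) h3 (by positivity)
    _ = _ := by
        rw [← hbb]
        field_simp
        ring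

section
variable {n : ℕ} {w : Pat (2 * n + 1) → PowerSeries ℂ} {t : (PowerSeries ℂ)[X]}
variable (hn : 1 ≤ n) (hw : ∀ σ, PowerSeries.coeff 0 (w σ) = 1)
    (h : ∀ x : ℂ, (TL (2 * n) (PowerSeries.C om) (PowerSeries.C x) ez).vecMul w =
      (t.eval (PowerSeries.C x)) • w)
include hn hw h

theorem vv_sqrt_le {x : ℝ} (h0 : 0 ≤ x) (h1 : x ≤ 1) : Real.sqrt (vv t n x) ≤ 13 * BB n := by
  have hp : ∀ _ : ℕ, 0 ≤ x ∧ x ≤ 1 := fun _ => ⟨h0, h1⟩
  have h2 := (sec_main hn hw h (p := fun _ => x) hp 1).2.1 (start n) (reach_start n)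
  have h3 : E2 w t 1 (fun _ => x) (start n) ≤ (5 * BB n) ^ 2 := by
    unfold E2
    refine avg_le hp _ fun c => ?_
    rw [← sq_abs]
    exact pow_le_pow_left₀ (abs_nonneg _) (yy_one_le hn hw h hp (reach_start n) c) 2
  have h4 : Real.sqrt (E2 w t 1 (fun _ => x) (start n)) ≤ 5 * BB n := by
    rw [Real.sqrt_le_left (by have := BB_pos n; positivity)]
    exact h3
  rw [Finset.sum_range_one] at h2
  have h5 := (abs_le.1 h2).1
  linarith

theorem vv_le {x : ℝ} (h0 : 0 ≤ x) (h1 : x ≤ 1) : vv t n x ≤ 169 * BB n ^ 2 := by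
  have h2 := vv_sqrt_le hn hw h h0 h1
  have h3 := vv_nonneg hw h h0 h1
  have hB := BB_pos n
  calc vv t n x = Real.sqrt (vv t n x) ^ 2 := (Real.sq_sqrt h3).symm
    _ ≤ (13 * BB n) ^ 2 := pow_le_pow_left₀ (Real.sqrt_nonneg _) h2 2
    _ = _ := by ring

/-- **Gaussian approximation of the increments of the centred displacement** -/
theorem quant {p : ℕ → ℝ} (hp : ∀ s, 0 ≤ p s ∧ p s ≤ 1) {M : ℕ} {m : ℕ → ℕ} (hm : Monotone m)
    (J : ℕ) (hmJ : m J ≤ M) {l : ℕ → ℝ} {L : ℝ} (hL0 : 0 ≤ L) (hL : ∀ j ∈ Finset.range J, |l j| ≤ L)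
    (hV : 0 < ∑ s ∈ Finset.range M, vv t n (p s)) :
    ‖cf n M p (fun c => ∑ j ∈ Finset.range J,
        l j * (((lev n c (m (j + 1)) : ℝ) - meanX n (m (j + 1)) p) -
          ((lev n c (m j) : ℝ) - meanX n (m j) p)) /
          Real.sqrt (∑ s ∈ Finset.range M, vv t n (p s))) -
      Complex.exp (-((∑ j ∈ Finset.range J, l j ^ 2 *
        (∑ s ∈ Finset.Ico (m j) (m (j + 1)), vv t n (p s)) /
          (2 * ∑ s ∈ Finset.range M, vv t n (p s)) : ℝ) : ℂ))‖ ≤
      10 ^ 8 * J * (1 + L) ^ 4 *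
        Real.sqrt (BB n / Real.sqrt (∑ s ∈ Finset.range M, vv t n (p s))) := by
  have hB := BB_pos n
  set V : ℝ := ∑ s ∈ Finset.range M, vv t n (p s) with hVd
  set rT : ℝ := Real.sqrt V with hrT
  have hrT0 : 0 < rT := Real.sqrt_pos.2 hV
  have hrr : rT ^ 2 = V := Real.sq_sqrt hV.le
  set β : ℝ := BB n / rT with hβd
  have hβ0 : 0 < β := div_pos hB hrT0
  have hv0 : ∀ s, 0 ≤ vv t n (p s) := fun s => vv_nonneg hw h (hp s).1 (hp s).2
  rcases Nat.eq_zero_or_pos J with hJ | hJ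
  · subst hJ
    simp [cf, sum_weight, ← Complex.ofReal_sum]
  have hJ1 : (1 : ℝ) ≤ J := by exact_mod_cast hJ
  have hL4 : (1 : ℝ) ≤ (1 + L) ^ 4 := one_le_pow₀ (by linarith)
  rcases lt_or_ge 1 β with hβ1 | hβ1
  · -- trivial bound
    have h1 : 1 ≤ Real.sqrt β := by
      rw [Real.one_le_sqrt]
      exact hβ1.le
    have h2 : ‖cf n M p (fun c => ∑ j ∈ Finset.range J,
        l j * (((lev n c (m (j + 1)) : ℝ) - meanX n (m (j + 1)) p) -
          ((lev n c (m j) : ℝ) - meanX n (m j) p)) / rT)‖ ≤ 1 := by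
      have := cav_norm_le hp (fun c : Fin M → Fin (2 * n + 1) → Bool =>
        Complex.exp (Complex.I * ((∑ j ∈ Finset.range J,
        l j * (((lev n c (m (j + 1)) : ℝ) - meanX n (m (j + 1)) p) -
          ((lev n c (m j) : ℝ) - meanX n (m j) p)) / rT : ℝ) : ℂ)))
      simp only [norm_cexp, avg_const] at this
      exact this
    have h3 : ‖Complex.exp (-((∑ j ∈ Finset.range J, l j ^ 2 *
        (∑ s ∈ Finset.Ico (m j) (m (j + 1)), vv t n (p s)) / (2 * V) : ℝ) : ℂ))‖ ≤ 1 := by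
      rw [← Complex.ofReal_neg, Complex.norm_exp_ofReal, Real.exp_le_one_iff]
      have : 0 ≤ ∑ j ∈ Finset.range J, l j ^ 2 *
        (∑ s ∈ Finset.Ico (m j) (m (j + 1)), vv t n (p s)) / (2 * V) := by
        apply Finset.sum_nonneg
        intro j _
        have : 0 ≤ ∑ s ∈ Finset.Ico (m j) (m (j + 1)), vv t n (p s) :=
          Finset.sum_nonneg fun s _ => hv0 s
        positivity
      linarith
    refine (norm_sub_le _ _).trans ?_
    have h4 : (1 : ℝ) ≤ J * (1 + L) ^ 4 * Real.sqrt β := by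
      have : (1 : ℝ) ≤ J * (1 + L) ^ 4 := by nlinarith
      nlinarith
    have h5 : 10 ^ 8 * J * (1 + L) ^ 4 * Real.sqrt β =
      10 ^ 8 * (J * (1 + L) ^ 4 * Real.sqrt β) := by ring
    rw [h5]
    linarith
  -- the main case
  obtain ⟨K, hK1, hK2⟩ : ∃ K : ℕ, 1 / β ≤ K ∧ (K : ℝ) ≤ 2 / β := by
    refine ⟨⌈1 / β⌉₊, Nat.le_ceil _, ?_⟩
    have h1 := (Nat.ceil_lt_add_one (a := 1 / β) (by positivity)).le
    refine h1.trans ?_
    have h2 : 1 ≤ 1 / β := by
      rw [le_div_iff₀ hβ0]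
      linarith
    calc 1 / β + 1 ≤ 1 / β + 1 / β := by linarith
      _ = 2 / β := by ring
  have hK0 : (0 : ℝ) < K := lt_of_lt_of_le (by positivity) hK1
  have hKn : 1 ≤ K := by
    have : 0 < K := by exact_mod_cast hK0
    omega
  have hKβ : 1 / (K : ℝ) ≤ β := by
    rw [div_le_iff₀ hK0]
    rw [div_le_iff₀ hβ0] at hK1
    linarith
  set F : ℝ := 169 * BB n ^ 2 with hF
  set a : ℝ := Real.sqrt (V / K + F) + 8 * BB n with ha
  have ha0 : 0 ≤ a := by positivity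
  have hblk : ∀ j < J, ∃ u : ℕ → ℕ, u 0 = m j ∧
      u K = m (j + 1) ∧ Monotone u ∧ ∀ i < K,
      Real.sqrt (∑ r ∈ Finset.Ico (u i) (u (i + 1)), vv t n (p r)) + 8 * BB n ≤ a := by
    intro j hj
    have h1 : ∑ r ∈ Finset.Ico (m j) (m (j + 1)), vv t n (p r) ≤ V := by
      rw [hVd, Finset.range_eq_Ico]
      apply Finset.sum_le_sum_of_subset_of_nonneg _ fun r _ _ => hv0 r
      apply Finset.Ico_subset_Ico (Nat.zero_le _)
      exact (hm (show j + 1 ≤ J from hj)).trans hmJ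
    obtain ⟨u, hu0, huK, hum, hu⟩ := subtimes (f := fun r => vv t n (p r)) hv0
      (fun r => vv_le hn hw h (hp r).1 (hp r).2) (hm (Nat.le_succ j)) h1 hKn
    refine ⟨u, hu0, huK, hum, fun i hi => ?_⟩
    rw [ha]
    apply add_le_add _ le_rfl
    exact Real.sqrt_le_sqrt (hu i hi)
  have hα : a / rT ≤ 22 * Real.sqrt β := by
    have hsβ : 0 ≤ Real.sqrt β := Real.sqrt_nonneg β
    have h1 : Real.sqrt (V / K + F) ≤ Real.sqrt (V / K) + 13 * BB n := by
      rw [Real.sqrt_le_left (by positivity)]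
      have h2 := Real.sq_sqrt (show 0 ≤ V / K by positivity)
      have h3 : 0 ≤ Real.sqrt (V / K) * (26 * BB n) := by positivity
      rw [hF]
      nlinarith
    have h2 : Real.sqrt (V / K) ≤ rT * Real.sqrt β := by
      rw [hrT, ← Real.sqrt_mul hV.le]
      apply Real.sqrt_le_sqrt
      calc V / K = V * (1 / K) := by ring
        _ ≤ V * β := mul_le_mul_of_nonneg_left hKβ hV.le
    have h3 : BB n = β * rT := by
      rw [hβd]; field_simp
    have h4 : β ≤ Real.sqrt β := by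
      have h5 : Real.sqrt β * Real.sqrt β = β := Real.mul_self_sqrt hβ0.le
      have h6 : Real.sqrt β ≤ 1 := by
        rw [Real.sqrt_le_one]
        exact hβ1
      nlinarith
    rw [div_le_iff₀ hrT0, ha]
    have h5 : 21 * BB n ≤ 21 * (Real.sqrt β * rT) := by
      rw [h3]
      apply mul_le_mul_of_nonneg_left _ (by norm_num)
      exact mul_le_mul_of_nonneg_right h4 hrT0.le
    linarith
  have hα0 : 0 ≤ a / rT := by positivity
  -- the errors
  set Fu : (Fin M → Fin (2 * n + 1) → Bool) → ℝ := fun c => ∑ j ∈ Finset.range J,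
      l j * (((lev n c (m (j + 1)) : ℝ) - meanX n (m (j + 1)) p) -
        ((lev n c (m j) : ℝ) - meanX n (m j) p)) / rT with hFu
  set Gu : (Fin M → Fin (2 * n + 1) → Bool) → ℝ := fun c => ∑ j ∈ Finset.range J,
      l j / rT * (YY w t p (m (j + 1)) c - YY w t p (m j) c) with hGu
  set v2 : ℝ := ∑ j ∈ Finset.range J, l j ^ 2 *
      (∑ s ∈ Finset.Ico (m j) (m (j + 1)), vv t n (p s)) / (2 * V) with hv2
  have hv12 : ∑ j ∈ Finset.range J, (l j / rT) ^ 2 *
      (∑ r ∈ Finset.Ico (m j) (m (j + 1)), vv t n (p r)) / 2 = v2 := by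
    refine Finset.sum_congr rfl fun j _ => ?_
    rw [div_pow, hrr]
    field_simp
  have h1 : ‖cav n M p (fun c => Complex.exp (Complex.I * ((Gu c : ℝ) : ℂ))) -
      Complex.exp (-(v2 : ℂ))‖ ≤ ∑ j ∈ Finset.range J, K * eps n (l j / rT) a := by
    rw [← hv12]
    exact steps3 hn hw h hp hm (fun j => l j / rT) J hblk hmJ
  have h1' : ∑ j ∈ Finset.range J, K * eps n (l j / rT) a ≤ J * (K * GG L (a / rT) β) := by
    refine (Finset.sum_le_card_nsmul _ _ _ fun j hj => mul_le_mul_of_nonneg_left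
      (eps_scale hrT0 ha0 (hL j hj) le_rfl) hK0.le).trans (le_of_eq ?_)
    rw [Finset.card_range, nsmul_eq_mul]
  have h3 : ‖cav n M p (fun c => Complex.exp (Complex.I * ((Fu c : ℝ) : ℂ))) -
      cav n M p (fun c => Complex.exp (Complex.I * ((Gu c : ℝ) : ℂ)))‖ ≤ J * (4 * L * β) := by
    rw [cav_sub]
    refine (cav_norm_le hp _).trans ?_
    refine avg_le hp _ fun c => ?_
    refine (cexp_diff _ _).trans ?_
    rw [hFu, hGu]
    simp only
    rw [← Finset.sum_sub_distrib]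
    refine (Finset.abs_sum_le_sum_abs _ _).trans ?_
    have h4 : ∀ j ∈ Finset.range J, |l j * (((lev n c (m (j + 1)) : ℝ) -
        meanX n (m (j + 1)) p) - ((lev n c (m j) : ℝ) - meanX n (m j) p)) / rT -
        l j / rT * (YY w t p (m (j + 1)) c - YY w t p (m j) c)| ≤ 4 * L * β := by
      intro j hj
      have y1 := YY_XX hn hw h hp c (m (j + 1))
      have y2 := YY_XX hn hw h hp c (m j)
      have e : l j * (((lev n c (m (j + 1)) : ℝ) -
        meanX n (m (j + 1)) p) - ((lev n c (m j) : ℝ) - meanX n (m j) p)) / rT -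
        l j / rT * (YY w t p (m (j + 1)) c - YY w t p (m j) c) =
        l j / rT * ((YY w t p (m j) c - ((lev n c (m j) : ℝ) - meanX n (m j) p)) -
          (YY w t p (m (j + 1)) c -
            ((lev n c (m (j + 1)) : ℝ) - meanX n (m (j + 1)) p))) := by ring
      rw [e, abs_mul, abs_div, abs_of_pos hrT0]
      have h5 := (abs_sub (YY w t p (m j) c - ((lev n c (m j) : ℝ) -
        meanX n (m j) p)) (YY w t p (m (j + 1)) c -
            ((lev n c (m (j + 1)) : ℝ) - meanX n (m (j + 1)) p))).trans (add_le_add y2 y1)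
      calc |l j| / rT * _ ≤ L / rT * (2 * BB n + 2 * BB n) := by
            apply mul_le_mul _ h5 (abs_nonneg _) (by positivity)
            exact div_le_div_of_nonneg_right (hL j hj) hrT0.le
        _ = _ := by rw [hβd]; ring
    refine (Finset.sum_le_card_nsmul _ _ _ h4).trans (le_of_eq ?_)
    rw [Finset.card_range, nsmul_eq_mul]
  have e : cf n M p Fu - Complex.exp (-((v2 : ℝ) : ℂ)) =
      (cav n M p (fun c => Complex.exp (Complex.I * ((Fu c : ℝ) : ℂ))) -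
      cav n M p (fun c => Complex.exp (Complex.I * ((Gu c : ℝ) : ℂ)))) +
      (cav n M p (fun c => Complex.exp (Complex.I * ((Gu c : ℝ) : ℂ))) -
      Complex.exp (-(v2 : ℂ))) := by
    unfold cf cav
    ring
  rw [e]
  refine (norm_add_le _ _).trans ?_
  have h5 := GG_bound hL0 hα0 hβ0 hβ1 hα hK0.le hK2
  have hsβ : 0 ≤ Real.sqrt β := Real.sqrt_nonneg β
  have h6 : β ≤ Real.sqrt β := by
    have h5 : Real.sqrt β * Real.sqrt β = β := Real.mul_self_sqrt hβ0.le
    have h6 : Real.sqrt β ≤ 1 := by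
      rw [Real.sqrt_le_one]
      exact hβ1
    nlinarith
  have h7 : 4 * L * β ≤ 4 * L * Real.sqrt β := mul_le_mul_of_nonneg_left h6 (by positivity)
  have h8 : K * GG L (a / rT) β + 4 * L * β ≤ 10 ^ 8 * (1 + L) ^ 4 * Real.sqrt β := by
    have h9 : (98131968 * L ^ 3 + 352 * L ^ 2 + 468512 * L ^ 4 + 4 * L) ≤
        10 ^ 8 * (1 + L) ^ 4 := by
      have : 10 ^ 8 * (1 + L) ^ 4 = 10 ^ 8 + 4 * 10 ^ 8 * L + 6 * 10 ^ 8 * L ^ 2 +
        4 * 10 ^ 8 * L ^ 3 + 10 ^ 8 * L ^ 4 := by ring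
      rw [this]
      have l1 : 0 ≤ L ^ 2 := by positivity
      have l2 : 0 ≤ L ^ 3 := by positivity
      have l3 : 0 ≤ L ^ 4 := by positivity
      linarith
    have h10 := mul_le_mul_of_nonneg_right h9 hsβ
    linarith
  calc _ ≤ J * (4 * L * β) + J * (K * GG L (a / rT) β) := add_le_add h3 (h1.trans h1')
    _ = J * (K * GG L (a / rT) β + 4 * L * β) := by ring
    _ ≤ J * (10 ^ 8 * (1 + L) ^ 4 * Real.sqrt β) :=
        mul_le_mul_of_nonneg_left h8 (Nat.cast_nonneg J)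
    _ = _ := by ring

end

end Pool.Agent.Helper21.LK
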