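import Pool.Agent.Helper21.JL.Mix

/-!
# Second moments, with absolute constants
-/

namespace Pool.Agent.Helper21.LK

open H906K Pool.Agent.H974R3 Polynomial Filter Topology

/-- the martingale of the displacement from the pattern `σ` -/
noncomputable def yy {n : ℕ} (w : Pat (2 * n + 1) → PowerSeries ℂ) (t : (PowerSeries ℂ)[X])
    (M : ℕ) (p : ℕ → ℝ) (σ : Pat (2 * n + 1)) (c : Fin M → Fin (2 * n + 1) → Bool) : ℝ :=
  ((run (2 * n) M c σ).2 : ℝ) + hh w (run (2 * n) M c σ).1 - hh w σ -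
    ∑ s ∈ Finset.range M, al t n (p s)

theorem avg_congr {n M : ℕ} {p p' : ℕ → ℝ} (h : ∀ s < M, p s = p' s)
    (f : (Fin M → Fin (2 * n + 1) → Bool) → ℝ) : avg n M p f = avg n M p' f := by
  unfold avg weight
  refine Finset.sum_congr rfl fun c _ => ?_
  congr 1
  refine Finset.prod_congr rfl fun t _ => Finset.prod_congr rfl fun j _ => ?_
  rw [h t t.2]

theorem avg_abs_le {n M : ℕ} {p : ℕ → ℝ} (hp : ∀ s, 0 ≤ p s ∧ p s ≤ 1)
    (f : (Fin M → Fin (2 * n + 1) → Bool) → ℝ) :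
    avg n M p (fun c => |f c|) ≤ Real.sqrt (avg n M p (fun c => f c ^ 2)) := by
  apply Real.le_sqrt_of_sq_le
  unfold avg
  have h := Finset.sum_mul_sq_le_sq_mul_sq Finset.univ
    (fun c : Fin M → Fin (2 * n + 1) → Bool => Real.sqrt (weight n M p c))
    (fun c => Real.sqrt (weight n M p c) * |f c|)
  have e1 : ∀ c, Real.sqrt (weight n M p c) * (Real.sqrt (weight n M p c) * |f c|) =
      weight n M p c * |f c| := by
    intro c
    rw [← mul_assoc, Real.mul_self_sqrt (weight_nonneg hp c)]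
  have e2 : ∀ c, Real.sqrt (weight n M p c) ^ 2 = weight n M p c := fun c =>
    Real.sq_sqrt (weight_nonneg hp c)
  have e3 : ∀ c, (Real.sqrt (weight n M p c) * |f c|) ^ 2 = weight n M p c * f c ^ 2 := by
    intro c
    rw [mul_pow, e2, sq_abs]
  simp only [e1, e2, e3, sum_weight, one_mul] at h
  exact h

/-- Minkowski -/
theorem sd_le {n M : ℕ} {p : ℕ → ℝ} (hp : ∀ s, 0 ≤ p s ∧ p s ≤ 1)
    {f g : (Fin M → Fin (2 * n + 1) → Bool) → ℝ} {B : ℝ} (hB : 0 ≤ B) (h : ∀ c, |f c - g c| ≤ B) :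
    Real.sqrt (avg n M p (fun c => f c ^ 2)) ≤
      Real.sqrt (avg n M p (fun c => g c ^ 2)) + B := by
  set G : ℝ := Real.sqrt (avg n M p (fun c => g c ^ 2)) with hG
  have hG0 : 0 ≤ G := Real.sqrt_nonneg _
  have hGG : G ^ 2 = avg n M p (fun c => g c ^ 2) :=
    Real.sq_sqrt (avg_nonneg hp _ fun c => sq_nonneg _)
  rw [show G + B = Real.sqrt ((G + B) ^ 2) from (Real.sqrt_sq (by positivity)).symm]
  apply Real.sqrt_le_sqrt
  have h1 : ∀ c, f c ^ 2 ≤ g c ^ 2 + 2 * B * |g c| + B ^ 2 := by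
    intro c
    have h2 : |f c| ≤ |g c| + B := by
      have := abs_sub_abs_le_abs_sub (f c) (g c)
      linarith [h c]
    rw [← sq_abs (f c), ← sq_abs (g c)]
    nlinarith [abs_nonneg (f c), abs_nonneg (g c)]
  refine (avg_mono hp h1).trans ?_
  have e : avg n M p (fun c => g c ^ 2 + 2 * B * |g c| + B ^ 2) =
      avg n M p (fun c => g c ^ 2) + 2 * B * avg n M p (fun c => |g c|) + B ^ 2 := by
    rw [avg_add, avg_add, avg_smul, avg_const]
  rw [e]
  have h3 := avg_abs_le hp g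
  rw [← hG] at h3
  nlinarith

theorem arch {x y C : ℝ} (h : ∀ K : ℕ, 1 ≤ K → K * x ≤ K * y + C * Real.sqrt K) : x ≤ y := by
  by_contra hc
  push Not at hc
  obtain ⟨K, hK⟩ := exists_nat_gt ((|C| / (x - y)) ^ 2)
  have hxy : 0 < x - y := by linarith
  have hK0 : (0 : ℝ) < K := lt_of_le_of_lt (sq_nonneg _) hK
  have hK1 : 1 ≤ K := by
    have : 0 < K := by exact_mod_cast hK0
    omega
  have h1 := h K hK1
  have hs : 0 < Real.sqrt K := Real.sqrt_pos.2 hK0
  have hss : Real.sqrt K * Real.sqrt K = K := Real.mul_self_sqrt hK0.le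
  have h2 : |C| / (x - y) < Real.sqrt K := by
    rw [Real.lt_sqrt (by positivity)]
    exact hK
  rw [div_lt_iff₀ hxy] at h2
  have h3 : K * (x - y) ≤ |C| * Real.sqrt K := by
    have := le_abs_self C
    nlinarith
  have h4 : Real.sqrt K * (Real.sqrt K * (x - y)) ≤ Real.sqrt K * |C| := by
    rw [← mul_assoc, hss]
    linarith
  have h5 := le_of_mul_le_mul_left h4 hs
  linarith

section
variable {n : ℕ} {w : Pat (2 * n + 1) → PowerSeries ℂ} {t : (PowerSeries ℂ)[X]}

theorem yy_append (M M' : ℕ) (p : ℕ → ℝ) (σ : Pat (2 * n + 1))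
    (c : Fin M → Fin (2 * n + 1) → Bool) (c' : Fin M' → Fin (2 * n + 1) → Bool) :
    yy w t (M + M') p σ (Fin.append c c') = yy w t M p σ c +
      yy w t M' (fun s => p (M + s)) (run (2 * n) M c σ).1 c' := by
  unfold yy
  rw [run_append, Finset.sum_range_add]
  push_cast
  ring

theorem yy_mean (hw : ∀ σ, PowerSeries.coeff 0 (w σ) = 1)
    (h : ∀ x : ℂ, (TL (2 * n) (PowerSeries.C om) (PowerSeries.C x) ez).vecMul w =
      (t.eval (PowerSeries.C x)) • w) (p : ℕ → ℝ) (σ : Pat (2 * n + 1)) (M : ℕ) :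
    avg n M p (yy w t M p σ) = 0 := by
  have h1 := mean_id hw h p σ M
  unfold yy
  have e : avg n M p (fun c => ((run (2 * n) M c σ).2 : ℝ) + hh w (run (2 * n) M c σ).1 - hh w σ -
      ∑ s ∈ Finset.range M, al t n (p s)) = avg n M p (fun c => ((run (2 * n) M c σ).2 : ℝ)) +
      avg n M p (fun c => hh w (run (2 * n) M c σ).1) - hh w σ -
      ∑ s ∈ Finset.range M, al t n (p s) := by
    rw [avg_sub, avg_sub, avg_add, avg_const, avg_const]
  rw [e]
  linarith

variable (hn : 1 ≤ n) (hw : ∀ σ, PowerSeries.coeff 0 (w σ) = 1)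
    (h : ∀ x : ℂ, (TL (2 * n) (PowerSeries.C om) (PowerSeries.C x) ez).vecMul w =
      (t.eval (PowerSeries.C x)) • w)
include hn hw h

theorem mean_bound {p : ℕ → ℝ} (hp : ∀ s, 0 ≤ p s ∧ p s ≤ 1) (M : ℕ) :
    |meanX n M p - ∑ s ∈ Finset.range M, al t n (p s)| ≤ BB n := by
  have h1 := mean_id hw h p (start n) M
  have e : meanX n M p - ∑ s ∈ Finset.range M, al t n (p s) =
      -(avg n M p (fun c => hh w (run (2 * n) M c (start n)).1 - hh w (start n))) := by
    rw [avg_sub, avg_const]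
    unfold meanX
    simp only [Xd_run]
    linarith
  rw [e, abs_neg]
  exact abs_avg_le hp _ fun c => hh_osc hn hw h ((reach_start n).go M c)

theorem yy_close {σ : Pat (2 * n + 1)} (hσ : Reach n σ) (M : ℕ) (p : ℕ → ℝ)
    (c : Fin M → Fin (2 * n + 1) → Bool) :
    |yy w t M p σ c - yy w t M p (start n) c| ≤ 4 * BB n := by
  have h1 := hσ.disp hn M c
  rw [Xd_run] at h1
  have h2 := hh_osc hn hw h (hσ.go M c)
  have h3 := hh_osc hn hw h ((reach_start n).go M c)
  have h4 := hh_osc hn hw h hσ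
  unfold yy
  rw [abs_le] at h1 h2 h3 h4 ⊢
  constructor <;> linarith [h1.1, h1.2, h2.1, h2.2, h3.1, h3.2, h4.1, h4.2]

theorem yy_X {p : ℕ → ℝ} (hp : ∀ s, 0 ≤ p s ∧ p s ≤ 1) (M : ℕ)
    (c : Fin M → Fin (2 * n + 1) → Bool) :
    |yy w t M p (start n) c - ((Xd n M c : ℝ) - meanX n M p)| ≤ 2 * BB n := by
  have h1 := mean_bound hn hw h hp M
  have h2 := hh_osc hn hw h ((reach_start n).go M c)
  unfold yy
  rw [← Xd_run]
  rw [abs_le] at h1 h2 ⊢
  constructor <;> linarith [h1.1, h1.2, h2.1, h2.2]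

omit hn in
/-- second moments add up -/
theorem sec_append (M M' : ℕ) (p : ℕ → ℝ) (σ : Pat (2 * n + 1)) :
    avg n (M + M') p (fun c => yy w t (M + M') p σ c ^ 2) = avg n M p (fun c => yy w t M p σ c ^ 2) +
      avg n M p (fun c => avg n M' (fun s => p (M + s)) (fun c' =>
        yy w t M' (fun s => p (M + s)) (run (2 * n) M c σ).1 c' ^ 2)) := by
  rw [avg_append, ← avg_add]
  unfold avg
  refine Finset.sum_congr rfl fun c _ => ?_
  congr 1
  have e1 : ∀ c', yy w t (M + M') p σ (Fin.append c c') ^ 2 = yy w t M p σ c ^ 2 +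
      2 * yy w t M p σ c * yy w t M' (fun s => p (M + s)) (run (2 * n) M c σ).1 c' +
      yy w t M' (fun s => p (M + s)) (run (2 * n) M c σ).1 c' ^ 2 := by
    intro c'
    rw [yy_append]
    ring
  have e2 := yy_mean hw h (fun s => p (M + s)) (run (2 * n) M c σ).1 M'
  have e3 := sum_weight (n := n) M' (fun s => p (M + s))
  unfold avg at e2
  simp only [e1]
  calc _ = ∑ c', weight n M' (fun s => p (M + s)) c' * yy w t M p σ c ^ 2 +
        2 * yy w t M p σ c * ∑ c', weight n M' (fun s => p (M + s)) c' *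
          yy w t M' (fun s => p (M + s)) (run (2 * n) M c σ).1 c' +
        ∑ c', weight n M' (fun s => p (M + s)) c' *
          yy w t M' (fun s => p (M + s)) (run (2 * n) M c σ).1 c' ^ 2 := by
        rw [Finset.mul_sum, ← Finset.sum_add_distrib, ← Finset.sum_add_distrib]
        refine Finset.sum_congr rfl fun c' _ => ?_
        ring
    _ = _ := by rw [e2, ← Finset.sum_mul, e3]; ring

end

end Pool.Agent.Helper21.LK
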