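import Pool.Agent.Helper21.JL.Sec

/-!
# Comparison of the second moments with the asymptotic variance
-/

namespace Pool.Agent.Helper21.LK

open H906K Pool.Agent.H974R3 Polynomial Filter Topology

section
variable {n : ℕ} {w : Pat (2 * n + 1) → PowerSeries ℂ} {t : (PowerSeries ℂ)[X]}

/-- second moment -/
noncomputable def E2 (w : Pat (2 * n + 1) → PowerSeries ℂ) (t : (PowerSeries ℂ)[X])
    (M : ℕ) (p : ℕ → ℝ) (σ : Pat (2 * n + 1)) : ℝ := avg n M p (fun c => yy w t M p σ c ^ 2)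

theorem E2_congr {M : ℕ} {p p' : ℕ → ℝ} (h : ∀ s < M, p s = p' s) (σ : Pat (2 * n + 1)) :
    E2 w t M p σ = E2 w t M p' σ := by
  unfold E2
  rw [avg_congr h]
  congr 1
  funext c
  unfold yy
  rw [Finset.sum_congr rfl fun s hs => by rw [h s (Finset.mem_range.1 hs)]]

theorem sum_per {f : ℕ → ℝ} {M : ℕ} (h : ∀ s, f (M + s) = f s) (K : ℕ) :
    ∑ s ∈ Finset.range (K * M), f s = K * ∑ s ∈ Finset.range M, f s := by
  have hK : ∀ K s, f (K * M + s) = f s := by
    intro K
    induction K with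
    | zero => intro s; simp
    | succ K ih => intro s; rw [Nat.succ_mul, add_right_comm, add_comm, h, ih]
  induction K with
  | zero => simp
  | succ K ih =>
    rw [Nat.succ_mul, Finset.sum_range_add, ih, Finset.sum_congr rfl fun s _ => hK K s]
    push_cast
    ring

theorem varX_eq (M : ℕ) (p : ℕ → ℝ) :
    varX n M p = avg n M p (fun c => ((Xd n M c : ℝ) - meanX n M p) ^ 2) := by
  rw [var_eq M p (meanX n M p), sub_self]
  ring

variable (hn : 1 ≤ n) (hw : ∀ σ, PowerSeries.coeff 0 (w σ) = 1)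
    (h : ∀ x : ℂ, (TL (2 * n) (PowerSeries.C om) (PowerSeries.C x) ez).vecMul w =
      (t.eval (PowerSeries.C x)) • w)
include hn hw h

omit hn in
theorem sec_blocks {p : ℕ → ℝ} (hp : ∀ s, 0 ≤ p s ∧ p s ≤ 1) {M : ℕ} (hper : ∀ s, p (M + s) = p s)
    {L U : ℝ} (hL : ∀ σ, Reach n σ → L ≤ E2 w t M p σ) (hU : ∀ σ, Reach n σ → E2 w t M p σ ≤ U)
    (K : ℕ) : K * L ≤ E2 w t (K * M) p (start n) ∧ E2 w t (K * M) p (start n) ≤ K * U := by
  have hK : ∀ K s, p (K * M + s) = p s := by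
    intro K
    induction K with
    | zero => intro s; simp
    | succ K ih => intro s; rw [Nat.succ_mul, add_right_comm, add_comm, hper, ih]
  induction K with
  | zero =>
    have : E2 w t (0 * M) p (start n) = 0 := by
      rw [Nat.zero_mul]
      simp [E2, avg, yy, run, weight]
    rw [this]
    simp
  | succ K ih =>
    have e : E2 w t ((K + 1) * M) p (start n) = E2 w t (K * M) p (start n) +
        avg n (K * M) p (fun c => E2 w t M p (run (2 * n) (K * M) c (start n)).1) := by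
      unfold E2
      rw [Nat.succ_mul, sec_append hw h]
      have e2 : (fun s => p (K * M + s)) = p := funext fun s => hK K s
      rw [e2]
    rw [e]
    have h1 : L ≤ avg n (K * M) p (fun c => E2 w t M p (run (2 * n) (K * M) c (start n)).1) := by
      rw [← avg_const n (K * M) p L]
      exact avg_mono hp fun c => hL _ ((reach_start n).go _ c)
    have h2 : avg n (K * M) p (fun c => E2 w t M p (run (2 * n) (K * M) c (start n)).1) ≤ U :=
      avg_le hp _ fun c => hU _ ((reach_start n).go _ c)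
    push_cast
    constructor <;> nlinarith [ih.1, ih.2]

theorem sec_per {p : ℕ → ℝ} (hp : ∀ s, 0 ≤ p s ∧ p s ≤ 1) {M : ℕ} (hper : ∀ s, p (M + s) = p s) :
    0 ≤ ∑ s ∈ Finset.range M, vv t n (p s) ∧
    Real.sqrt (E2 w t M p (start n)) - 4 * BB n ≤ Real.sqrt (∑ s ∈ Finset.range M, vv t n (p s)) ∧
    Real.sqrt (∑ s ∈ Finset.range M, vv t n (p s)) ≤
      Real.sqrt (E2 w t M p (start n)) + 4 * BB n := by
  have hB := (BB_pos n).le
  set B : ℝ := BB n with hBd
  set a : ℝ := Real.sqrt (E2 w t M p (start n)) with ha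
  set V0 : ℝ := ∑ s ∈ Finset.range M, vv t n (p s) with hV0
  have ha0 : 0 ≤ a := Real.sqrt_nonneg _
  have hE0 : ∀ M σ, 0 ≤ E2 w t M p σ := fun M σ => avg_nonneg hp _ fun c => sq_nonneg _
  have hup : ∀ σ, Reach n σ → Real.sqrt (E2 w t M p σ) ≤ a + 4 * B := fun σ hσ =>
    sd_le hp (by positivity) (yy_close hn hw h hσ M p)
  have hlo : ∀ σ, Reach n σ → a ≤ Real.sqrt (E2 w t M p σ) + 4 * B := fun σ hσ =>
    sd_le hp (by positivity) (fun c => by rw [abs_sub_comm]; exact yy_close hn hw h hσ M p c)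
  obtain ⟨D, hD0, hD⟩ := bounds hw h
  set D' : ℝ := D * Real.sqrt (M + 1) with hD'
  have hD'0 : 0 ≤ D' := by positivity
  have hK1 : ∀ K : ℕ, 1 ≤ K → 1 ≤ Real.sqrt K ∧ Real.sqrt K * Real.sqrt K = K := by
    intro K hK
    refine ⟨?_, Real.mul_self_sqrt (Nat.cast_nonneg K)⟩
    rw [Real.one_le_sqrt]
    exact_mod_cast hK
  have hvar : ∀ K : ℕ, 1 ≤ K → |varX n (K * M) p - K * V0| ≤ D' * Real.sqrt K := by
    intro K hK
    obtain ⟨-, h2, -⟩ := hD p hp (K * M)
    rw [sum_per (f := fun s => vv t n (p s)) (fun s => by rw [hper]) K] at h2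
    refine h2.trans ?_
    rw [hD', mul_assoc, ← Real.sqrt_mul (by positivity)]
    apply mul_le_mul_of_nonneg_left _ hD0
    apply Real.sqrt_le_sqrt
    push_cast
    have : (1 : ℝ) ≤ K := by exact_mod_cast hK
    nlinarith
  set S : ℕ → ℝ := fun K => Real.sqrt (varX n (K * M) p) with hS
  have hS0 : ∀ K, 0 ≤ S K := fun K => Real.sqrt_nonneg _
  have hSS : ∀ K, S K ^ 2 = varX n (K * M) p := fun K => by
    apply Real.sq_sqrt
    rw [varX_eq]
    exact avg_nonneg hp _ fun c => sq_nonneg _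
  have hSE : ∀ K, S K ≤ Real.sqrt (E2 w t (K * M) p (start n)) + 2 * B := fun K => by
    rw [hS]
    simp only
    rw [varX_eq]
    exact sd_le hp (by positivity) fun c => by
      rw [abs_sub_comm]; exact yy_X hn hw h hp (K * M) c
  have hES : ∀ K, Real.sqrt (E2 w t (K * M) p (start n)) ≤ S K + 2 * B := fun K => by
    rw [hS]
    simp only
    rw [varX_eq]
    exact sd_le hp (by positivity) (yy_X hn hw h hp (K * M))
  have hV00 : 0 ≤ V0 := by
    apply arch (C := D')
    intro K hK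
    have h1 := (abs_le.1 (hvar K hK)).2
    have h2 := sq_nonneg (S K)
    rw [hSS] at h2
    linarith
  refine ⟨hV00, ?_, ?_⟩
  · rcases le_or_gt (a - 4 * B) 0 with hx | hx
    · exact hx.trans (Real.sqrt_nonneg _)
    apply Real.le_sqrt_of_sq_le
    set x : ℝ := a - 4 * B with hxd
    set C1 : ℝ := Real.sqrt (V0 + D') with hC1
    have hC11 : C1 ^ 2 = V0 + D' := Real.sq_sqrt (by positivity)
    have hC10 : 0 ≤ C1 := Real.sqrt_nonneg _
    apply arch (C := D' + 4 * B * C1 + 4 * B ^ 2)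
    intro K hK
    obtain ⟨k1, k2⟩ := hK1 K hK
    have hL : ∀ σ, Reach n σ → x ^ 2 ≤ E2 w t M p σ := by
      intro σ hσ
      have h1 := hlo σ hσ
      have h2 : x ≤ Real.sqrt (E2 w t M p σ) := by linarith
      calc x ^ 2 ≤ Real.sqrt (E2 w t M p σ) ^ 2 := pow_le_pow_left₀ hx.le h2 2
        _ = _ := Real.sq_sqrt (hE0 _ _)
    have hU : ∀ σ, Reach n σ → E2 w t M p σ ≤ (a + 4 * B) ^ 2 := by
      intro σ hσ
      rw [← Real.sq_sqrt (hE0 M σ)]
      exact pow_le_pow_left₀ (Real.sqrt_nonneg _) (hup σ hσ) 2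
    obtain ⟨h1, -⟩ := sec_blocks hw h hp hper hL hU K
    have h2 := hES K
    have h3 := (abs_le.1 (hvar K hK)).2
    rw [← hSS] at h3
    have h4 : E2 w t (K * M) p (start n) ≤ (S K + 2 * B) ^ 2 := by
      rw [← Real.sq_sqrt (hE0 (K * M) (start n))]
      exact pow_le_pow_left₀ (Real.sqrt_nonneg _) h2 2
    have h5 : S K ≤ Real.sqrt K * C1 := by
      apply abs_le_of_sq_le_sq' _ (by positivity) |>.2
      rw [mul_pow, hC11, Real.sq_sqrt (Nat.cast_nonneg K)]
      have : D' * Real.sqrt K ≤ D' * K := by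
        apply mul_le_mul_of_nonneg_left _ hD'0
        nlinarith
      linarith
    have h6 : 4 * B * S K ≤ 4 * B * (Real.sqrt K * C1) := mul_le_mul_of_nonneg_left h5 (by positivity)
    have h7 : 4 * B ^ 2 ≤ 4 * B ^ 2 * Real.sqrt K := by nlinarith [sq_nonneg B]
    nlinarith
  · apply Real.sqrt_le_iff.2
    refine ⟨by positivity, ?_⟩
    apply arch (C := D' + 4 * B * (a + 4 * B) + 4 * B ^ 2)
    intro K hK
    obtain ⟨k1, k2⟩ := hK1 K hK
    have hL : ∀ σ, Reach n σ → 0 ≤ E2 w t M p σ := fun σ _ => hE0 _ _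
    have hU : ∀ σ, Reach n σ → E2 w t M p σ ≤ (a + 4 * B) ^ 2 := by
      intro σ hσ
      rw [← Real.sq_sqrt (hE0 M σ)]
      exact pow_le_pow_left₀ (Real.sqrt_nonneg _) (hup σ hσ) 2
    obtain ⟨-, h1⟩ := sec_blocks hw h hp hper hL hU K
    have h2 := hSE K
    have h3 := (abs_le.1 (hvar K hK)).1
    rw [← hSS] at h3
    have h4 : Real.sqrt (E2 w t (K * M) p (start n)) ≤ Real.sqrt K * (a + 4 * B) := by
      apply Real.sqrt_le_iff.2
      refine ⟨by positivity, ?_⟩
      rw [mul_pow, Real.sq_sqrt (Nat.cast_nonneg K)]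
      exact h1
    have h5 : S K ≤ Real.sqrt K * (a + 4 * B) + 2 * B := by linarith
    have h6 : S K ^ 2 ≤ (Real.sqrt K * (a + 4 * B) + 2 * B) ^ 2 := pow_le_pow_left₀ (hS0 K) h5 2
    have h7 : 4 * B ^ 2 ≤ 4 * B ^ 2 * Real.sqrt K := by nlinarith [sq_nonneg B]
    have h8 : (Real.sqrt K * (a + 4 * B) + 2 * B) ^ 2 = K * (a + 4 * B) ^ 2 +
        4 * B * (a + 4 * B) * Real.sqrt K + 4 * B ^ 2 := by
      have : (Real.sqrt K * (a + 4 * B) + 2 * B) ^ 2 = (Real.sqrt K * Real.sqrt K) * (a + 4 * B) ^ 2 +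
        4 * B * (a + 4 * B) * Real.sqrt K + 4 * B ^ 2 := by ring
      rw [this, k2]
    rw [h8] at h6
    nlinarith

/-- **the second moments are those of the asymptotic variance, up to `8 BB`** -/
theorem sec_main {p : ℕ → ℝ} (hp : ∀ s, 0 ≤ p s ∧ p s ≤ 1) (M : ℕ) :
    0 ≤ ∑ s ∈ Finset.range M, vv t n (p s) ∧
    (∀ σ, Reach n σ → |Real.sqrt (E2 w t M p σ) -
      Real.sqrt (∑ s ∈ Finset.range M, vv t n (p s))| ≤ 8 * BB n) ∧
    |Real.sqrt (varX n M p) - Real.sqrt (∑ s ∈ Finset.range M, vv t n (p s))| ≤ 6 * BB n := by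
  have hB := (BB_pos n).le
  rcases Nat.eq_zero_or_pos M with hM | hM
  · subst hM
    have e1 : ∀ σ, E2 w t 0 p σ = 0 := fun σ => by simp [E2, avg, yy, run, weight]
    have e2 : varX n 0 p = 0 := by
      have : ∀ c : Fin 0 → Fin (2 * n + 1) → Bool, Xd n 0 c = 0 := by
        intro c
        rw [Xd_run]
        rfl
      simp [varX, meanX, avg, this]
    refine ⟨by simp, fun σ _ => ?_, ?_⟩
    · rw [e1]; simp [hB]
    · rw [e2]; simp [hB]
  set p' : ℕ → ℝ := fun s => p (s % M) with hp'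
  have hp1 : ∀ s, 0 ≤ p' s ∧ p' s ≤ 1 := fun s => hp _
  have hper : ∀ s, p' (M + s) = p' s := fun s => by
    simp [hp']
  have hcg : ∀ s < M, p s = p' s := fun s hs => by
    rw [hp']
    simp only
    rw [Nat.mod_eq_of_lt hs]
  have es : ∑ s ∈ Finset.range M, vv t n (p s) = ∑ s ∈ Finset.range M, vv t n (p' s) :=
    Finset.sum_congr rfl fun s hs => by rw [hcg s (Finset.mem_range.1 hs)]
  obtain ⟨h0, h1, h2⟩ := sec_per hn hw h hp1 hper
  rw [← es, ← E2_congr hcg] at h1 h2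
  rw [← es] at h0
  refine ⟨h0, fun σ hσ => ?_, ?_⟩
  · have h3 : Real.sqrt (E2 w t M p σ) ≤ Real.sqrt (E2 w t M p (start n)) + 4 * BB n :=
      sd_le hp (by positivity) (yy_close hn hw h hσ M p)
    have h4 : Real.sqrt (E2 w t M p (start n)) ≤ Real.sqrt (E2 w t M p σ) + 4 * BB n :=
      sd_le hp (by positivity) (fun c => by rw [abs_sub_comm]; exact yy_close hn hw h hσ M p c)
    rw [abs_le]
    constructor <;> linarith
  · have h3 : Real.sqrt (varX n M p) ≤ Real.sqrt (E2 w t M p (start n)) + 2 * BB n := by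
      rw [varX_eq]
      exact sd_le hp (by positivity) fun c => by
        rw [abs_sub_comm]; exact yy_X hn hw h hp M c
    have h4 : Real.sqrt (E2 w t M p (start n)) ≤ Real.sqrt (varX n M p) + 2 * BB n := by
      rw [varX_eq]
      exact sd_le hp (by positivity) (yy_X hn hw h hp M)
    rw [abs_le]
    constructor <;> linarith

end

end Pool.Agent.Helper21.LK
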