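import Pool.Agent.Helper21.JL.Block
import Pool.Agent.Helper21.LK.Fin

/-!
# Many blocks
-/

namespace Pool.Agent.Helper21.LK

open H906K Pool.Agent.H974R3 Polynomial Filter Topology

section
variable {n : ℕ}

theorem trunc_trunc {M : ℕ} (c : Fin M → Fin (2 * n + 1) → Bool) {s b : ℕ} (hs : s ≤ b) :
    trunc (trunc c b) s = trunc c s := by
  funext t
  unfold trunc
  rw [dif_pos (lt_of_lt_of_le t.2 hs)]

theorem trunc_append {M M' : ℕ} (c : Fin M → Fin (2 * n + 1) → Bool)
    (c' : Fin M' → Fin (2 * n + 1) → Bool) : trunc (Fin.append c c') M = c := by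
  funext t
  unfold trunc
  rw [dif_pos (by omega : (t : ℕ) < M + M')]
  exact Fin.append_left c c' t

theorem cav_trunc {M s : ℕ} (hs : s ≤ M) (p : ℕ → ℝ)
    (f : (Fin s → Fin (2 * n + 1) → Bool) → ℂ) :
    cav n M p (fun c => f (trunc c s)) = cav n s p f := by
  obtain ⟨m, rfl⟩ := Nat.exists_eq_add_of_le hs
  rw [cav_append]
  simp only [trunc_append, cav_const]

theorem avg_trunc {M s : ℕ} (hs : s ≤ M) (p : ℕ → ℝ)
    (f : (Fin s → Fin (2 * n + 1) → Bool) → ℝ) :
    avg n M p (fun c => f (trunc c s)) = avg n s p f := by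
  obtain ⟨m, rfl⟩ := Nat.exists_eq_add_of_le hs
  rw [avg_append]
  simp only [trunc_append, avg_const]

variable {w : Pat (2 * n + 1) → PowerSeries ℂ} {t : (PowerSeries ℂ)[X]}

/-- the martingale at the time `s` -/
noncomputable def YY (w : Pat (2 * n + 1) → PowerSeries ℂ) (t : (PowerSeries ℂ)[X])
    (p : ℕ → ℝ) (s : ℕ) {M : ℕ} (c : Fin M → Fin (2 * n + 1) → Bool) : ℝ :=
  yy w t s p (start n) (trunc c s)

theorem YY_trunc {M : ℕ} (p : ℕ → ℝ) (c : Fin M → Fin (2 * n + 1) → Bool) {s b : ℕ} (hs : s ≤ b) :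
    YY w t p s (trunc c b) = YY w t p s c := by
  unfold YY
  rw [trunc_trunc c hs]

theorem YY_append {s m : ℕ} (p : ℕ → ℝ) (c : Fin s → Fin (2 * n + 1) → Bool)
    (c' : Fin m → Fin (2 * n + 1) → Bool) :
    YY w t p (s + m) (Fin.append c c') - YY w t p s (Fin.append c c') =
      yy w t m (fun r => p (s + r)) (run (2 * n) s c (start n)).1 c' := by
  unfold YY
  rw [trunc_self, trunc_append, yy_append]
  ring

variable (hn : 1 ≤ n) (hw : ∀ σ, PowerSeries.coeff 0 (w σ) = 1)
    (h : ∀ x : ℂ, (TL (2 * n) (PowerSeries.C om) (PowerSeries.C x) ez).vecMul w =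
      (t.eval (PowerSeries.C x)) • w)
include hn hw h

theorem step1 {p : ℕ → ℝ} (hp : ∀ s, 0 ≤ p s ∧ p s ≤ 1) {M s s' : ℕ} (h1 : s ≤ s')
    (h2 : s' ≤ M) (f : (Fin s → Fin (2 * n + 1) → Bool) → ℝ) (l : ℝ) :
    ‖cav n M p (fun c => Complex.exp (Complex.I *
        ((f (trunc c s) + l * (YY w t p s' c - YY w t p s c) : ℝ) : ℂ))) -
      Complex.exp (-((l ^ 2 * (∑ r ∈ Finset.Ico s s', vv t n (p r)) / 2 : ℝ) : ℂ)) *
      cav n M p (fun c => Complex.exp (Complex.I * ((f (trunc c s) : ℝ) : ℂ)))‖ ≤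
      eps n l (Real.sqrt (∑ r ∈ Finset.Ico s s', vv t n (p r)) + 8 * BB n) := by
  obtain ⟨m, rfl⟩ := Nat.exists_eq_add_of_le h1
  have e1 : cav n M p (fun c => Complex.exp (Complex.I *
        ((f (trunc c s) + l * (YY w t p (s + m) c - YY w t p s c) : ℝ) : ℂ))) =
      cav n (s + m) p (fun c => Complex.exp (Complex.I *
        ((f (trunc c s) + l * (YY w t p (s + m) c - YY w t p s c) : ℝ) : ℂ))) := by
    rw [← cav_trunc h2]
    congr 1
    funext c
    rw [trunc_trunc c (Nat.le_add_right s m), YY_trunc p c le_rfl,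
      YY_trunc p c (Nat.le_add_right s m)]
  have e2 : cav n M p (fun c => Complex.exp (Complex.I * ((f (trunc c s) : ℝ) : ℂ))) =
      cav n s p (fun c => Complex.exp (Complex.I * ((f c : ℝ) : ℂ))) :=
    cav_trunc ((Nat.le_add_right s m).trans h2) p
      (fun c => Complex.exp (Complex.I * ((f c : ℝ) : ℂ)))
  have e3 : ∑ r ∈ Finset.Ico s (s + m), vv t n (p r) = ∑ r ∈ Finset.range m, vv t n (p (s + r)) := by
    rw [Finset.sum_Ico_eq_sum_range, Nat.add_sub_cancel_left]
  rw [e1, e2, e3, cav_append]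
  set V : ℝ := ∑ r ∈ Finset.range m, vv t n (p (s + r)) with hV
  have e4 : ∀ c : Fin s → Fin (2 * n + 1) → Bool, cav n m (fun r => p (s + r)) (fun c' =>
      Complex.exp (Complex.I * ((f (trunc (Fin.append c c') s) +
        l * (YY w t p (s + m) (Fin.append c c') - YY w t p s (Fin.append c c')) : ℝ) : ℂ))) =
      Complex.exp (Complex.I * ((f c : ℝ) : ℂ)) * cav n m (fun r => p (s + r)) (fun c' =>
        Complex.exp (Complex.I * ((l * yy w t m (fun r => p (s + r))
          (run (2 * n) s c (start n)).1 c' : ℝ) : ℂ))) := by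
    intro c
    rw [← cav_mul]
    congr 1
    funext c'
    rw [trunc_append, YY_append, ← Complex.exp_add]
    congr 1
    push_cast
    ring
  simp only [e4]
  rw [← cav_mul, cav_sub]
  refine (cav_norm_le hp _).trans ?_
  refine avg_le hp _ fun c => ?_
  rw [mul_comm (Complex.exp (-((l ^ 2 * V / 2 : ℝ) : ℂ))), ← mul_sub, norm_mul, norm_cexp, one_mul]
  exact block hn hw h (p := fun r => p (s + r)) (fun r => hp _) m ((reach_start n).go s c) l

/-- **Gaussian approximation of the increments** -/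
theorem steps {p : ℕ → ℝ} (hp : ∀ s, 0 ≤ p s ∧ p s ≤ 1) {M : ℕ} {b : ℕ → ℕ} (hb : Monotone b)
    (l : ℕ → ℝ) (R : ℕ) : b R ≤ M →
    ‖cav n M p (fun c => Complex.exp (Complex.I *
        ((∑ j ∈ Finset.range R, l j * (YY w t p (b (j + 1)) c - YY w t p (b j) c) : ℝ) : ℂ))) -
      Complex.exp (-((∑ j ∈ Finset.range R,
        l j ^ 2 * (∑ r ∈ Finset.Ico (b j) (b (j + 1)), vv t n (p r)) / 2 : ℝ) : ℂ))‖ ≤
      ∑ j ∈ Finset.range R, eps n (l j)
        (Real.sqrt (∑ r ∈ Finset.Ico (b j) (b (j + 1)), vv t n (p r)) + 8 * BB n) := by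
  induction R with
  | zero =>
    intro _
    simp [cav_const]
  | succ R ih =>
    intro hR
    have hR' : b R ≤ M := (hb (Nat.le_succ R)).trans hR
    have h1 := ih hR'
    have h2 := step1 hn hw h hp (hb (Nat.le_succ R)) hR
      (fun c => ∑ j ∈ Finset.range R, l j * (YY w t p (b (j + 1)) c - YY w t p (b j) c)) (l R)
    have e : ∀ c : Fin M → Fin (2 * n + 1) → Bool,
        ∑ j ∈ Finset.range R, l j * (YY w t p (b (j + 1)) (trunc c (b R)) -
          YY w t p (b j) (trunc c (b R))) =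
        ∑ j ∈ Finset.range R, l j * (YY w t p (b (j + 1)) c - YY w t p (b j) c) := by
      intro c
      refine Finset.sum_congr rfl fun j hj => ?_
      rw [Finset.mem_range] at hj
      rw [YY_trunc p c (hb (by omega : j + 1 ≤ R)), YY_trunc p c (hb (by omega : j ≤ R))]
    simp only [e] at h2
    simp only [Finset.sum_range_succ]
    set F : (Fin M → Fin (2 * n + 1) → Bool) → ℝ := fun c =>
      ∑ j ∈ Finset.range R, l j * (YY w t p (b (j + 1)) c - YY w t p (b j) c) with hF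
    set G : ℝ := ∑ j ∈ Finset.range R,
      l j ^ 2 * (∑ r ∈ Finset.Ico (b j) (b (j + 1)), vv t n (p r)) / 2 with hG
    set g : ℝ := l R ^ 2 * (∑ r ∈ Finset.Ico (b R) (b (R + 1)), vv t n (p r)) / 2 with hg
    have hg0 : 0 ≤ g := by
      have : 0 ≤ ∑ r ∈ Finset.Ico (b R) (b (R + 1)), vv t n (p r) :=
        Finset.sum_nonneg fun s _ => vv_nonneg hw h (hp s).1 (hp s).2
      positivity
    have hng : ‖Complex.exp (-((g : ℝ) : ℂ))‖ ≤ 1 := by
      rw [← Complex.ofReal_neg, Complex.norm_exp_ofReal, Real.exp_le_one_iff]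
      linarith
    have e5 : Complex.exp (-((G + g : ℝ) : ℂ)) =
        Complex.exp (-((g : ℝ) : ℂ)) * Complex.exp (-((G : ℝ) : ℂ)) := by
      rw [← Complex.exp_add]
      congr 1
      push_cast
      ring
    rw [e5]
    have e6 : cav n M p (fun c => Complex.exp (Complex.I *
        ((F c + l R * (YY w t p (b (R + 1)) c - YY w t p (b R) c) : ℝ) : ℂ))) -
        Complex.exp (-((g : ℝ) : ℂ)) * Complex.exp (-((G : ℝ) : ℂ)) =
        (cav n M p (fun c => Complex.exp (Complex.I *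
        ((F c + l R * (YY w t p (b (R + 1)) c - YY w t p (b R) c) : ℝ) : ℂ))) -
        Complex.exp (-((g : ℝ) : ℂ)) * cav n M p (fun c =>
          Complex.exp (Complex.I * ((F c : ℝ) : ℂ)))) +
        Complex.exp (-((g : ℝ) : ℂ)) * (cav n M p (fun c =>
          Complex.exp (Complex.I * ((F c : ℝ) : ℂ))) - Complex.exp (-((G : ℝ) : ℂ))) := by
      ring
    rw [e6]
    refine (norm_add_le _ _).trans ?_
    rw [norm_mul, add_comm (∑ x ∈ Finset.range R, _) (eps n (l R) _)]
    refine add_le_add h2 ?_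
    calc _ ≤ 1 * ‖cav n M p (fun c =>
          Complex.exp (Complex.I * ((F c : ℝ) : ℂ))) - Complex.exp (-((G : ℝ) : ℂ))‖ :=
          mul_le_mul_of_nonneg_right hng (norm_nonneg _)
      _ ≤ _ := by rw [one_mul]; exact h1

end

end Pool.Agent.Helper21.LK
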