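import Pool.Agent.Helper21.JL.Steps

/-!
# Refinement of the blocks
-/

namespace Pool.Agent.Helper21.LK

open H906K Pool.Agent.H974R3 Polynomial Filter Topology

section
variable {n : ℕ} {w : Pat (2 * n + 1) → PowerSeries ℂ} {t : (PowerSeries ℂ)[X]}
variable (hn : 1 ≤ n) (hw : ∀ σ, PowerSeries.coeff 0 (w σ) = 1)
    (h : ∀ x : ℂ, (TL (2 * n) (PowerSeries.C om) (PowerSeries.C x) ez).vecMul w =
      (t.eval (PowerSeries.C x)) • w)
include hn hw h

theorem step2 {p : ℕ → ℝ} (hp : ∀ s, 0 ≤ p s ∧ p s ≤ 1) {M s s' : ℕ} (h1 : s ≤ s')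
    (h2 : s' ≤ M) (f : (Fin s → Fin (2 * n + 1) → Bool) → ℝ) (l : ℝ) {K : ℕ} (hK : 1 ≤ K) {a : ℝ}
    (ha : ∀ i < K, Real.sqrt (∑ r ∈ Finset.Ico (s + i * (s' - s) / K) (s + (i + 1) * (s' - s) / K),
      vv t n (p r)) + 8 * BB n ≤ a) :
    ‖cav n M p (fun c => Complex.exp (Complex.I *
        ((f (trunc c s) + l * (YY w t p s' c - YY w t p s c) : ℝ) : ℂ))) -
      Complex.exp (-((l ^ 2 * (∑ r ∈ Finset.Ico s s', vv t n (p r)) / 2 : ℝ) : ℂ)) *
      cav n M p (fun c => Complex.exp (Complex.I * ((f (trunc c s) : ℝ) : ℂ)))‖ ≤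
      K * eps n l a := by
  set u : ℕ → ℕ := fun i => s + i * (s' - s) / K with hu
  have hu0 : u 0 = s := by simp [hu]
  have huK : u K = s' := by
    rw [hu]
    simp only
    rw [Nat.mul_div_cancel_left _ (by omega)]
    omega
  have humono : Monotone u := by
    intro i j hij
    rw [hu]
    simp only
    have : i * (s' - s) / K ≤ j * (s' - s) / K :=
      Nat.div_le_div_right (Nat.mul_le_mul_right _ hij)
    omega
  have key : ∀ i : ℕ, i ≤ K →
      ‖cav n M p (fun c => Complex.exp (Complex.I *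
        ((f (trunc c s) + l * (YY w t p (u i) c - YY w t p s c) : ℝ) : ℂ))) -
      Complex.exp (-((l ^ 2 * (∑ r ∈ Finset.Ico s (u i), vv t n (p r)) / 2 : ℝ) : ℂ)) *
      cav n M p (fun c => Complex.exp (Complex.I * ((f (trunc c s) : ℝ) : ℂ)))‖ ≤
      i * eps n l a := by
    intro i
    induction i with
    | zero =>
      intro _
      rw [hu0]
      simp
    | succ i ih =>
      intro hi
      have ih := ih (by omega)
      have hsi : s ≤ u i := by rw [← hu0]; exact humono (Nat.zero_le i)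
      have hii : u i ≤ u (i + 1) := humono (Nat.le_succ i)
      have hiM : u (i + 1) ≤ M := by
        refine (humono (show i + 1 ≤ K from hi)).trans ?_
        rw [huK]
        exact h2
      have h3 := step1 hn hw h hp hii hiM
        (fun c => f (trunc c s) + l * (YY w t p (u i) c - YY w t p s c)) l
      have e : ∀ c : Fin M → Fin (2 * n + 1) → Bool,
          f (trunc (trunc c (u i)) s) + l * (YY w t p (u i) (trunc c (u i)) -
            YY w t p s (trunc c (u i))) =
          f (trunc c s) + l * (YY w t p (u i) c - YY w t p s c) := by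
        intro c
        rw [trunc_trunc c hsi, YY_trunc p c le_rfl, YY_trunc p c hsi]
      simp only [e] at h3
      have e1 : ∀ c : Fin M → Fin (2 * n + 1) → Bool,
          f (trunc c s) + l * (YY w t p (u i) c - YY w t p s c) +
            l * (YY w t p (u (i + 1)) c - YY w t p (u i) c) =
          f (trunc c s) + l * (YY w t p (u (i + 1)) c - YY w t p s c) := by
        intro c
        ring
      simp only [e1] at h3
      have e2 : ∑ r ∈ Finset.Ico s (u (i + 1)), vv t n (p r) =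
          ∑ r ∈ Finset.Ico s (u i), vv t n (p r) +
            ∑ r ∈ Finset.Ico (u i) (u (i + 1)), vv t n (p r) :=
        (Finset.sum_Ico_consecutive _ hsi hii).symm
      rw [e2]
      set G : ℝ := ∑ r ∈ Finset.Ico s (u i), vv t n (p r) with hG
      set g : ℝ := ∑ r ∈ Finset.Ico (u i) (u (i + 1)), vv t n (p r) with hg
      have hg0 : 0 ≤ g := Finset.sum_nonneg fun s _ => vv_nonneg hw h (hp s).1 (hp s).2
      have hng : ‖Complex.exp (-((l ^ 2 * g / 2 : ℝ) : ℂ))‖ ≤ 1 := by
        rw [← Complex.ofReal_neg, Complex.norm_exp_ofReal, Real.exp_le_one_iff]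
        have : 0 ≤ l ^ 2 * g / 2 := by positivity
        linarith
      have e5 : Complex.exp (-((l ^ 2 * (G + g) / 2 : ℝ) : ℂ)) =
          Complex.exp (-((l ^ 2 * g / 2 : ℝ) : ℂ)) * Complex.exp (-((l ^ 2 * G / 2 : ℝ) : ℂ)) := by
        rw [← Complex.exp_add]
        congr 1
        push_cast
        ring
      rw [e5]
      set a1 := cav n M p (fun c => Complex.exp (Complex.I *
        ((f (trunc c s) + l * (YY w t p (u (i + 1)) c - YY w t p s c) : ℝ) : ℂ))) with ha1
      set a2 := cav n M p (fun c => Complex.exp (Complex.I *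
        ((f (trunc c s) + l * (YY w t p (u i) c - YY w t p s c) : ℝ) : ℂ))) with ha2
      set a3 := cav n M p (fun c => Complex.exp (Complex.I * ((f (trunc c s) : ℝ) : ℂ))) with ha3
      have e6 : a1 - Complex.exp (-((l ^ 2 * g / 2 : ℝ) : ℂ)) *
          Complex.exp (-((l ^ 2 * G / 2 : ℝ) : ℂ)) * a3 =
          (a1 - Complex.exp (-((l ^ 2 * g / 2 : ℝ) : ℂ)) * a2) +
          Complex.exp (-((l ^ 2 * g / 2 : ℝ) : ℂ)) *
            (a2 - Complex.exp (-((l ^ 2 * G / 2 : ℝ) : ℂ)) * a3) := by ring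
      rw [e6]
      refine (norm_add_le _ _).trans ?_
      rw [norm_mul]
      have h4 : eps n l (Real.sqrt g + 8 * BB n) ≤ eps n l a := by
        apply eps_mono
        · have := BB_pos n
          positivity
        · exact ha i (by omega)
      have h5 : ‖Complex.exp (-((l ^ 2 * g / 2 : ℝ) : ℂ))‖ *
          ‖a2 - Complex.exp (-((l ^ 2 * G / 2 : ℝ) : ℂ)) * a3‖ ≤ i * eps n l a := by
        calc _ ≤ 1 * ‖a2 - Complex.exp (-((l ^ 2 * G / 2 : ℝ) : ℂ)) * a3‖ :=
              mul_le_mul_of_nonneg_right hng (norm_nonneg _)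
          _ ≤ _ := by rw [one_mul]; exact ih
      rw [Nat.cast_succ]
      linarith
  have := key K le_rfl
  rw [huK] at this
  exact this

/-- **Gaussian approximation of the increments**, refined -/
theorem steps2 {p : ℕ → ℝ} (hp : ∀ s, 0 ≤ p s ∧ p s ≤ 1) {M : ℕ} {b : ℕ → ℕ} (hb : Monotone b)
    (l : ℕ → ℝ) {K : ℕ} (hK : 1 ≤ K) {a : ℝ} (R : ℕ) (ha : ∀ j < R, ∀ i < K,
      Real.sqrt (∑ r ∈ Finset.Ico (b j + i * (b (j + 1) - b j) / K)
        (b j + (i + 1) * (b (j + 1) - b j) / K), vv t n (p r)) + 8 * BB n ≤ a) : b R ≤ M →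
    ‖cav n M p (fun c => Complex.exp (Complex.I *
        ((∑ j ∈ Finset.range R, l j * (YY w t p (b (j + 1)) c - YY w t p (b j) c) : ℝ) : ℂ))) -
      Complex.exp (-((∑ j ∈ Finset.range R,
        l j ^ 2 * (∑ r ∈ Finset.Ico (b j) (b (j + 1)), vv t n (p r)) / 2 : ℝ) : ℂ))‖ ≤
      ∑ j ∈ Finset.range R, K * eps n (l j) a := by
  induction R with
  | zero =>
    intro _
    simp [cav_const]
  | succ R ih =>
    intro hR
    have hR' : b R ≤ M := (hb (Nat.le_succ R)).trans hR
    have h1 := ih (fun j hj => ha j (by omega)) hR'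
    have h2 := step2 hn hw h hp (hb (Nat.le_succ R)) hR
      (fun c => ∑ j ∈ Finset.range R, l j * (YY w t p (b (j + 1)) c - YY w t p (b j) c)) (l R)
      hK (ha R (by omega))
    have e : ∀ c : Fin M → Fin (2 * n + 1) → Bool,
        ∑ j ∈ Finset.range R, l j * (YY w t p (b (j + 1)) (trunc c (b R)) -
          YY w t p (b j) (trunc c (b R))) =
        ∑ j ∈ Finset.range R, l j * (YY w t p (b (j + 1)) c - YY w t p (b j) c) := by
      intro c
      refine Finset.sum_congr rfl fun j hj => ?_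
      rw [Finset.mem_range] at hj
      rw [YY_trunc p c (hb (by omega : j + 1 ≤ R)), YY_trunc p c (hb (by omega : j ≤ R))]
    simp only [e] at h2
    simp only [Finset.sum_range_succ]
    set F : (Fin M → Fin (2 * n + 1) → Bool) → ℝ := fun c =>
      ∑ j ∈ Finset.range R, l j * (YY w t p (b (j + 1)) c - YY w t p (b j) c) with hF
    set G : ℝ := ∑ j ∈ Finset.range R,
      l j ^ 2 * (∑ r ∈ Finset.Ico (b j) (b (j + 1)), vv t n (p r)) / 2 with hG
    set g : ℝ := l R ^ 2 * (∑ r ∈ Finset.Ico (b R) (b (R + 1)), vv t n (p r)) / 2 with hg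
    have hg0 : 0 ≤ g := by
      have : 0 ≤ ∑ r ∈ Finset.Ico (b R) (b (R + 1)), vv t n (p r) :=
        Finset.sum_nonneg fun s _ => vv_nonneg hw h (hp s).1 (hp s).2
      positivity
    have hng : ‖Complex.exp (-((g : ℝ) : ℂ))‖ ≤ 1 := by
      rw [← Complex.ofReal_neg, Complex.norm_exp_ofReal, Real.exp_le_one_iff]
      linarith
    have e5 : Complex.exp (-((G + g : ℝ) : ℂ)) =
        Complex.exp (-((g : ℝ) : ℂ)) * Complex.exp (-((G : ℝ) : ℂ)) := by
      rw [← Complex.exp_add]
      congr 1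
      push_cast
      ring
    rw [e5]
    have e6 : cav n M p (fun c => Complex.exp (Complex.I *
        ((F c + l R * (YY w t p (b (R + 1)) c - YY w t p (b R) c) : ℝ) : ℂ))) -
        Complex.exp (-((g : ℝ) : ℂ)) * Complex.exp (-((G : ℝ) : ℂ)) =
        (cav n M p (fun c => Complex.exp (Complex.I *
        ((F c + l R * (YY w t p (b (R + 1)) c - YY w t p (b R) c) : ℝ) : ℂ))) -
        Complex.exp (-((g : ℝ) : ℂ)) * cav n M p (fun c =>
          Complex.exp (Complex.I * ((F c : ℝ) : ℂ)))) +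
        Complex.exp (-((g : ℝ) : ℂ)) * (cav n M p (fun c =>
          Complex.exp (Complex.I * ((F c : ℝ) : ℂ))) - Complex.exp (-((G : ℝ) : ℂ))) := by
      ring
    rw [e6]
    refine (norm_add_le _ _).trans ?_
    rw [norm_mul, add_comm (∑ x ∈ Finset.range R, _) (K * eps n (l R) a)]
    refine add_le_add h2 ?_
    calc _ ≤ 1 * ‖cav n M p (fun c =>
          Complex.exp (Complex.I * ((F c : ℝ) : ℂ))) - Complex.exp (-((G : ℝ) : ℂ))‖ :=
          mul_le_mul_of_nonneg_right hng (norm_nonneg _)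
      _ ≤ _ := by rw [one_mul]; exact h1

/-- the centered displacement -/
theorem YY_XX {p : ℕ → ℝ} (hp : ∀ s, 0 ≤ p s ∧ p s ≤ 1) {M : ℕ}
    (c : Fin M → Fin (2 * n + 1) → Bool) (s : ℕ) :
    |YY w t p s c - ((lev n c s : ℝ) - meanX n s p)| ≤ 2 * BB n :=
  yy_X hn hw h hp s (trunc c s)

end

end Pool.Agent.Helper21.LK
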