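import Pool.Agent.Helper21.JL.Lim2

/-!
# Gaussian approximation in every environment, with absolute constants
-/

namespace Pool.Agent.Helper21.LK

open H906K Pool.Agent.H974R3 Polynomial Filter Topology

/-- division of an interval into pieces of small mass -/
theorem subtimes {f : ℕ → ℝ} (hf : ∀ r, 0 ≤ f r) {F V : ℝ} (hF : ∀ r, f r ≤ F) {s s' : ℕ}
    (hs : s ≤ s') (hV : ∑ r ∈ Finset.Ico s s', f r ≤ V) {K : ℕ} (hK : 1 ≤ K) :
    ∃ u : ℕ → ℕ, u 0 = s ∧ u K = s' ∧ Monotone u ∧
      ∀ i < K, ∑ r ∈ Finset.Ico (u i) (u (i + 1)), f r ≤ V / K + F := by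
  classical
  set G : ℕ → ℝ := fun x => ∑ r ∈ Finset.Ico s x, f r with hG
  have hF0 : 0 ≤ F := (hf 0).trans (hF 0)
  have hGmono : ∀ x y, x ≤ y → G x ≤ G y := fun x y hxy =>
    Finset.sum_le_sum_of_subset_of_nonneg (Finset.Ico_subset_Ico_right hxy) fun r _ _ => hf r
  have hGs : G s = 0 := by simp [hG]
  have hG0 : 0 ≤ G s' := by rw [← hGs]; exact hGmono _ _ hs
  have hK0 : (0 : ℝ) < K := by exact_mod_cast hK
  have hex : ∀ i : ℕ, i < K → ∃ x, s ≤ x ∧ i * G s' / K ≤ G x := by
    intro i hi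
    refine ⟨s', hs, ?_⟩
    rw [div_le_iff₀ hK0]
    have : (i : ℝ) ≤ K := by exact_mod_cast hi.le
    nlinarith
  set u : ℕ → ℕ := fun i => if h : i < K then Nat.find (hex i h) else s' with hu
  have hu1 : ∀ i, ∀ h : i < K, u i = Nat.find (hex i h) := fun i h => by
    rw [hu]; simp only; rw [dif_pos h]
  have hu2 : ∀ i, ¬ i < K → u i = s' := fun i h => by
    rw [hu]; simp only; rw [dif_neg h]
  have hus : ∀ i, u i ≤ s' := by
    intro i
    by_cases h : i < K
    · rw [hu1 i h]
      apply Nat.find_min'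
      refine ⟨hs, ?_⟩
      rw [div_le_iff₀ hK0]
      have : (i : ℝ) ≤ K := by exact_mod_cast h.le
      nlinarith
    · rw [hu2 i h]
  have hsu : ∀ i, s ≤ u i := by
    intro i
    by_cases h : i < K
    · rw [hu1 i h]
      exact (Nat.find_spec (hex i h)).1
    · rw [hu2 i h]; exact hs
  have hGu : ∀ i, i < K → i * G s' / K ≤ G (u i) := by
    intro i h
    rw [hu1 i h]
    exact (Nat.find_spec (hex i h)).2
  have hGu2 : ∀ i, i < K → G (u i) ≤ i * G s' / K + F := by
    intro i h
    have h0 : 0 ≤ i * G s' / K := by positivity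
    rcases Nat.eq_or_lt_of_le (hsu i) with h1 | h1
    · rw [← h1, hGs]
      linarith
    · obtain ⟨x, hx⟩ : ∃ x, u i = x + 1 := ⟨u i - 1, by omega⟩
      have h2 : ¬ (s ≤ x ∧ i * G s' / K ≤ G x) := by
        apply Nat.find_min (hex i h)
        rw [← hu1 i h]
        omega
      rw [not_and, not_le] at h2
      have h3 := h2 (by omega)
      have h4 : G (u i) = G x + f x := by
        rw [hx, hG]
        simp only
        rw [Finset.sum_Ico_succ_top (by omega)]
      rw [h4]
      linarith [hF x]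
  have hmono : Monotone u := by
    apply monotone_nat_of_le_succ
    intro i
    by_cases h : i + 1 < K
    · have h' : i < K := by omega
      rw [hu1 i h']
      apply Nat.find_min'
      refine ⟨hsu _, le_trans ?_ (hGu (i + 1) h)⟩
      apply div_le_div_of_nonneg_right _ hK0.le
      push_cast
      nlinarith
    · rw [hu2 (i + 1) h]
      exact hus i
  refine ⟨u, ?_, hu2 K (lt_irrefl K), hmono, ?_⟩
  · apply le_antisymm _ (hsu 0)
    rw [hu1 0 (by omega)]
    apply Nat.find_min'
    refine ⟨le_rfl, ?_⟩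
    rw [hGs]
    simp
  · intro i hi
    have e : ∑ r ∈ Finset.Ico (u i) (u (i + 1)), f r = G (u (i + 1)) - G (u i) := by
      rw [hG]
      simp only
      rw [← Finset.sum_Ico_consecutive f (hsu i) (hmono (Nat.le_succ i))]
      ring
    have h1 := hGu i hi
    have h2 : G (u (i + 1)) ≤ (i + 1) * G s' / K + F := by
      by_cases h : i + 1 < K
      · have := hGu2 (i + 1) h
        push_cast at this
        exact this
      · rw [hu2 (i + 1) h]
        have h3 : i + 1 = K := by omega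
        have h4 : ((i : ℝ) + 1) = K := by exact_mod_cast h3
        rw [h4, mul_div_cancel_left₀ _ hK0.ne']
        linarith
    rw [e]
    have h5 : ((i : ℝ) + 1) * G s' / K - i * G s' / K = G s' / K := by ring
    have h6 : G s' / K ≤ V / K := div_le_div_of_nonneg_right hV hK0.le
    linarith

section
variable {n : ℕ} {w : Pat (2 * n + 1) → PowerSeries ℂ} {t : (PowerSeries ℂ)[X]}
variable (hn : 1 ≤ n) (hw : ∀ σ, PowerSeries.coeff 0 (w σ) = 1)
    (h : ∀ x : ℂ, (TL (2 * n) (PowerSeries.C om) (PowerSeries.C x) ez).vecMul w =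
      (t.eval (PowerSeries.C x)) • w)
include hn hw h

theorem step3 {p : ℕ → ℝ} (hp : ∀ s, 0 ≤ p s ∧ p s ≤ 1) {M s s' : ℕ}
    (h2 : s' ≤ M) (f : (Fin s → Fin (2 * n + 1) → Bool) → ℝ) (l : ℝ) {K : ℕ} {a : ℝ}
    {u : ℕ → ℕ} (hu0 : u 0 = s) (huK : u K = s') (humono : Monotone u)
    (ha : ∀ i < K, Real.sqrt (∑ r ∈ Finset.Ico (u i) (u (i + 1)),
      vv t n (p r)) + 8 * BB n ≤ a) :
    ‖cav n M p (fun c => Complex.exp (Complex.I *
        ((f (trunc c s) + l * (YY w t p s' c - YY w t p s c) : ℝ) : ℂ))) -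
      Complex.exp (-((l ^ 2 * (∑ r ∈ Finset.Ico s s', vv t n (p r)) / 2 : ℝ) : ℂ)) *
      cav n M p (fun c => Complex.exp (Complex.I * ((f (trunc c s) : ℝ) : ℂ)))‖ ≤
      K * eps n l a := by
  have key : ∀ i : ℕ, i ≤ K →
      ‖cav n M p (fun c => Complex.exp (Complex.I *
        ((f (trunc c s) + l * (YY w t p (u i) c - YY w t p s c) : ℝ) : ℂ))) -
      Complex.exp (-((l ^ 2 * (∑ r ∈ Finset.Ico s (u i), vv t n (p r)) / 2 : ℝ) : ℂ)) *
      cav n M p (fun c => Complex.exp (Complex.I * ((f (trunc c s) : ℝ) : ℂ)))‖ ≤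
      i * eps n l a := by
    intro i
    induction i with
    | zero =>
      intro _
      rw [hu0]
      simp
    | succ i ih =>
      intro hi
      have ih := ih (by omega)
      have hsi : s ≤ u i := by rw [← hu0]; exact humono (Nat.zero_le i)
      have hii : u i ≤ u (i + 1) := humono (Nat.le_succ i)
      have hiM : u (i + 1) ≤ M := by
        refine (humono (show i + 1 ≤ K from hi)).trans ?_
        rw [huK]
        exact h2
      have h3 := step1 hn hw h hp hii hiM
        (fun c => f (trunc c s) + l * (YY w t p (u i) c - YY w t p s c)) l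
      have e : ∀ c : Fin M → Fin (2 * n + 1) → Bool,
          f (trunc (trunc c (u i)) s) + l * (YY w t p (u i) (trunc c (u i)) -
            YY w t p s (trunc c (u i))) =
          f (trunc c s) + l * (YY w t p (u i) c - YY w t p s c) := by
        intro c
        rw [trunc_trunc c hsi, YY_trunc p c le_rfl, YY_trunc p c hsi]
      simp only [e] at h3
      have e1 : ∀ c : Fin M → Fin (2 * n + 1) → Bool,
          f (trunc c s) + l * (YY w t p (u i) c - YY w t p s c) +
            l * (YY w t p (u (i + 1)) c - YY w t p (u i) c) =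
          f (trunc c s) + l * (YY w t p (u (i + 1)) c - YY w t p s c) := by
        intro c
        ring
      simp only [e1] at h3
      have e2 : ∑ r ∈ Finset.Ico s (u (i + 1)), vv t n (p r) =
          ∑ r ∈ Finset.Ico s (u i), vv t n (p r) +
            ∑ r ∈ Finset.Ico (u i) (u (i + 1)), vv t n (p r) :=
        (Finset.sum_Ico_consecutive _ hsi hii).symm
      rw [e2]
      set G : ℝ := ∑ r ∈ Finset.Ico s (u i), vv t n (p r) with hG
      set g : ℝ := ∑ r ∈ Finset.Ico (u i) (u (i + 1)), vv t n (p r) with hg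
      have hg0 : 0 ≤ g := Finset.sum_nonneg fun s _ => vv_nonneg hw h (hp s).1 (hp s).2
      have hng : ‖Complex.exp (-((l ^ 2 * g / 2 : ℝ) : ℂ))‖ ≤ 1 := by
        rw [← Complex.ofReal_neg, Complex.norm_exp_ofReal, Real.exp_le_one_iff]
        have : 0 ≤ l ^ 2 * g / 2 := by positivity
        linarith
      have e5 : Complex.exp (-((l ^ 2 * (G + g) / 2 : ℝ) : ℂ)) =
          Complex.exp (-((l ^ 2 * g / 2 : ℝ) : ℂ)) * Complex.exp (-((l ^ 2 * G / 2 : ℝ) : ℂ)) := by
        rw [← Complex.exp_add]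
        congr 1
        push_cast
        ring
      rw [e5]
      set a1 := cav n M p (fun c => Complex.exp (Complex.I *
        ((f (trunc c s) + l * (YY w t p (u (i + 1)) c - YY w t p s c) : ℝ) : ℂ))) with ha1
      set a2 := cav n M p (fun c => Complex.exp (Complex.I *
        ((f (trunc c s) + l * (YY w t p (u i) c - YY w t p s c) : ℝ) : ℂ))) with ha2
      set a3 := cav n M p (fun c => Complex.exp (Complex.I * ((f (trunc c s) : ℝ) : ℂ))) with ha3
      have e6 : a1 - Complex.exp (-((l ^ 2 * g / 2 : ℝ) : ℂ)) *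
          Complex.exp (-((l ^ 2 * G / 2 : ℝ) : ℂ)) * a3 =
          (a1 - Complex.exp (-((l ^ 2 * g / 2 : ℝ) : ℂ)) * a2) +
          Complex.exp (-((l ^ 2 * g / 2 : ℝ) : ℂ)) *
            (a2 - Complex.exp (-((l ^ 2 * G / 2 : ℝ) : ℂ)) * a3) := by ring
      rw [e6]
      refine (norm_add_le _ _).trans ?_
      rw [norm_mul]
      have h4 : eps n l (Real.sqrt g + 8 * BB n) ≤ eps n l a := by
        apply eps_mono
        · have := BB_pos n
          positivity
        · exact ha i (by omega)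
      have h5 : ‖Complex.exp (-((l ^ 2 * g / 2 : ℝ) : ℂ))‖ *
          ‖a2 - Complex.exp (-((l ^ 2 * G / 2 : ℝ) : ℂ)) * a3‖ ≤ i * eps n l a := by
        calc _ ≤ 1 * ‖a2 - Complex.exp (-((l ^ 2 * G / 2 : ℝ) : ℂ)) * a3‖ :=
              mul_le_mul_of_nonneg_right hng (norm_nonneg _)
          _ ≤ _ := by rw [one_mul]; exact ih
      rw [Nat.cast_succ]
      linarith
  have := key K le_rfl
  rw [huK] at this
  exact this

/-- **Gaussian approximation of the increments**, refined -/
theorem steps3 {p : ℕ → ℝ} (hp : ∀ s, 0 ≤ p s ∧ p s ≤ 1) {M : ℕ} {b : ℕ → ℕ} (hb : Monotone b)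
    (l : ℕ → ℝ) {K : ℕ} {a : ℝ} (R : ℕ) (ha : ∀ j < R, ∃ u : ℕ → ℕ, u 0 = b j ∧
      u K = b (j + 1) ∧ Monotone u ∧ ∀ i < K,
      Real.sqrt (∑ r ∈ Finset.Ico (u i) (u (i + 1)), vv t n (p r)) + 8 * BB n ≤ a) : b R ≤ M →
    ‖cav n M p (fun c => Complex.exp (Complex.I *
        ((∑ j ∈ Finset.range R, l j * (YY w t p (b (j + 1)) c - YY w t p (b j) c) : ℝ) : ℂ))) -
      Complex.exp (-((∑ j ∈ Finset.range R,
        l j ^ 2 * (∑ r ∈ Finset.Ico (b j) (b (j + 1)), vv t n (p r)) / 2 : ℝ) : ℂ))‖ ≤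
      ∑ j ∈ Finset.range R, K * eps n (l j) a := by
  induction R with
  | zero =>
    intro _
    simp [cav_const]
  | succ R ih =>
    intro hR
    have hR' : b R ≤ M := (hb (Nat.le_succ R)).trans hR
    have h1 := ih (fun j hj => ha j (by omega)) hR'
    obtain ⟨u, hu0, huK, humono, hu⟩ := ha R (by omega)
    have h2 := step3 hn hw h hp hR
      (fun c => ∑ j ∈ Finset.range R, l j * (YY w t p (b (j + 1)) c - YY w t p (b j) c)) (l R)
      hu0 huK humono hu
    have e : ∀ c : Fin M → Fin (2 * n + 1) → Bool,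
        ∑ j ∈ Finset.range R, l j * (YY w t p (b (j + 1)) (trunc c (b R)) -
          YY w t p (b j) (trunc c (b R))) =
        ∑ j ∈ Finset.range R, l j * (YY w t p (b (j + 1)) c - YY w t p (b j) c) := by
      intro c
      refine Finset.sum_congr rfl fun j hj => ?_
      rw [Finset.mem_range] at hj
      rw [YY_trunc p c (hb (by omega : j + 1 ≤ R)), YY_trunc p c (hb (by omega : j ≤ R))]
    simp only [e] at h2
    simp only [Finset.sum_range_succ]
    set F : (Fin M → Fin (2 * n + 1) → Bool) → ℝ := fun c =>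
      ∑ j ∈ Finset.range R, l j * (YY w t p (b (j + 1)) c - YY w t p (b j) c) with hF
    set G : ℝ := ∑ j ∈ Finset.range R,
      l j ^ 2 * (∑ r ∈ Finset.Ico (b j) (b (j + 1)), vv t n (p r)) / 2 with hG
    set g : ℝ := l R ^ 2 * (∑ r ∈ Finset.Ico (b R) (b (R + 1)), vv t n (p r)) / 2 with hg
    have hg0 : 0 ≤ g := by
      have : 0 ≤ ∑ r ∈ Finset.Ico (b R) (b (R + 1)), vv t n (p r) :=
        Finset.sum_nonneg fun s _ => vv_nonneg hw h (hp s).1 (hp s).2
      positivity
    have hng : ‖Complex.exp (-((g : ℝ) : ℂ))‖ ≤ 1 := by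
      rw [← Complex.ofReal_neg, Complex.norm_exp_ofReal, Real.exp_le_one_iff]
      linarith
    have e5 : Complex.exp (-((G + g : ℝ) : ℂ)) =
        Complex.exp (-((g : ℝ) : ℂ)) * Complex.exp (-((G : ℝ) : ℂ)) := by
      rw [← Complex.exp_add]
      congr 1
      push_cast
      ring
    rw [e5]
    have e6 : cav n M p (fun c => Complex.exp (Complex.I *
        ((F c + l R * (YY w t p (b (R + 1)) c - YY w t p (b R) c) : ℝ) : ℂ))) -
        Complex.exp (-((g : ℝ) : ℂ)) * Complex.exp (-((G : ℝ) : ℂ)) =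
        (cav n M p (fun c => Complex.exp (Complex.I *
        ((F c + l R * (YY w t p (b (R + 1)) c - YY w t p (b R) c) : ℝ) : ℂ))) -
        Complex.exp (-((g : ℝ) : ℂ)) * cav n M p (fun c =>
          Complex.exp (Complex.I * ((F c : ℝ) : ℂ)))) +
        Complex.exp (-((g : ℝ) : ℂ)) * (cav n M p (fun c =>
          Complex.exp (Complex.I * ((F c : ℝ) : ℂ))) - Complex.exp (-((G : ℝ) : ℂ))) := by
      ring
    rw [e6]
    refine (norm_add_le _ _).trans ?_
    rw [norm_mul, add_comm (∑ x ∈ Finset.range R, _) (K * eps n (l R) a)]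
    refine add_le_add h2 ?_
    calc _ ≤ 1 * ‖cav n M p (fun c =>
          Complex.exp (Complex.I * ((F c : ℝ) : ℂ))) - Complex.exp (-((G : ℝ) : ℂ))‖ :=
          mul_le_mul_of_nonneg_right hng (norm_nonneg _)
      _ ≤ _ := by rw [one_mul]; exact h1

end

end Pool.Agent.Helper21.LK
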